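import Pool.Agent.Helper78.DF.Hecke

/-!
# The norm of a Hecke operator on `ℓ²(G / K)`
-/

set_option autoImplicit false

open scoped ENNReal ComplexConjugate

noncomputable section

namespace Pool.Agent.Helper78.DF

variable {G : Type} [Group G] {K : Subgroup G}

theorem op_supp {φ : G → ℝ} (hφ : IsHecke K φ) (h : G ⧸ K → ℂ) (hf : {y | h y ≠ 0}.Finite) :
    (Function.support fun x => ‖op (hker K φ) h x‖ ^ 2).Finite := by
  refine (hf.biUnion fun y _ => hker_col hφ y).subset ?_
  intro x hx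
  rw [Function.mem_support] at hx
  by_contra hcon
  apply hx
  have : op (hker K φ) h x = 0 := by
    rw [op_eq (isKer_hker hφ)]
    refine Finset.sum_eq_zero fun y _ => ?_
    by_cases hy : h y = 0
    · rw [hy, mul_zero]
    · have : hker K φ x y = 0 := by
        by_contra hk
        apply hcon
        simp only [Set.mem_iUnion]
        exact ⟨y, hy, hk⟩
      rw [this]
      simp
  rw [this]
  simp

theorem normBd_exists {φ : G → ℝ} (hφ : IsHecke K φ) : ∃ N, NormBd (hker K φ) N := by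
  classical
  set κ := hker K φ with hκ
  set R : ℝ≥0∞ := ∑' y, ke κ (QuotientGroup.mk 1) y with hR
  set C : ℝ≥0∞ := ∑' x, ke κ x (QuotientGroup.mk 1) with hC
  have hrow : ∀ x, ∑' y, ke κ x y = R := by
    intro x
    rw [hR, ← (MulAction.toPerm (x.out : G) : Equiv.Perm (G ⧸ K)).tsum_eq (fun y => ke κ x y)]
    refine tsum_congr fun y => ?_
    show ke κ x (x.out • y) = _
    unfold ke
    congr 1
    rw [hκ, ← hker_inv hφ x.out (QuotientGroup.mk 1) y]
    congr 1
    have : x.out • (QuotientGroup.mk 1 : G ⧸ K) = QuotientGroup.mk (x.out * 1) := rfl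
    rw [this, mul_one, mk_out']
  have hcol : ∀ y, ∑' x, ke κ x y = C := by
    intro y
    rw [hC, ← (MulAction.toPerm (y.out : G) : Equiv.Perm (G ⧸ K)).tsum_eq (fun x => ke κ x y)]
    refine tsum_congr fun x => ?_
    show ke κ (y.out • x) y = _
    unfold ke
    congr 1
    rw [hκ, ← hker_inv hφ y.out x (QuotientGroup.mk 1)]
    congr 1
    have : y.out • (QuotientGroup.mk 1 : G ⧸ K) = QuotientGroup.mk (y.out * 1) := rfl
    rw [this, mul_one, mk_out']
  have hRt : R ≠ ⊤ := by
    rw [hR, tsum_eq_sum (s := (hker_row hφ (QuotientGroup.mk 1)).toFinset)]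
    · exact ENNReal.sum_ne_top.2 fun y _ => ENNReal.ofReal_ne_top
    · intro y hy
      have : κ (QuotientGroup.mk 1) y = 0 := by simpa using hy
      unfold ke
      rw [this]
      simp
  have hCt : C ≠ ⊤ := by
    rw [hC, tsum_eq_sum (s := (hker_col hφ (QuotientGroup.mk 1)).toFinset)]
    · exact ENNReal.sum_ne_top.2 fun y _ => ENNReal.ofReal_ne_top
    · intro y hy
      have : κ y (QuotientGroup.mk 1) = 0 := by simpa using hy
      unfold ke
      rw [this]
      simp
  refine ⟨Real.sqrt (R.toReal * C.toReal), Real.sqrt_nonneg _, fun h hf => ?_⟩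
  rw [Real.sq_sqrt (mul_nonneg ENNReal.toReal_nonneg ENNReal.toReal_nonneg)]
  have hsupp' : (Function.support fun y => ‖h y‖ ^ 2).Finite := by
    refine hf.subset ?_
    intro y hy
    rw [Function.mem_support] at hy
    intro h0
    apply hy
    rw [h0]
    simp
  have hnn : 0 ≤ R.toReal * C.toReal * ∑' y, ‖h y‖ ^ 2 :=
    mul_nonneg (mul_nonneg ENNReal.toReal_nonneg ENNReal.toReal_nonneg)
      (tsum_nonneg fun y => by positivity)
  rw [← ENNReal.ofReal_le_ofReal_iff hnn,
    ENNReal.ofReal_tsum_of_nonneg (fun x => by positivity)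
      (summable_of_hasFiniteSupport (op_supp hφ h hf)),
    ENNReal.ofReal_mul (mul_nonneg ENNReal.toReal_nonneg ENNReal.toReal_nonneg),
    ENNReal.ofReal_mul ENNReal.toReal_nonneg, ENNReal.ofReal_toReal hRt, ENNReal.ofReal_toReal hCt,
    ENNReal.ofReal_tsum_of_nonneg (fun x => by positivity)
      (summable_of_hasFiniteSupport hsupp')]
  calc ∑' x, ENNReal.ofReal (‖op κ h x‖ ^ 2)
      ≤ ∑' x, (∑' y, ke κ x y * ‖h y‖ₑ) ^ 2 := by
        refine ENNReal.tsum_le_tsum fun x => ?_
        rw [ENNReal.ofReal_pow (norm_nonneg _), ofReal_norm]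
        exact pow_le_pow_left' (op_enorm (isKer_hker hφ) h x) 2
    _ ≤ ∑' x, R * ∑' y, ke κ x y * ‖h y‖ₑ ^ 2 := by
        refine ENNReal.tsum_le_tsum fun x => ?_
        have h1 := cs (fun y => ke κ x y) (fun _ => 1) (fun y => ‖h y‖ₑ)
        simp only [one_mul, one_pow, mul_one, hrow] at h1
        exact h1
    _ = R * ∑' y, ∑' x, ke κ x y * ‖h y‖ₑ ^ 2 := by
        rw [ENNReal.tsum_mul_left, ENNReal.tsum_comm]
    _ = R * C * ∑' y, ‖h y‖ₑ ^ 2 := by
        simp_rw [ENNReal.tsum_mul_right, hcol]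
        rw [ENNReal.tsum_mul_left, mul_assoc]
    _ = _ := by
        congr 1
        refine tsum_congr fun y => ?_
        rw [ENNReal.ofReal_pow (norm_nonneg _), ofReal_norm]

theorem normBd_hnorm {φ : G → ℝ} (hφ : IsHecke K φ) : NormBd (hker K φ) (hnorm K φ) := by
  set S : Set ℝ := {N : ℝ | 0 ≤ N ∧ ∀ h : G ⧸ K → ℂ, {y | h y ≠ 0}.Finite →
    ∑' x, ‖op (hker K φ) h x‖ ^ 2 ≤ N ^ 2 * ∑' y, ‖h y‖ ^ 2} with hS
  have hne : S.Nonempty := normBd_exists hφ
  have hnn : 0 ≤ hnorm K φ := Real.sInf_nonneg fun N hN => hN.1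
  refine ⟨hnn, fun h hf => ?_⟩
  set a := ∑' x, ‖op (hker K φ) h x‖ ^ 2 with ha
  set b := ∑' y, ‖h y‖ ^ 2 with hb
  have ha0 : 0 ≤ a := tsum_nonneg fun x => by positivity
  have hb0 : 0 ≤ b := tsum_nonneg fun x => by positivity
  rcases hb0.eq_or_lt with h0 | hpos
  · obtain ⟨N, hN⟩ := hne
    have := hN.2 h hf
    rw [← hb, ← h0, mul_zero] at this
    rw [← h0, mul_zero]
    exact this
  · have h1 : Real.sqrt (a / b) ≤ hnorm K φ := by
      refine le_csInf hne fun N hN => ?_
      rw [Real.sqrt_le_left hN.1, div_le_iff₀ hpos]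
      exact hN.2 h hf
    rw [Real.sqrt_le_left hnn, div_le_iff₀ hpos] at h1
    exact h1

end Pool.Agent.Helper78.DF
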