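import Pool.Agent.Helper78.DF.Mat

/-!
# Congruence subgroups, frames and locally finite unipotent subgroups
-/

set_option autoImplicit false

open scoped ENNReal

noncomputable section

namespace Pool.Agent.Helper78.DF

section defs
variable {G : Type} [Group G] {A : Type} [CommRing A] {ι : Type} [Fintype ι] {k : ι → Type} [∀ v, NormedField (k v)]
  {n : ℕ}

/-- `c` is a frame for `Γ`: an entry of `c⁻¹ γ c - 1` which is not zero has absolute value
(product over `v`) at least `T`. -/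
def IsFrame (ρ : G →* GLS n k) (Γ : Subgroup G) (c : GLS n k) (T : ℝ) : Prop :=
  ∀ γ ∈ Γ, Sparse (c⁻¹ * ρ γ * c) T

/-- The subgroup of the elements `γ` of `Γ` for which `c⁻¹ γ c` is upper triangular with ones on the
diagonal. -/
def unip (ρ : G →* GLS n k) (Γ : Subgroup G) (c : GLS n k) : Subgroup G where
  carrier := {γ | γ ∈ Γ ∧ Upper (c⁻¹ * ρ γ * c)}
  mul_mem' := by
    rintro γ γ' ⟨h1, h2⟩ ⟨h3, h4⟩
    refine ⟨Γ.mul_mem h1 h3, ?_⟩
    have e : c⁻¹ * ρ (γ * γ') * c =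
        (c⁻¹ * ρ γ * c) * (c⁻¹ * ρ γ' * c) := by
      rw [map_mul]
      group
    rw [e]
    exact upper_mul h2 h4
  one_mem' := by
    refine ⟨Γ.one_mem, ?_⟩
    have e : c⁻¹ * ρ 1 * c = 1 := by
      rw [map_one]
      group
    rw [e]
    exact upper_one
  inv_mem' := by
    rintro γ ⟨h1, h2⟩
    refine ⟨Γ.inv_mem h1, ?_⟩
    have e : c⁻¹ * ρ γ⁻¹ * c = (c⁻¹ * ρ γ * c)⁻¹ := by
      rw [map_inv]
      group
    rw [e]
    exact upper_inv h2

/-- bounded subsets of `Γ` are finite -/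
def Disc (ρ : G →* GLS n k) (Γ : Subgroup G) : Prop :=
  ∀ B : ι → ℝ, {γ : G | γ ∈ Γ ∧ Bdd (ρ γ) B}.Finite

end defs

variable {G : Type} [Group G] {A : Type} [CommRing A] {ι : Type} [Fintype ι] {k : ι → Type} [∀ v, NormedField (k v)]
  {n : ℕ}

omit [Fintype ι] in
theorem mem_prin {ρ : G →* GLS n k} {emb : ∀ v, A →+* k v} {𝔫 : Ideal A} {γ : G} :
    γ ∈ prin ρ emb 𝔫 ↔ ∃ M : Matrix.GeneralLinearGroup (Fin n) A,
      (∀ i j, M.1 i j - (1 : Matrix (Fin n) (Fin n) A) i j ∈ 𝔫) ∧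
      ∀ v i j, (ρ γ v).1 i j = emb v (M.1 i j) := by
  unfold prin
  rw [Subgroup.mem_comap, Subgroup.mem_map]
  constructor
  · rintro ⟨M, hM, e⟩
    refine ⟨M, fun i j => ?_, fun v i j => ?_⟩
    · rw [MonoidHom.mem_ker] at hM
      have h1 := congrArg (fun g : Matrix.GeneralLinearGroup (Fin n) (A ⧸ 𝔫) => g.1 i j) hM
      have h2 : Ideal.Quotient.mk 𝔫 (M.1 i j) = (1 : Matrix (Fin n) (Fin n) (A ⧸ 𝔫)) i j := h1
      rw [← Ideal.Quotient.eq_zero_iff_mem, map_sub, h2, Matrix.one_apply, Matrix.one_apply]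
      split_ifs <;> simp
    · have : ρ γ = toS n emb M := e.symm
      rw [this]
      rfl
  · rintro ⟨M, hM, e⟩
    refine ⟨M, ?_, ?_⟩
    · rw [MonoidHom.mem_ker]
      refine Units.ext (Matrix.ext fun i j => ?_)
      show Ideal.Quotient.mk 𝔫 (M.1 i j) = (1 : Matrix (Fin n) (Fin n) (A ⧸ 𝔫)) i j
      have h1 := Ideal.Quotient.eq_zero_iff_mem.2 (hM i j)
      rw [map_sub, sub_eq_zero] at h1
      rw [h1, Matrix.one_apply, Matrix.one_apply]
      split_ifs <;> simp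
    · show toS n emb M = ρ γ
      refine funext fun v => Units.ext (Matrix.ext fun i j => ?_)
      exact (e v i j).symm

theorem disc_prin {ρ : G →* GLS n k} (hρ : Function.Injective ρ) {emb : ∀ v, A →+* k v} (hA : IsSInt emb) {𝔫 : Ideal A}
    {Γ : Subgroup G} (hΓ : Γ ≤ prin ρ emb 𝔫) : Disc ρ Γ := by
  classical
  intro B
  have h1 : ∀ γ : G, ∃ M : Matrix (Fin n) (Fin n) A, γ ∈ Γ →
      ∀ v i j, (ρ γ v).1 i j = emb v (M i j) := by
    intro γ
    by_cases hγ : γ ∈ Γ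
    · obtain ⟨M, _, h⟩ := mem_prin.1 (hΓ hγ)
      exact ⟨M.1, fun _ => h⟩
    · exact ⟨0, fun h => absurd h hγ⟩
  choose M hM using h1
  have hfin : {M : Matrix (Fin n) (Fin n) A | ∀ i j, M i j ∈
      {a : A | ∀ v, ‖emb v a‖ ≤ ∑ v, |B v|}}.Finite := by
    have := Set.Finite.pi' (fun _ : Fin n => Set.Finite.pi' (fun _ : Fin n => hA.disc (∑ v, |B v|)))
    exact this
  refine Set.Finite.of_finite_image (f := M) (hfin.subset ?_) ?_
  · rintro _ ⟨γ, ⟨hγ, hb⟩, rfl⟩
    intro i j v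
    rw [← hM γ hγ v i j]
    refine (hb v i j).trans ((le_abs_self _).trans ?_)
    exact Finset.single_le_sum (f := fun v => |B v|) (fun v _ => abs_nonneg _) (Finset.mem_univ v)
  · rintro γ ⟨hγ, _⟩ γ' ⟨hγ', _⟩ e
    refine hρ (funext fun v => Units.ext (Matrix.ext fun i j => ?_))
    rw [hM γ hγ, hM γ' hγ', e]

theorem card_le {𝔫 : Ideal A} {a : A} (ha : a ∈ 𝔫) (h : Finite (A ⧸ Ideal.span {a})) :
    Nat.card (A ⧸ 𝔫) ≤ Nat.card (A ⧸ Ideal.span {a}) := by
  have hle : Ideal.span {a} ≤ 𝔫 := by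
    rw [Ideal.span_le, Set.singleton_subset_iff]
    exact ha
  exact Nat.card_le_card_of_surjective (Ideal.Quotient.factor hle)
    (Ideal.Quotient.factor_surjective hle)

/-- frames given by matrices with entries in the field of fractions -/
theorem frame_prin {ρ : G →* GLS n k} {emb : ∀ v, A →+* k v} (hA : IsSInt emb) {𝔫 : Ideal A}
    {Γ : Subgroup G} (hΓ : Γ ≤ prin ρ emb 𝔫) (c : GLS n k) (d : A) (hd : d ≠ 0)
    (hc : ∀ i j l m, ∃ a : A, ∀ v, emb v d * ((c⁻¹ v).1 i j * (c v).1 l m) = emb v a) :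
    IsFrame ρ Γ c ((Nat.card (A ⧸ 𝔫) : ℝ) / Nat.card (A ⧸ Ideal.span {d})) := by
  classical
  intro γ hγ i m
  obtain ⟨M, hM1, hM2⟩ := mem_prin.1 (hΓ hγ)
  choose a ha using hc
  set e : A := ∑ j, ∑ l, a i j l m * (M.1 j l - (1 : Matrix (Fin n) (Fin n) A) j l) with he
  have he𝔫 : e ∈ 𝔫 := by
    rw [he]
    exact Ideal.sum_mem _ fun j _ => Ideal.sum_mem _ fun l _ => 𝔫.mul_mem_left _ (hM1 j l)
  obtain ⟨hdf, hdp⟩ := hA.prod d hd
  have hdpos : (0 : ℝ) < Nat.card (A ⧸ Ideal.span {d}) := by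
    exact_mod_cast Nat.card_pos
  have hd0 : ∀ v, emb v d ≠ 0 := by
    intro v h0
    rw [← hdp] at hdpos
    have : ∏ v, ‖emb v d‖ = 0 := Finset.prod_eq_zero (Finset.mem_univ v) (by rw [h0, norm_zero])
    rw [this] at hdpos
    exact lt_irrefl _ hdpos
  have key : ∀ v, emb v d * (((c⁻¹ * ρ γ * c) v).1 i m -
      (1 : Matrix (Fin n) (Fin n) (k v)) i m) = emb v e := by
    intro v
    have h1 : ((c⁻¹ * ρ γ * c) v).1 - 1 =
        (c⁻¹ v).1 * ((ρ γ v).1 - 1) * (c v).1 := by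
      have h2 : (c⁻¹ v).1 * (c v).1 = 1 := by
        have h2' : c⁻¹ * c = 1 := inv_mul_cancel c
        exact congrArg (fun g : GLS n k => (g v).1) h2'
      rw [mul_sub, sub_mul, mul_one, h2]
      rfl
    have h3 : ((c⁻¹ * ρ γ * c) v).1 i m - (1 : Matrix (Fin n) (Fin n) (k v)) i m =
        ∑ j, ∑ l, (c⁻¹ v).1 i j * (emb v (M.1 j l - (1 : Matrix (Fin n) (Fin n) A) j l)) *
          (c v).1 l m := by
      rw [← Matrix.sub_apply, h1, Matrix.mul_apply, Finset.sum_comm]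
      refine Finset.sum_congr rfl fun l _ => ?_
      rw [Matrix.mul_apply, Finset.sum_mul]
      refine Finset.sum_congr rfl fun j _ => ?_
      rw [Matrix.sub_apply, hM2 v j l, map_sub]
      congr 3
      rw [Matrix.one_apply, Matrix.one_apply]
      split_ifs <;> simp
    rw [h3, he, map_sum, Finset.mul_sum]
    refine Finset.sum_congr rfl fun j _ => ?_
    rw [map_sum, Finset.mul_sum]
    refine Finset.sum_congr rfl fun l _ => ?_
    rw [map_mul, ← ha i j l m v]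
    ring
  by_cases he0 : e = 0
  · left
    intro v
    have h1 := key v
    rw [he0, map_zero, mul_eq_zero] at h1
    exact sub_eq_zero.1 (h1.resolve_left (hd0 v))
  · right
    obtain ⟨hef, hep⟩ := hA.prod e he0
    rw [div_le_iff₀ hdpos, ← hdp, ← Finset.prod_mul_distrib]
    have h1 : ∏ v, ‖((c⁻¹ * ρ γ * c) v).1 i m -
        (1 : Matrix (Fin n) (Fin n) (k v)) i m‖ * ‖emb v d‖ = ∏ v, ‖emb v e‖ := by
      refine Finset.prod_congr rfl fun v _ => ?_
      rw [← key v, norm_mul, mul_comm]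
    rw [h1, hep]
    exact_mod_cast card_le he𝔫 hef

omit [Fintype ι] in
/-- the bound for one entry -/
theorem exists_bdd (g : GLS n k) : ∃ C : ι → ℝ, (∀ v, 0 ≤ C v) ∧ Bdd g C := by
  refine ⟨fun v => ∑ i, ∑ j, ‖(g v).1 i j‖, fun v => by positivity, fun v i j => ?_⟩
  refine (Finset.single_le_sum (f := fun j => ‖(g v).1 i j‖) (fun j _ => norm_nonneg _)
    (Finset.mem_univ j)).trans ?_
  exact Finset.single_le_sum (f := fun i => ∑ j, ‖(g v).1 i j‖)
    (fun i _ => Finset.sum_nonneg fun j _ => norm_nonneg _) (Finset.mem_univ i)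

/-- A finite submonoid of a group is a subgroup. -/
def subOfFin {H : Type} [Group H] (S : Submonoid H) (hS : (S : Set H).Finite) : Subgroup H where
  toSubmonoid := S
  inv_mem' := by
    intro x hx
    have hx' : x ∈ S := hx
    have h1 : ¬ Function.Injective (fun m : ℕ => x ^ m) := by
      intro hinj
      have : (Set.range fun m : ℕ => x ^ m).Finite := by
        refine hS.subset ?_
        rintro _ ⟨m, rfl⟩
        exact S.pow_mem hx' m
      exact Set.infinite_range_of_injective hinj this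
    unfold Function.Injective at h1
    push Not at h1
    obtain ⟨a, b, hab, hne⟩ := h1
    have key : ∀ a b : ℕ, a < b → x ^ a = x ^ b → x⁻¹ ∈ S := by
      intro a b hlt hab
      obtain ⟨d, rfl⟩ := Nat.exists_eq_add_of_lt hlt
      have h2 : x ^ (d + 1) = 1 := by
        have : x ^ a * x ^ (d + 1) = x ^ a * 1 := by
          rw [mul_one, ← pow_add, ← add_assoc]
          exact hab.symm
        exact mul_left_cancel this
      have h3 : x⁻¹ = x ^ d := by
        rw [pow_succ] at h2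
        exact (eq_inv_of_mul_eq_one_left h2).symm
      rw [h3]
      exact S.pow_mem hx' d
    rcases lt_or_gt_of_ne hne with h | h
    · exact key a b h hab
    · exact key b a h hab.symm

variable [∀ v, IsUltrametricDist (k v)]

/-- the elements of `unip ρ Γ c` of bounded weighted size -/
def wtSub (ρ : G →* GLS n k) (Γ : Subgroup G) (c : GLS n k) (C : ℝ) (hC : 1 ≤ C) :
    Submonoid G where
  carrier := {γ | γ ∈ unip ρ Γ c ∧ ∀ v i j, i ≤ j →
    ‖((c⁻¹ * ρ γ * c) v).1 i j‖ ≤ C ^ (j.1 - i.1)}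
  mul_mem' := by
    rintro γ γ' ⟨h1, h2⟩ ⟨h3, h4⟩
    refine ⟨(unip ρ Γ c).mul_mem h1 h3, ?_⟩
    intro v i j hij
    have e : c⁻¹ * ρ (γ * γ') * c =
        (c⁻¹ * ρ γ * c) * (c⁻¹ * ρ γ' * c) := by
      rw [map_mul]
      group
    rw [e]
    show ‖(((c⁻¹ * ρ γ * c) v).1 * ((c⁻¹ * ρ γ' * c) v).1) i j‖ ≤ _
    rw [Matrix.mul_apply]
    refine IsUltrametricDist.norm_sum_le_of_forall_le_of_nonneg (by positivity) ?_
    intro l _
    rw [norm_mul]
    have hu : Upper (c⁻¹ * ρ γ * c) := h1.2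
    have hu' : Upper (c⁻¹ * ρ γ' * c) := h3.2
    rcases lt_or_ge l i with hl | hl
    · rw [(hu v i l).1 hl, norm_zero, zero_mul]
      positivity
    rcases lt_or_ge j l with hl' | hl'
    · rw [(hu' v l j).1 hl', norm_zero, mul_zero]
      positivity
    · calc _ ≤ C ^ (l.1 - i.1) * C ^ (j.1 - l.1) :=
            mul_le_mul (h2 v i l hl) (h4 v l j hl') (norm_nonneg _) (by positivity)
        _ = C ^ (j.1 - i.1) := by
            rw [← pow_add]
            congr 1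
            have h5 : i.1 ≤ l.1 := hl
            have h6 : l.1 ≤ j.1 := hl'
            omega
  one_mem' := by
    refine ⟨(unip ρ Γ c).one_mem, ?_⟩
    intro v i j hij
    have e : c⁻¹ * ρ 1 * c = 1 := by
      rw [map_one]
      group
    rw [e]
    show ‖(1 : Matrix (Fin n) (Fin n) (k v)) i j‖ ≤ _
    rw [Matrix.one_apply]
    split_ifs
    · rw [norm_one]
      exact one_le_pow₀ hC
    · rw [norm_zero]
      positivity

omit [Fintype ι] in
theorem wtSub_fin {ρ : G →* GLS n k} {Γ : Subgroup G} (hΓ : Disc ρ Γ) (c : GLS n k) (C : ℝ)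
    (hC : 1 ≤ C) : (wtSub ρ Γ c C hC : Set G).Finite := by
  obtain ⟨C1, h1, h1'⟩ := exists_bdd c
  obtain ⟨C2, h2, h2'⟩ := exists_bdd c⁻¹
  refine (hΓ (fun v => C1 v * C ^ n * C2 v)).subset ?_
  rintro γ ⟨hγ, hb⟩
  refine ⟨hγ.1, ?_⟩
  have e : ρ γ = c * (c⁻¹ * ρ γ * c) * c⁻¹ := by group
  rw [e]
  refine Bdd.mul (B := fun v => C1 v * C ^ n) (fun v => mul_nonneg (h1 v) (by positivity)) h2 ?_ h2'
  refine Bdd.mul (B' := fun _ => C ^ n) h1 (fun v => by positivity) h1' ?_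
  intro v i j
  rcases lt_or_ge j i with hij | hij
  · rw [((hγ.2 : Upper _) v i j).1 hij, norm_zero]
    positivity
  · refine (hb v i j hij).trans ?_
    exact pow_le_pow_right₀ hC ((Nat.sub_le _ _).trans j.2.le)

theorem locFin_unip {ρ : G →* GLS n k} {Γ : Subgroup G} (hΓ : Disc ρ Γ) (c : GLS n k) :
    ∀ s : Set G, s.Finite → s ⊆ unip ρ Γ c →
      ∃ E : Subgroup G, E ≤ unip ρ Γ c ∧ Finite E ∧ s ⊆ E := by
  intro s hs hsub
  -- a bound for all entries
  have h1 : (⋃ γ ∈ s, Set.range fun p : ι × Fin n × Fin n =>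
      ‖((c⁻¹ * ρ γ * c) p.1).1 p.2.1 p.2.2‖).Finite :=
    hs.biUnion fun γ _ => Set.finite_range _
  obtain ⟨C, hC⟩ := h1.bddAbove
  have hb : ∀ γ ∈ s, ∀ v i j, ‖((c⁻¹ * ρ γ * c) v).1 i j‖ ≤ max C 1 := by
    intro γ hγ v i j
    refine (hC ?_).trans (le_max_left _ _)
    simp only [Set.mem_iUnion]
    exact ⟨γ, hγ, ⟨(v, i, j), rfl⟩⟩
  refine ⟨subOfFin (wtSub ρ Γ c (max C 1) (le_max_right _ _)) (wtSub_fin hΓ c _ _), ?_, ?_, ?_⟩
  · intro γ hγ
    exact hγ.1
  · exact (wtSub_fin hΓ c (max C 1) (le_max_right _ _)).to_subtype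
  · intro γ hγ
    refine ⟨hsub hγ, ?_⟩
    intro v i j hij
    rcases hij.eq_or_lt with h | h
    · have hu : Upper (c⁻¹ * ρ γ * c) := (hsub hγ).2
      rw [← h, (hu v i i).2, norm_one]
      exact one_le_pow₀ (le_max_right _ _)
    · refine (hb γ hγ v i j).trans ?_
      refine le_self_pow₀ (le_max_right _ _) ?_
      have : i.1 < j.1 := h
      omega

omit [Fintype ι] in
theorem stab_fin {ρ : G →* GLS n k} {Γ : Subgroup G} (hΓ : Disc ρ Γ) {K : Subgroup G}
    (hK : ∀ κ ∈ K, Bdd (ρ κ) (fun _ => 1)) (x : G ⧸ K) :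
    Finite (MulAction.stabilizer Γ x) := by
  obtain ⟨C1, h1, h1'⟩ := exists_bdd (ρ x.out)
  obtain ⟨C2, h2, h2'⟩ := exists_bdd (ρ x.out)⁻¹
  have hf := hΓ (fun v => C1 v * 1 * C2 v)
  have hinj : Function.Injective (fun s : MulAction.stabilizer Γ x => ((s : Γ) : G)) :=
    fun s t h => Subtype.ext (Subtype.ext h)
  refine Set.Finite.to_subtype (Set.Finite.of_finite_image (f := fun s : Γ => (s : G))
    (hf.subset ?_) (fun s _ t _ h => Subtype.ext h))
  rintro _ ⟨γ, hγ, rfl⟩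
  refine ⟨γ.2, ?_⟩
  have h3 : (γ : G) • x = x := hγ
  have h4 : (x.out)⁻¹ * ((γ : G) * x.out) ∈ K := by
    have e1 : (QuotientGroup.mk x.out : G ⧸ K) = QuotientGroup.mk ((γ : G) * x.out) := by
      have : (QuotientGroup.mk ((γ : G) * x.out) : G ⧸ K) =
          (γ : G) • (QuotientGroup.mk x.out : G ⧸ K) := rfl
      rw [this, QuotientGroup.out_eq', h3]
    exact QuotientGroup.eq.1 e1
  have e : ρ (γ : G) = ρ x.out * ρ ((x.out)⁻¹ * ((γ : G) * x.out)) * (ρ x.out)⁻¹ := by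
    simp only [map_mul, map_inv]
    group
  show Bdd (ρ (γ : G)) _
  rw [e]
  refine Bdd.mul (B := fun v => C1 v * 1) (fun v => mul_nonneg (h1 v) zero_le_one) h2 ?_ h2'
  exact Bdd.mul (B' := fun _ => 1) h1 (fun v => zero_le_one) h1' (hK _ h4)

end Pool.Agent.Helper78.DF
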