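import Pool.Agent.Helper78.DF.Orb
import Pool.Agent.Helper78.DF.Arith

/-!
# Hecke operators on `G / K` and the first inequality
-/

set_option autoImplicit false

open scoped ENNReal ComplexConjugate

noncomputable section

namespace Pool.Agent.Helper78.DF

section hecke
variable {G : Type} [Group G] (K : Subgroup G)

/-- The kernel of the Hecke operator attached to `φ`. -/
def hker (φ : G → ℝ) (x y : G ⧸ K) : ℝ := φ (x.out⁻¹ * y.out)

variable {K}

theorem hker_mk {φ : G → ℝ} (hφ : IsHecke K φ) (g h : G) :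
    hker K φ (QuotientGroup.mk g) (QuotientGroup.mk h) = φ (g⁻¹ * h) := by
  unfold hker
  obtain ⟨κ, hκ⟩ := QuotientGroup.mk_out_eq_mul K g
  obtain ⟨κ', hκ'⟩ := QuotientGroup.mk_out_eq_mul K h
  rw [hκ, hκ', mul_inv_rev, mul_assoc, hφ.left _ (K.inv_mem κ.2), ← mul_assoc,
    hφ.right _ κ'.2]

theorem mk_out' (x : G ⧸ K) : (QuotientGroup.mk x.out : G ⧸ K) = x := QuotientGroup.out_eq' x

theorem smul_out (g : G) (x : G ⧸ K) : g • x = QuotientGroup.mk (g * x.out) := by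
  have : (QuotientGroup.mk (g * x.out) : G ⧸ K) = g • (QuotientGroup.mk x.out : G ⧸ K) := rfl
  rw [this, mk_out']

theorem hker_inv {φ : G → ℝ} (hφ : IsHecke K φ) (g : G) (x y : G ⧸ K) :
    hker K φ (g • x) (g • y) = hker K φ x y := by
  rw [smul_out, smul_out, hker_mk hφ]
  unfold hker
  congr 1
  group

theorem hker_row {φ : G → ℝ} (hφ : IsHecke K φ) (x : G ⧸ K) :
    {y | hker K φ x y ≠ 0}.Finite := by
  have hinj : Function.Injective (fun y : G ⧸ K => x.out⁻¹ • y) := MulAction.injective _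
  refine Set.Finite.of_finite_image (f := fun y : G ⧸ K => x.out⁻¹ • y)
    (hφ.fin.subset ?_) hinj.injOn
  rintro _ ⟨y, hy, rfl⟩
  have h1 : hker K φ (QuotientGroup.mk 1) (x.out⁻¹ • y) = φ (x.out⁻¹ • y).out := by
    conv_lhs => rw [← mk_out' (x.out⁻¹ • y)]
    rw [hker_mk hφ, inv_one, one_mul]
  have h2 : hker K φ (QuotientGroup.mk 1) (x.out⁻¹ • y) = hker K φ x y := by
    rw [← hker_inv hφ x.out⁻¹ x y]
    congr 1
    rw [smul_out, inv_mul_cancel]
  show φ (x.out⁻¹ • y).out ≠ 0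
  rw [← h1, h2]
  exact hy

theorem hker_col {φ : G → ℝ} (hφ : IsHecke K φ) (y : G ⧸ K) :
    {x | hker K φ x y ≠ 0}.Finite := by
  have hinj : Function.Injective (fun x : G ⧸ K => y.out⁻¹ • x) := MulAction.injective _
  refine Set.Finite.of_finite_image (f := fun x : G ⧸ K => y.out⁻¹ • x)
    (hφ.fin'.subset ?_) hinj.injOn
  rintro _ ⟨x, hx, rfl⟩
  have h1 : hker K φ (y.out⁻¹ • x) (QuotientGroup.mk 1) = φ (y.out⁻¹ • x).out⁻¹ := by
    conv_lhs => rw [← mk_out' (y.out⁻¹ • x)]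
    rw [hker_mk hφ, mul_one]
  have h2 : hker K φ (y.out⁻¹ • x) (QuotientGroup.mk 1) = hker K φ x y := by
    rw [← hker_inv hφ y.out⁻¹ x y]
    congr 1
    rw [smul_out, inv_mul_cancel]
  show φ (y.out⁻¹ • x).out⁻¹ ≠ 0
  rw [← h1, h2]
  exact hx

theorem isKer_hker {φ : G → ℝ} (hφ : IsHecke K φ) : IsKer (hker K φ) :=
  ⟨fun _ _ => hφ.nonneg _, fun x => hker_row hφ x⟩

end hecke

variable {G : Type} [Group G] {ι : Type} [Fintype ι] {k : ι → Type} [∀ v, NormedField (k v)]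
  [∀ v, IsUltrametricDist (k v)] {n : ℕ}

theorem list_prod_pos {J : Type} (L : List J) (f : J → ℝ) (hf : ∀ j, 0 < f j) :
    0 < (L.map f).prod := by
  induction L with
  | nil => simp
  | cons j L ih =>
    rw [List.map_cons, List.prod_cons]
    exact mul_pos (hf j) ih

omit [Fintype ι] in
theorem supp_adjs {ρ : G →* GLS n k} {K : Subgroup G} {J : Type} {φ : J → G → ℝ}
    {Q Q' : J → ι → ℝ} (hQ : ∀ j, SizeBd ρ (φ j) (Q j) (Q' j)) (L : List J)
    (f₀ : G ⧸ K → ℝ≥0∞) (y : G ⧸ K)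
    (hy : adjs ((L.map fun j => hker K (φ j)).map ke) f₀ y ≠ 0) :
    ∃ x, f₀ x ≠ 0 ∧ ∃ s : G, y.out = x.out * s ∧
      Bdd (ρ s) (fun v => (L.map fun j => Q j v).prod) ∧
      Bdd (ρ s)⁻¹ (fun v => (L.map fun j => Q' j v).prod) := by
  induction L generalizing f₀ y with
  | nil =>
    refine ⟨y, hy, 1, by rw [mul_one], ?_, ?_⟩
    · rw [map_one]
      simpa using bdd_one
    · have : (ρ (1 : G))⁻¹ = 1 := by simp
      rw [this]
      simpa using bdd_one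
  | cons j L ih =>
    obtain ⟨x', hx', s', hs', hb1, hb2⟩ := ih (adj (ke (hker K (φ j))) f₀) y hy
    unfold adj at hx'
    have h1 : ∃ x, ke (hker K (φ j)) x x' * f₀ x ≠ 0 := by
      by_contra hcon
      push Not at hcon
      apply hx'
      simp [hcon]
    obtain ⟨x, hx⟩ := h1
    have h2 : hker K (φ j) x x' ≠ 0 := by
      intro h0
      apply left_ne_zero_of_mul hx
      unfold ke
      rw [h0]
      simp
    obtain ⟨h3, h4⟩ := (hQ j).bdd _ h2
    refine ⟨x, right_ne_zero_of_mul hx, x.out⁻¹ * x'.out * s', ?_, ?_, ?_⟩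
    · rw [hs']
      group
    · have e : ρ (x.out⁻¹ * x'.out * s') = ρ (x.out⁻¹ * x'.out) * ρ s' := by
        rw [map_mul]
      rw [e]
      simp only [List.map_cons, List.prod_cons]
      exact Bdd.mul (fun v => ((hQ j).pos v).1.le)
        (fun v => (list_prod_pos L _ fun j => ((hQ j).pos v).1).le) h3 hb1
    · have e : (ρ (x.out⁻¹ * x'.out * s'))⁻¹ = (ρ s')⁻¹ * (ρ (x.out⁻¹ * x'.out))⁻¹ := by
        rw [map_mul, mul_inv_rev]
      rw [e]
      have h5 := Bdd.mul (fun v => (list_prod_pos L (fun j => Q' j v) fun j => ((hQ j).pos v).2.1).le)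
        (fun v => ((hQ j).pos v).2.1.le) hb2 h4
      refine h5.mono fun v => ?_
      simp only [List.map_cons, List.prod_cons]
      rw [mul_comm]

/-- the separation property -/
theorem sep {ρ : G →* GLS n k} {K : Subgroup G} (hK : ∀ κ ∈ K, Bdd (ρ κ) (fun _ => 1))
    {J : Type} {φ : J → G → ℝ} {Q Q' : J → ι → ℝ} (hQ : ∀ j, SizeBd ρ (φ j) (Q j) (Q' j)) (L : List J)
    {Γ : Subgroup G} {c a : GLS n k} {T : ℝ} (hc : IsFrame ρ Γ c T) (ha : Dominant a) {h h' : ι → ℝ}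
    (hh : ∀ v, 0 < h v ∧ 0 < h' v ∧ 1 ≤ h v * h' v)
    (hT : ∏ v, (h v * h' v * (L.map fun j => Q j v * Q' j v).prod) < T)
    (f₀ : G ⧸ K → ℝ≥0∞) (hf₀ : ∀ x, f₀ x ≠ 0 → x ∈ Reg ρ K c a h h') (γ : G) (hγ : γ ∈ Γ) (y : G ⧸ K)
    (h1 : adjs ((L.map fun j => hker K (φ j)).map ke) f₀ y ≠ 0)
    (h2 : adjs ((L.map fun j => hker K (φ j)).map ke) f₀ (γ • y) ≠ 0) : γ ∈ unip ρ Γ c := by
  obtain ⟨x₁, hx₁, s₁, e₁, b₁, b₁'⟩ := supp_adjs hQ L f₀ y h1
  obtain ⟨x₂, hx₂, s₂, e₂, b₂, b₂'⟩ := supp_adjs hQ L f₀ (γ • y) h2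
  obtain ⟨g₁, hg₁, u₁, c₁, hu₁, hc₁, hc₁', eg₁⟩ := hf₀ x₁ hx₁
  obtain ⟨g₂, hg₂, u₂, c₂, hu₂, hc₂, hc₂', eg₂⟩ := hf₀ x₂ hx₂
  obtain ⟨κ₁, hκ₁⟩ := QuotientGroup.mk_out_eq_mul K g₁
  obtain ⟨κ₂, hκ₂⟩ := QuotientGroup.mk_out_eq_mul K g₂
  obtain ⟨κ₃, hκ₃⟩ := QuotientGroup.mk_out_eq_mul K (γ * y.out)
  rw [hg₁] at hκ₁
  rw [hg₂] at hκ₂
  rw [← smul_out] at hκ₃
  refine ⟨hγ, ?_⟩
  -- the basic identity
  have e3 : γ * (g₁ * κ₁ * s₁) * κ₃ = g₂ * κ₂ * s₂ := by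
    rw [← hκ₁, ← e₁, ← hκ₂, ← e₂, hκ₃]
  have e4 : ρ γ * (ρ g₁ * ρ κ₁ * ρ s₁) * ρ κ₃ = ρ g₂ * ρ κ₂ * ρ s₂ := by
    have := congrArg ρ e3
    simpa using this
  rw [eg₁, eg₂] at e4
  set M : GLS n k := c₂ * ρ κ₂ * ρ s₂ * (ρ κ₃)⁻¹ * (ρ s₁)⁻¹ * (ρ κ₁)⁻¹ * c₁⁻¹
    with hM
  have e5 : (c⁻¹ * ρ γ * c) * u₁ * a = u₂ * a * M := by
    have h3 : ρ γ * (c * u₁ * a * c₁) =
        c * u₂ * a * c₂ * ρ κ₂ * ρ s₂ * (ρ κ₃)⁻¹ * (ρ s₁)⁻¹ * (ρ κ₁)⁻¹ := by
      rw [← e4]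
      group
    calc (c⁻¹ * ρ γ * c) * u₁ * a
        = c⁻¹ * (ρ γ * (c * u₁ * a * c₁)) * c₁⁻¹ := by group
      _ = _ := by
          rw [h3, hM]
          group
  set q : ι → ℝ := fun v => (L.map fun j => Q j v).prod with hq
  set q' : ι → ℝ := fun v => (L.map fun j => Q' j v).prod with hq'
  have hq0 : ∀ v, 0 < q v := fun v => list_prod_pos L _ fun j => ((hQ j).pos v).1
  have hq0' : ∀ v, 0 < q' v := fun v => list_prod_pos L _ fun j => ((hQ j).pos v).2.1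
  have hqq : ∀ v, q v * q' v = (L.map fun j => Q j v * Q' j v).prod := by
    intro v
    rw [hq, hq']
    simp only
    rw [← List.prod_map_mul]
  have hone : ∀ v, 1 ≤ q v * q' v := by
    intro v
    rw [hqq]
    clear h1 h2 e₁ e₂ b₁ b₁' b₂ b₂' hT hqq hq0 hq0' hq hq'
    clear_value q q'
    induction L with
    | nil => simp
    | cons j L ih =>
      rw [List.map_cons, List.prod_cons]
      exact one_le_mul_of_one_le_of_one_le ((hQ j).pos v).2.2 ih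
  have hMb : Bdd M (fun v => h v * h' v * (q v * q' v)) := by
    have hKi : ∀ κ : K, Bdd (ρ (κ : G))⁻¹ (fun _ => 1) := by
      intro κ
      have := hK _ (K.inv_mem κ.2)
      rwa [map_inv] at this
    have t1 := Bdd.mul (fun v => (hh v).1.le) (fun v => zero_le_one) hc₂ (hK _ κ₂.2)
    have t2 := Bdd.mul (fun v => by have := (hh v).1; positivity) (fun v => (hq0 v).le) t1 b₂
    have t3 := Bdd.mul (fun v => by have := (hh v).1; have := hq0 v; positivity)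
      (fun v => zero_le_one) t2 (hKi κ₃)
    have t4 := Bdd.mul (fun v => by have := (hh v).1; have := hq0 v; positivity)
      (fun v => (hq0' v).le) t3 b₁'
    have t5 := Bdd.mul (fun v => by have := (hh v).1; have := hq0 v; have := hq0' v; positivity)
      (fun v => zero_le_one) t4 (hKi κ₁)
    have t6 := Bdd.mul (fun v => by have := (hh v).1; have := hq0 v; have := hq0' v; positivity)
      (fun v => (hh v).2.1.le) t5 hc₁'
    refine t6.mono fun v => le_of_eq ?_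
    ring
  refine corner (B := fun v => h v * h' v * (q v * q' v)) (fun v => ?_) ?_ (hc γ hγ) hu₂ hu₁ ha hMb e5
  · exact one_le_mul_of_one_le_of_one_le (hh v).2.2 (hone v)
  · refine lt_of_eq_of_lt ?_ hT
    refine Finset.prod_congr rfl fun v _ => ?_
    rw [hqq]

/-- a list with prescribed multiplicities -/
theorem exists_list {J : Type} [Fintype J] (m : J → ℕ) :
    ∃ L : List J, ∀ (R : Type) [CommMonoid R] (f : J → R), (L.map f).prod = ∏ j, f j ^ m j := by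
  classical
  have : ∀ s : Finset J, ∃ L : List J, ∀ (R : Type) [CommMonoid R] (f : J → R),
      (L.map f).prod = ∏ j ∈ s, f j ^ m j := by
    intro s
    induction s using Finset.induction_on with
    | empty => exact ⟨[], fun R _ f => by simp⟩
    | insert a s ha ih =>
      obtain ⟨L, hL⟩ := ih
      refine ⟨List.replicate (m a) a ++ L, fun R _ f => ?_⟩
      rw [List.map_append, List.prod_append, List.map_replicate, List.prod_replicate, hL,
        Finset.prod_insert ha]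
  exact this Finset.univ

/-- **The first inequality**: periods along a unipotent subgroup. -/
theorem first {ρ : G →* GLS n k} {K : Subgroup G}
    (hK : ∀ κ ∈ K, Bdd (ρ κ) (fun _ => 1)) {Γ : Subgroup G} (hΓ : Disc ρ Γ)
    {J : Type} [Fintype J] {φ : J → G → ℝ} (hφ : ∀ j, IsHecke K (φ j)) {Q Q' : J → ι → ℝ}
    (hQ : ∀ j, SizeBd ρ (φ j) (Q j) (Q' j)) {N : J → ℝ} (hN : ∀ j, NormBd (hker K (φ j)) (N j))
    {I : Type} [Fintype I] {F : I → G ⧸ K → ℂ} (hF : IsONF Γ F) {lam : I → J → ℂ}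
    (hlam : ∀ i j, op (hker K (φ j)) (F i) = fun x => lam i j * F i x)
    (m : J → ℕ) {c a : GLS n k} {T : ℝ} (hc : IsFrame ρ Γ c T) (ha : Dominant a) {h h' : ι → ℝ}
    (hh : ∀ v, 0 < h v ∧ 0 < h' v ∧ 1 ≤ h v * h' v)
    (hT : ∏ v, (h v * h' v * ∏ j, (Q j v * Q' j v) ^ m j) < T)
    (f : G ⧸ K → ℂ) (hf : ∀ γ ∈ unip ρ Γ c, ∀ x, f (γ • x) = f x)
    (hff : {o : Orb (unip ρ Γ c) (G ⧸ K) | f (Quotient.out o) ≠ 0}.Finite)
    (hreg : ∀ x, f x ≠ 0 → x ∈ Reg ρ K c a h h') :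
    ∑ i, (∏ j, ‖lam i j‖ ^ (2 * m j)) * ‖ip (unip ρ Γ c) (F i) f‖ ^ 2 ≤
      (∏ j, N j ^ (2 * m j)) * nsq (unip ρ Γ c) f := by
  obtain ⟨L, hL⟩ := exists_list m
  have hΔ : unip ρ Γ c ≤ Γ := fun γ hγ => hγ.1
  have hDΔ : Disc ρ (unip ρ Γ c) := fun B => (hΓ B).subset fun γ hγ => ⟨hγ.1.1, hγ.2⟩
  have key := bessel Γ (unip ρ Γ c) hΔ (stab_fin hΓ hK) (stab_fin hDΔ hK) (locFin_unip hΓ c)
    (fun j => hker K (φ j)) N L (fun j _ => isKer_hker (hφ j))
    (fun j _ => ⟨fun γ _ x y => hker_inv (hφ j) γ x y, hker_col (hφ j), hN j⟩)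
    F hF lam (fun i j _ => hlam i j) f hf hff
    (fun γ hγ x h1 h2 => sep hK hQ L hc ha hh (by
        refine lt_of_eq_of_lt (Finset.prod_congr rfl fun v _ => ?_) hT
        rw [hL ℝ]) _ (by
        intro x hx
        refine hreg x ?_
        intro h0
        apply hx
        rw [h0]
        simp) γ hγ x h1 h2)
  rw [hL ℝ] at key
  calc ∑ i, (∏ j, ‖lam i j‖ ^ (2 * m j)) * ‖ip (unip ρ Γ c) (F i) f‖ ^ 2
      = ∑ i, ‖(L.map (lam i)).prod‖ ^ 2 * ‖ip (unip ρ Γ c) (F i) f‖ ^ 2 := by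
        refine Finset.sum_congr rfl fun i _ => ?_
        rw [hL ℂ, norm_prod, ← Finset.prod_pow]
        congr 1
        refine Finset.prod_congr rfl fun j _ => ?_
        rw [norm_pow, ← pow_mul, mul_comm 2]
    _ ≤ _ := key
    _ = _ := by
        rw [← Finset.prod_pow]
        congr 1
        refine Finset.prod_congr rfl fun j _ => ?_
        rw [← pow_mul, mul_comm 2]

end Pool.Agent.Helper78.DF
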