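import Pool.Agent.Helper78.DF.Index

/-!
# The two density theorems
-/

set_option autoImplicit false

open scoped ENNReal ComplexConjugate

noncomputable section

namespace Pool.Agent.Helper78.DF

theorem massOn_eq {G : Type} [Group G] {X : Type} [MulAction G X] (Γ : Subgroup G) (S : Set X)
    (F : X → ℂ) (O : Finset (Orb Γ X)) (hO : ∀ o : Orb Γ X, Quotient.out o ∈ S ↔ o ∈ O) :
    massOn Γ S F = mass Γ O F := by
  unfold massOn mass
  rw [tsum_eq_sum (s := O)]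
  · refine Finset.sum_congr rfl fun o ho => ?_
    rw [Set.indicator_of_mem ((hO o).2 ho)]
  · intro o ho
    rw [Set.indicator_of_notMem (fun h => ho ((hO o).1 h))]

variable {G : Type} [Group G] {A : Type} [CommRing A] {ι : Type} {k : ι → Type}
  [∀ v, NormedField (k v)] {n : ℕ} [Fintype ι]

theorem nsq_nonneg {G : Type} [Group G] {X : Type} [MulAction G X] (Γ : Subgroup G) (F : X → ℂ) :
    0 ≤ nsq Γ F := tsum_nonneg fun o => by positivity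

theorem frame_of_den {ρ : G →* GLS n k} {emb : ∀ v, A →+* k v} (hA : IsSInt emb) {𝔫 : Ideal A}
    {Γ : Subgroup G} (hΓ : Γ ≤ prin ρ emb 𝔫) {c : GLS n k} {d : A} (hc : HasDen emb c d) :
    IsFrame ρ Γ c ((Nat.card (A ⧸ 𝔫) : ℝ) / Nat.card (A ⧸ Ideal.span {d})) :=
  frame_prin hA hΓ c d hc.1 hc.2

theorem single_prod {J : Type} [Fintype J] [DecidableEq J] (j : J) (m : ℕ) (f : J → ℝ) :
    ∏ i, f i ^ (if i = j then m else 0) = f j ^ m := by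
  rw [Finset.prod_eq_single j]
  · rw [if_pos rfl]
  · intro i _ hi
    rw [if_neg hi, pow_zero]
  · intro h
    exact absurd (Finset.mem_univ j) h

theorem single_prod2 {J : Type} [Fintype J] [DecidableEq J] (j : J) (m : ℕ) (f : J → ℝ) :
    ∏ i, f i ^ (2 * (if i = j then m else 0)) = f j ^ (2 * m) := by
  rw [Finset.prod_eq_single j]
  · rw [if_pos rfl]
  · intro i _ hi
    rw [if_neg hi, mul_zero, pow_zero]
  · intro h
    exact absurd (Finset.mem_univ j) h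

/-- rearranging the size condition -/
theorem cost_eq {J : Type} [Fintype J] (h h' : ι → ℝ) (Q Q' : J → ι → ℝ) (m : J → ℕ) :
    ∏ v, (h v * h' v * ∏ j, (Q j v * Q' j v) ^ m j) =
      (∏ v, (h v * h' v)) * ∏ j, (∏ v, (Q j v * Q' j v)) ^ m j := by
  rw [Finset.prod_mul_distrib, Finset.prod_comm]
  congr 1
  refine Finset.prod_congr rfl fun j _ => ?_
  rw [Finset.prod_pow]

variable [∀ v, IsUltrametricDist (k v)]

/-- The statement on periods. -/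
theorem periods {ρ : G →* GLS n k} (hρ : Function.Injective ρ) {emb : ∀ v, A →+* k v}
    (hA : IsSInt emb) {K : Subgroup G}
    (hK : ∀ κ ∈ K, Bdd (ρ κ) fun _ => 1) {𝔫 : Ideal A} {Γ : Subgroup G} (hΓ : Γ = prin ρ emb 𝔫)
    {I J : Type} [Fintype I] [Fintype J]
    {φ : J → G → ℝ} {Q Q' : J → ι → ℝ} {F : I → G ⧸ K → ℂ} {lam : I → J → ℂ}
    (hE : IsEigenSys ρ K Γ φ Q Q' F lam) {h h' : ι → ℝ}
    (hh : ∀ v, 0 < h v ∧ 0 < h' v ∧ 1 ≤ h v * h' v) {c a : GLS n k} (ha : Dominant a) {d : A}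
    (hc : HasDen emb c d) {Δ : Subgroup G} (hΔ : ∀ γ, γ ∈ Δ ↔ γ ∈ Γ ∧ Upper (c⁻¹ * ρ γ * c))
    {f : G ⧸ K → ℂ} (hf : IsTest ρ K Δ c a h h' f) {H : ℝ}
    (hH : H = (∏ v, (h v * h' v)) * Nat.card (A ⧸ Ideal.span {d}))
    (m : J → ℕ) (hT : H * ∏ j, (∏ v, (Q j v * Q' j v)) ^ m j < Nat.card (A ⧸ 𝔫)) :
    ∑ i, (∏ j, ‖lam i j‖ ^ (2 * m j)) * ‖ip Δ (F i) f‖ ^ 2 ≤
      (∏ j, hnorm K (φ j) ^ (2 * m j)) * nsq Δ f := by
  have hΔ' : Δ = unip ρ Γ c := Subgroup.ext hΔ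
  subst hΔ'
  obtain ⟨hdf, hdp⟩ := hA.prod d hc.1
  have hdpos : (0 : ℝ) < Nat.card (A ⧸ Ideal.span {d}) := by
    exact_mod_cast Nat.card_pos
  have hT' : ∏ v, (h v * h' v * ∏ j, (Q j v * Q' j v) ^ m j) <
      (Nat.card (A ⧸ 𝔫) : ℝ) / Nat.card (A ⧸ Ideal.span {d}) := by
    rw [lt_div_iff₀ hdpos, cost_eq]
    refine lt_of_eq_of_lt ?_ hT
    rw [hH]
    ring
  exact first hK (disc_prin hρ hA hΓ.le) hE.isHecke hE.size
    (fun j => normBd_hnorm (hE.isHecke j)) hE.onf (fun i j => funext fun x => hE.eig i j x) m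
    (frame_of_den hA hΓ.le hc) ha hh hT' f hf.inv hf.fin hf.supp

theorem ratio_eq {T' D H : ℝ} (hD : D ≠ 0) (hT : T' ≠ 0) :
    H / (T' / D) = H * D / T' := by
  field_simp

/-- The exceptional eigenvalues: periods. -/
theorem periods_exc {ρ : G →* GLS n k} (hρ : Function.Injective ρ) {emb : ∀ v, A →+* k v}
    (hA : IsSInt emb) {K : Subgroup G}
    (hK : ∀ κ ∈ K, Bdd (ρ κ) fun _ => 1) {𝔫 : Ideal A} {Γ : Subgroup G} (hΓ : Γ = prin ρ emb 𝔫)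
    {I J : Type} [Fintype I] [Fintype J]
    {φ : J → G → ℝ} {Q Q' : J → ι → ℝ} {F : I → G ⧸ K → ℂ} {lam : I → J → ℂ}
    (hE : IsEigenSys ρ K Γ φ Q Q' F lam) {h h' : ι → ℝ}
    (hh : ∀ v, 0 < h v ∧ 0 < h' v ∧ 1 ≤ h v * h' v) {c a : GLS n k} (ha : Dominant a) {d : A}
    (hc : HasDen emb c d) {Δ : Subgroup G} (hΔ : ∀ γ, γ ∈ Δ ↔ γ ∈ Γ ∧ Upper (c⁻¹ * ρ γ * c))
    {f : G ⧸ K → ℂ} (hf : IsTest ρ K Δ c a h h' f) {H : ℝ}
    (hH : H = (∏ v, (h v * h' v)) * Nat.card (A ⧸ Ideal.span {d}))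
    (j : J) (r : ℝ) (hr : 1 < r) (hR : 1 < ∏ v, (Q j v * Q' j v)) (hT : H < Nat.card (A ⧸ 𝔫)) :
    ∑ i with r * hnorm K (φ j) < ‖lam i j‖, ‖ip Δ (F i) f‖ ^ 2 ≤
      r ^ 2 * (H / Nat.card (A ⧸ 𝔫)) ^
        (2 * Real.log r / Real.log (∏ v, (Q j v * Q' j v))) * nsq Δ f := by
  classical
  obtain ⟨hdf, hdp⟩ := hA.prod d hc.1
  have hdpos : (0 : ℝ) < Nat.card (A ⧸ Ideal.span {d}) := by
    exact_mod_cast Nat.card_pos
  have hHpos : 0 < H := by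
    rw [hH]
    exact mul_pos (Finset.prod_pos fun v _ => mul_pos (hh v).1 (hh v).2.1) hdpos
  exact dens (fun i => ‖ip Δ (F i) f‖ ^ 2) (fun i => ‖lam i j‖)
    (fun i => by positivity) (fun i => norm_nonneg _) (normBd_hnorm (hE.isHecke j)).1
    (nsq_nonneg Δ f) hHpos hT hR hr
    (fun m hm => by
      have h1 := periods hρ hA hK hΓ hE hh ha hc hΔ hf hH (fun i => if i = j then m else 0) (by
        rw [single_prod j m (fun j => ∏ v, (Q j v * Q' j v))]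
        exact hm)
      rw [single_prod2 j m (fun j => hnorm K (φ j))] at h1
      refine le_trans (le_of_eq ?_) h1
      refine Finset.sum_congr rfl fun i _ => ?_
      rw [single_prod2 j m (fun j => ‖lam i j‖)])

/-- The statement on masses. -/
theorem masses {ρ : G →* GLS n k} (hρ : Function.Injective ρ) {emb : ∀ v, A →+* k v}
    (hA : IsSInt emb) {K : Subgroup G}
    (hK : ∀ κ ∈ K, Bdd (ρ κ) fun _ => 1) {𝔫 : Ideal A} {Γ Γ₁ : Subgroup G}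
    (hΓ : Γ = prin ρ emb 𝔫) (hΓ₁ : Γ₁ = prin ρ emb ⊤)
    {I J : Type} [Fintype I] [Fintype J]
    {φ : J → G → ℝ} {Q Q' : J → ι → ℝ} {F : I → G ⧸ K → ℂ} {lam : I → J → ℂ}
    (hE : IsEigenSys ρ K Γ φ Q Q' F lam) {h h' : ι → ℝ}
    (hh : ∀ v, 0 < h v ∧ 0 < h' v ∧ 1 ≤ h v * h' v) {d : A} (hd : d ≠ 0) (D : Finset (G ⧸ K))
    (hD : ∀ x ∈ D, ∃ c a, HasDen emb c d ∧ Dominant a ∧ x ∈ Reg ρ K c a h h') {H : ℝ}
    (hH : H = (∏ v, (h v * h' v)) * Nat.card (A ⧸ Ideal.span {d}))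
    (m : J → ℕ) (hT : H * ∏ j, (∏ v, (Q j v * Q' j v)) ^ m j < Nat.card (A ⧸ 𝔫)) :
    ∑ i, (∏ j, ‖lam i j‖ ^ (2 * m j)) * massOn Γ (sat Γ₁ D) (F i) ≤
      (∏ j, hnorm K (φ j) ^ (2 * m j)) * (Γ.relIndex Γ₁ * D.card) := by
  classical
  obtain ⟨hdf, hdp⟩ := hA.prod d hd
  have hdpos : (0 : ℝ) < Nat.card (A ⧸ Ideal.span {d}) := by
    exact_mod_cast Nat.card_pos
  have hT' : ∏ v, (h v * h' v * ∏ j, (Q j v * Q' j v) ^ m j) <
      (Nat.card (A ⧸ 𝔫) : ℝ) / Nat.card (A ⧸ Ideal.span {d}) := by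
    rw [lt_div_iff₀ hdpos, cost_eq]
    refine lt_of_eq_of_lt ?_ hT
    rw [hH]
    ring
  have h𝔫 : Finite (A ⧸ 𝔫) := by
    refine Nat.finite_of_card_ne_zero ?_
    intro h0
    rw [h0, Nat.cast_zero, zero_div] at hT'
    have h1 : 0 ≤ ∏ v, (h v * h' v * ∏ j, (Q j v * Q' j v) ^ m j) :=
      Finset.prod_nonneg fun v _ => mul_nonneg (mul_nonneg (hh v).1.le (hh v).2.1.le)
        (Finset.prod_nonneg fun j _ => pow_nonneg (mul_nonneg ((hE.size j).pos v).1.le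
          ((hE.size j).pos v).2.1.le) _)
    exact absurd hT' (not_lt.2 h1)
  have hle : Γ ≤ Γ₁ := by
    rw [hΓ, hΓ₁]
    exact prin_mono ρ emb 𝔫
  have hidx : Γ.relIndex Γ₁ ≠ 0 := by
    rw [hΓ, hΓ₁]
    exact prin_index ρ emb 𝔫
  obtain ⟨O, hO1, hO2, hO3⟩ := orbits_le' hle hidx D
  have hO : ∀ o : Orb Γ (G ⧸ K), Quotient.out o ∈ sat Γ₁ D ↔ o ∈ O := by
    intro o
    constructor
    · intro ho
      exact hO2 o ho
    · intro ho
      obtain ⟨γ, hγ, x, hx, e⟩ := hO3 o ho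
      refine ⟨γ⁻¹, Γ₁.inv_mem hγ, ?_⟩
      rw [e, inv_smul_smul]
      exact hx
  have key := third hK (disc_prin hρ hA hΓ.le) hE.isHecke hE.size
    (fun j => normBd_hnorm (hE.isHecke j)) hE.onf (fun i j => funext fun x => hE.eig i j x) m hh hT'
    O (by
      intro o ho
      obtain ⟨γ, hγ, x, hx, e⟩ := hO3 o ho
      obtain ⟨c, a, hc, ha, g, hg, u, b, hu, hb, hb', eg⟩ := hD x hx
      refine ⟨ρ γ * c, a, ?_, ha, γ * g, ?_, u, b, hu, hb, hb', ?_⟩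
      · intro η hη
        rw [hΓ] at hη
        rw [hΓ₁] at hγ
        have h1 := frame_of_den hA le_rfl hc _ (prin_conj ρ emb 𝔫 hγ hη)
        have e2 : (ρ γ * c)⁻¹ * ρ η * (ρ γ * c) = c⁻¹ * ρ (γ⁻¹ * η * γ) * c := by
          rw [map_mul, map_mul, map_inv]
          group
        rw [e2]
        exact h1
      · rw [e, ← hg]
        rfl
      · rw [map_mul, eg]
        group)
  calc ∑ i, (∏ j, ‖lam i j‖ ^ (2 * m j)) * massOn Γ (sat Γ₁ D) (F i)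
      = ∑ i, (∏ j, ‖lam i j‖ ^ (2 * m j)) * mass Γ O (F i) := by
        refine Finset.sum_congr rfl fun i _ => ?_
        rw [massOn_eq _ _ _ O hO]
    _ ≤ _ := key
    _ ≤ _ := by
        refine mul_le_mul_of_nonneg_left ?_
          (Finset.prod_nonneg fun j _ => pow_nonneg (normBd_hnorm (hE.isHecke j)).1 _)
        exact_mod_cast hO1

/-- The exceptional eigenvalues: masses. -/
theorem masses_exc {ρ : G →* GLS n k} (hρ : Function.Injective ρ) {emb : ∀ v, A →+* k v}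
    (hA : IsSInt emb) {K : Subgroup G}
    (hK : ∀ κ ∈ K, Bdd (ρ κ) fun _ => 1) {𝔫 : Ideal A} {Γ Γ₁ : Subgroup G}
    (hΓ : Γ = prin ρ emb 𝔫) (hΓ₁ : Γ₁ = prin ρ emb ⊤)
    {I J : Type} [Fintype I] [Fintype J]
    {φ : J → G → ℝ} {Q Q' : J → ι → ℝ} {F : I → G ⧸ K → ℂ} {lam : I → J → ℂ}
    (hE : IsEigenSys ρ K Γ φ Q Q' F lam) {h h' : ι → ℝ}
    (hh : ∀ v, 0 < h v ∧ 0 < h' v ∧ 1 ≤ h v * h' v) {d : A} (hd : d ≠ 0) (D : Finset (G ⧸ K))
    (hD : ∀ x ∈ D, ∃ c a, HasDen emb c d ∧ Dominant a ∧ x ∈ Reg ρ K c a h h') {H : ℝ}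
    (hH : H = (∏ v, (h v * h' v)) * Nat.card (A ⧸ Ideal.span {d}))
    (j : J) (r : ℝ) (hr : 1 < r) (hR : 1 < ∏ v, (Q j v * Q' j v)) (hT : H < Nat.card (A ⧸ 𝔫)) :
    ∑ i with r * hnorm K (φ j) < ‖lam i j‖, massOn Γ (sat Γ₁ D) (F i) ≤
      r ^ 2 * (H / Nat.card (A ⧸ 𝔫)) ^
        (2 * Real.log r / Real.log (∏ v, (Q j v * Q' j v))) * (Γ.relIndex Γ₁ * D.card) := by
  classical
  obtain ⟨hdf, hdp⟩ := hA.prod d hd
  have hdpos : (0 : ℝ) < Nat.card (A ⧸ Ideal.span {d}) := by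
    exact_mod_cast Nat.card_pos
  have hHpos : 0 < H := by
    rw [hH]
    exact mul_pos (Finset.prod_pos fun v _ => mul_pos (hh v).1 (hh v).2.1) hdpos
  exact dens (fun i => massOn Γ (sat Γ₁ D) (F i)) (fun i => ‖lam i j‖)
    (fun i => tsum_nonneg fun o => Set.indicator_nonneg (fun x _ => by positivity) _)
    (fun i => norm_nonneg _) (normBd_hnorm (hE.isHecke j)).1
    (by positivity : (0 : ℝ) ≤ (Γ.relIndex Γ₁ * D.card : ℝ)) hHpos hT hR hr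
    (fun m hm => by
      have h1 := masses hρ hA hK hΓ hΓ₁ hE hh hd D hD hH (fun i => if i = j then m else 0) (by
        rw [single_prod j m (fun j => ∏ v, (Q j v * Q' j v))]
        exact hm)
      rw [single_prod2 j m (fun j => hnorm K (φ j))] at h1
      refine le_trans (le_of_eq ?_) h1
      refine Finset.sum_congr rfl fun i _ => ?_
      rw [single_prod2 j m (fun j => ‖lam i j‖)])

end Pool.Agent.Helper78.DF
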