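import Pool.Agent.Helper78.DF.Defs

/-!
# Unfolding on `Γ \ X` with values in `[0, ∞]`, the Schur test on `Δ \ X`, and the main inequality

`G` acts on `X`, `Γ ≤ G` has finite stabilizers.
-/

set_option autoImplicit false

open scoped ENNReal

noncomputable section

namespace Pool.Agent.Helper78.DF

variable {G : Type} [Group G] {X : Type} [MulAction G X]

/-- `1 / |Γ_x|` at the chosen point of each orbit, `0` elsewhere -/
def cut (Γ : Subgroup G) (x : X) : ℝ≥0∞ := by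
  classical
  exact if Quotient.out (Quotient.mk (MulAction.orbitRel Γ X) x) = x then
    ((Nat.card (MulAction.stabilizer Γ x) : ℕ) : ℝ≥0∞)⁻¹ else 0

theorem cut_out (Γ : Subgroup G) (o : MulAction.orbitRel.Quotient Γ X) :
    cut Γ (Quotient.out o) = ((Nat.card (MulAction.stabilizer Γ (Quotient.out o)) : ℕ) : ℝ≥0∞)⁻¹ := by
  classical
  unfold cut
  rw [if_pos]
  exact congrArg Quotient.out (Quotient.out_eq o)

theorem tsum_cut (Γ : Subgroup G) (f : X → ℝ≥0∞) :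
    ∑' x, cut Γ x * f x = ∑' o : Orb Γ X,
      ((sc Γ (Quotient.out o) : ℕ) : ℝ≥0∞)⁻¹ * f (Quotient.out o) := by
  classical
  have hinj : Function.Injective (fun o : MulAction.orbitRel.Quotient Γ X => Quotient.out o) :=
    Quotient.out_injective
  rw [← hinj.tsum_eq (f := fun x => cut Γ x * f x)]
  · exact tsum_congr fun o => by rw [cut_out]; rfl
  · intro x hx
    rw [Function.mem_support] at hx
    have h1 : cut Γ x ≠ 0 := left_ne_zero_of_mul hx
    unfold cut at h1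
    by_cases h : Quotient.out (Quotient.mk (MulAction.orbitRel Γ X) x) = x
    · exact ⟨_, h⟩
    · rw [if_neg h] at h1
      exact absurd rfl h1

theorem sum_cut (Γ : Subgroup G) (hfin : ∀ x : X, Finite (MulAction.stabilizer Γ x)) (x : X) :
    ∑' γ : Γ, cut Γ (γ • x) = 1 := by
  classical
  set r : X := Quotient.out (Quotient.mk (MulAction.orbitRel Γ X) x) with hr
  have hrel : (MulAction.orbitRel Γ X).r r x := Quotient.mk_out (s := MulAction.orbitRel Γ X) x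
  obtain ⟨γ₀, hγ₀⟩ : ∃ γ₀ : Γ, γ₀ • x = r := by
    have : r ∈ MulAction.orbit Γ x := hrel
    exact this
  have hout : ∀ γ : Γ, Quotient.out (Quotient.mk (MulAction.orbitRel Γ X) (γ • x)) = r := by
    intro γ
    have : Quotient.mk (MulAction.orbitRel Γ X) (γ • x) = Quotient.mk (MulAction.orbitRel Γ X) x :=
      Quotient.sound (show (MulAction.orbitRel Γ X).r (γ • x) x from ⟨γ, rfl⟩)
    rw [this]
  have hc : ∀ γ : Γ, cut Γ (γ • x) = if γ • x = r then
      ((Nat.card (MulAction.stabilizer Γ r) : ℕ) : ℝ≥0∞)⁻¹ else 0 := by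
    intro γ
    unfold cut
    rw [hout γ]
    by_cases h : r = γ • x
    · rw [if_pos h, if_pos h.symm, ← h]
    · rw [if_neg h, if_neg (fun h' => h h'.symm)]
  have hinj : Function.Injective (fun s : MulAction.stabilizer Γ r => (s : Γ) * γ₀) := by
    intro s t hst
    exact Subtype.ext (mul_right_cancel hst)
  have := hfin r
  rw [← hinj.tsum_eq (f := fun γ : Γ => cut Γ (γ • x))]
  · have : ∀ s : MulAction.stabilizer Γ r, cut Γ (((s : Γ) * γ₀) • x) =
        ((Nat.card (MulAction.stabilizer Γ r) : ℕ) : ℝ≥0∞)⁻¹ := by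
      intro s
      rw [hc, if_pos]
      rw [mul_smul, hγ₀]
      exact s.2
    rw [tsum_congr this]
    rw [ENNReal.tsum_const, ENat.card_eq_coe_natCard]
    simp only [ENat.toENNReal_coe]
    refine ENNReal.mul_inv_cancel ?_ (ENNReal.natCast_ne_top _)
    exact_mod_cast (Nat.card_pos (α := MulAction.stabilizer Γ r)).ne'
  · intro γ hγ
    rw [Function.mem_support, hc] at hγ
    by_cases h : γ • x = r
    · refine ⟨⟨γ * γ₀⁻¹, ?_⟩, ?_⟩
      · show (γ * γ₀⁻¹) • r = r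
        rw [mul_smul, ← hγ₀, inv_smul_smul, h, hγ₀]
      · show γ * γ₀⁻¹ * γ₀ = γ
        group
    · rw [if_neg h] at hγ
      exact absurd rfl hγ

/-- mass transport -/
theorem transport (Γ : Subgroup G) (hfin : ∀ x : X, Finite (MulAction.stabilizer Γ x))
    (k : X → X → ℝ≥0∞) (hk : ∀ γ : Γ, ∀ x y, k (γ • x) (γ • y) = k x y) :
    ∑' x, cut Γ x * ∑' y, k x y = ∑' y, cut Γ y * ∑' x, k x y := by
  have h1 : ∀ x, ∑' y, k x y = ∑' γ : Γ, ∑' y, cut Γ y * k (γ • x) y := by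
    intro x
    calc ∑' y, k x y = ∑' y, (∑' γ : Γ, cut Γ (γ • y)) * k x y := by
          refine tsum_congr fun y => ?_
          rw [sum_cut Γ hfin, one_mul]
      _ = ∑' y, ∑' γ : Γ, cut Γ (γ • y) * k x y := by
          refine tsum_congr fun y => ?_
          rw [ENNReal.tsum_mul_right]
      _ = ∑' γ : Γ, ∑' y, cut Γ (γ • y) * k x y := ENNReal.tsum_comm
      _ = ∑' γ : Γ, ∑' y, cut Γ y * k (γ • x) y := by
          refine tsum_congr fun γ => ?_
          rw [← (MulAction.toPerm (γ : Γ) : Equiv.Perm X).tsum_eq (fun y => cut Γ y * k (γ • x) y)]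
          refine tsum_congr fun y => ?_
          show cut Γ (γ • y) * k x y = cut Γ (γ • y) * k (γ • x) (γ • y)
          rw [hk]
  calc ∑' x, cut Γ x * ∑' y, k x y
      = ∑' x, ∑' γ : Γ, ∑' y, cut Γ x * (cut Γ y * k (γ • x) y) := by
        refine tsum_congr fun x => ?_
        rw [h1, ← ENNReal.tsum_mul_left]
        refine tsum_congr fun γ => ?_
        rw [← ENNReal.tsum_mul_left]
    _ = ∑' γ : Γ, ∑' x, ∑' y, cut Γ x * (cut Γ y * k (γ • x) y) := ENNReal.tsum_comm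
    _ = ∑' γ : Γ, ∑' x, ∑' y, cut Γ (γ⁻¹ • x) * (cut Γ y * k x y) := by
        refine tsum_congr fun γ => ?_
        rw [← (MulAction.toPerm (γ : Γ) : Equiv.Perm X).tsum_eq
          (fun x => ∑' y, cut Γ (γ⁻¹ • x) * (cut Γ y * k x y))]
        refine tsum_congr fun x => ?_
        refine tsum_congr fun y => ?_
        show _ = cut Γ (γ⁻¹ • γ • x) * (cut Γ y * k (γ • x) y)
        rw [inv_smul_smul]
    _ = ∑' x, ∑' γ : Γ, ∑' y, cut Γ (γ⁻¹ • x) * (cut Γ y * k x y) := ENNReal.tsum_comm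
    _ = ∑' x, ∑' y, cut Γ y * k x y := by
        refine tsum_congr fun x => ?_
        simp_rw [ENNReal.tsum_mul_left]
        rw [ENNReal.tsum_mul_right]
        have : ∑' γ : Γ, cut Γ (γ⁻¹ • x) = 1 := by
          rw [← sum_cut Γ hfin x, ← (Equiv.inv Γ).tsum_eq (fun γ => cut Γ (γ • x))]
          rfl
        rw [this, one_mul]
    _ = ∑' y, ∑' x, cut Γ y * k x y := ENNReal.tsum_comm
    _ = ∑' y, cut Γ y * ∑' x, k x y := by
        refine tsum_congr fun y => ?_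
        rw [ENNReal.tsum_mul_left]

/-- the inequality of Cauchy and Schwarz -/
theorem cs {Y : Type} (c a b : Y → ℝ≥0∞) :
    (∑' x, c x * (a x * b x)) ^ 2 ≤ (∑' x, c x * a x ^ 2) * ∑' x, c x * b x ^ 2 := by
  have key : 2 * (∑' x, c x * (a x * b x)) ^ 2 ≤
      2 * ((∑' x, c x * a x ^ 2) * ∑' x, c x * b x ^ 2) := by
    have e1 : (∑' x, c x * (a x * b x)) ^ 2 =
        ∑' x, ∑' y, (c x * c y) * ((a x * b y) * (a y * b x)) := by
      rw [sq, ← ENNReal.tsum_mul_right]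
      refine tsum_congr fun x => ?_
      rw [← ENNReal.tsum_mul_left]
      refine tsum_congr fun y => ?_
      ring
    have e2 : (∑' x, c x * a x ^ 2) * ∑' x, c x * b x ^ 2 =
        ∑' x, ∑' y, (c x * c y) * (a x * b y) ^ 2 := by
      rw [← ENNReal.tsum_mul_right]
      refine tsum_congr fun x => ?_
      rw [← ENNReal.tsum_mul_left]
      refine tsum_congr fun y => ?_
      ring
    have e3 : (∑' x, c x * a x ^ 2) * ∑' x, c x * b x ^ 2 =
        ∑' x, ∑' y, (c x * c y) * (a y * b x) ^ 2 := by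
      rw [e2, ENNReal.tsum_comm]
      refine tsum_congr fun x => ?_
      refine tsum_congr fun y => ?_
      ring
    rw [two_mul ((∑' x, c x * a x ^ 2) * _)]
    nth_rewrite 1 [e2]
    rw [e3, ← ENNReal.tsum_add, e1, ← ENNReal.tsum_mul_left]
    refine ENNReal.tsum_le_tsum fun x => ?_
    rw [← ENNReal.tsum_add, ← ENNReal.tsum_mul_left]
    refine ENNReal.tsum_le_tsum fun y => ?_
    rw [← mul_add, mul_left_comm]
    refine mul_le_mul' le_rfl ?_
    rw [← mul_assoc]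
    exact two_mul_le_add_sq_ennreal (a x * b y) (a y * b x)
  have h2 : (2 : ℝ≥0∞) ≠ 0 := by norm_num
  exact (ENNReal.mul_le_mul_iff_right h2 (by norm_num)).1 key
where
  two_mul_le_add_sq_ennreal (p q : ℝ≥0∞) : 2 * p * q ≤ p ^ 2 + q ^ 2 := by
    by_cases hp : p = ⊤
    · subst hp
      simp
    by_cases hq : q = ⊤
    · subst hq
      simp
    lift p to NNReal using hp
    lift q to NNReal using hq
    exact_mod_cast two_mul_le_add_sq p q

/-- the adjoint operator of the kernel `k` -/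
def adj (k : X → X → ℝ≥0∞) (h : X → ℝ≥0∞) (y : X) : ℝ≥0∞ := ∑' x, k x y * h x

/-- The Schur test on `Δ \ X`. -/
theorem schur (Δ : Subgroup G) (hfin : ∀ x : X, Finite (MulAction.stabilizer Δ x))
    (k : X → X → ℝ≥0∞) (hk : ∀ γ : Δ, ∀ x y, k (γ • x) (γ • y) = k x y)
    (w : X → ℝ≥0∞) (hw0 : ∀ x, w x ≠ 0) (hwt : ∀ x, w x ≠ ⊤) (hw : ∀ γ : Δ, ∀ x, w (γ • x) = w x)
    (N : ℝ≥0∞) (row : ∀ x, ∑' y, k x y * w y ≤ N * w x) (col : ∀ y, ∑' x, k x y * w x ≤ N * w y)
    (g : X → ℝ≥0∞) (hg : ∀ γ : Δ, ∀ x, g (γ • x) = g x) :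
    ∑' y, cut Δ y * adj k g y ^ 2 ≤ N ^ 2 * ∑' x, cut Δ x * g x ^ 2 := by
  set t : X → ℝ≥0∞ := fun x => g x / w x with ht
  have hgt : ∀ x, g x = w x * t x := fun x => by
    rw [ht]; exact (ENNReal.mul_div_cancel (hw0 x) (hwt x)).symm
  have htinv : ∀ γ : Δ, ∀ x, t (γ • x) = t x := fun γ x => by
    simp only [ht, hg, hw]
  have h1 : ∀ y, adj k g y ^ 2 ≤ N * w y * ∑' x, k x y * w x * t x ^ 2 := by
    intro y
    have := cs (fun x => k x y * w x) (fun _ => 1) t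
    calc adj k g y ^ 2 = (∑' x, k x y * w x * (1 * t x)) ^ 2 := by
          congr 1
          refine tsum_congr fun x => ?_
          rw [hgt]; ring
      _ ≤ (∑' x, k x y * w x * 1 ^ 2) * ∑' x, k x y * w x * t x ^ 2 := this
      _ ≤ N * w y * ∑' x, k x y * w x * t x ^ 2 := by
          refine mul_le_mul' ?_ le_rfl
          simpa using col y
  calc ∑' y, cut Δ y * adj k g y ^ 2
      ≤ ∑' y, cut Δ y * (N * w y * ∑' x, k x y * w x * t x ^ 2) :=
        ENNReal.tsum_le_tsum fun y => mul_le_mul' le_rfl (h1 y)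
    _ = N * ∑' y, cut Δ y * ∑' x, w y * (k x y * w x * t x ^ 2) := by
        rw [← ENNReal.tsum_mul_left]
        refine tsum_congr fun y => ?_
        rw [ENNReal.tsum_mul_left]
        ring
    _ = N * ∑' x, cut Δ x * ∑' y, w y * (k x y * w x * t x ^ 2) := by
        congr 1
        refine transport Δ hfin (fun y x => w y * (k x y * w x * t x ^ 2)) ?_
        intro γ y x
        simp only [hw, hk, htinv]
    _ ≤ N * ∑' x, cut Δ x * (N * g x ^ 2) := by
        refine mul_le_mul' le_rfl (ENNReal.tsum_le_tsum fun x => mul_le_mul' le_rfl ?_)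
        calc ∑' y, w y * (k x y * w x * t x ^ 2) = (∑' y, k x y * w y) * (w x * t x ^ 2) := by
              rw [← ENNReal.tsum_mul_right]
              refine tsum_congr fun y => ?_
              ring
          _ ≤ N * w x * (w x * t x ^ 2) := mul_le_mul' (row x) le_rfl
          _ = N * g x ^ 2 := by rw [hgt]; ring
    _ = N ^ 2 * ∑' x, cut Δ x * g x ^ 2 := by
        rw [← ENNReal.tsum_mul_left, ← ENNReal.tsum_mul_left]
        refine tsum_congr fun x => ?_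
        ring

/-- the iterated adjoint -/
def adjs (L : List (X → X → ℝ≥0∞)) (h : X → ℝ≥0∞) : X → ℝ≥0∞ := L.foldl (fun h k => adj k h) h

theorem adj_inv (Δ : Subgroup G) (k : X → X → ℝ≥0∞)
    (hk : ∀ γ : Δ, ∀ x y, k (γ • x) (γ • y) = k x y) (g : X → ℝ≥0∞)
    (hg : ∀ γ : Δ, ∀ x, g (γ • x) = g x) (γ : Δ) (y : X) : adj k g (γ • y) = adj k g y := by
  unfold adj
  rw [← (MulAction.toPerm (γ : Δ) : Equiv.Perm X).tsum_eq (fun x => k x (γ • y) * g x)]
  refine tsum_congr fun x => ?_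
  show k (γ • x) (γ • y) * g (γ • x) = _
  rw [hk, hg]

theorem adj_trans (Δ : Subgroup G) (k : X → X → ℝ≥0∞)
    (hk : ∀ γ : Δ, ∀ x y, k (γ • x) (γ • y) = k x y) (h : X → ℝ≥0∞) (y : X) :
    ∑' γ : Δ, adj k h (γ • y) = adj k (fun x => ∑' γ : Δ, h (γ • x)) y := by
  unfold adj
  have : ∀ γ : Δ, ∑' x, k x (γ • y) * h x = ∑' x, k x y * h (γ • x) := by
    intro γ
    rw [← (MulAction.toPerm (γ : Δ) : Equiv.Perm X).tsum_eq (fun x => k x (γ • y) * h x)]
    refine tsum_congr fun x => ?_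
    show k (γ • x) (γ • y) * h (γ • x) = _
    rw [hk]
  rw [tsum_congr this, ENNReal.tsum_comm]
  refine tsum_congr fun x => ?_
  rw [ENNReal.tsum_mul_left]

theorem adjs_trans (Δ : Subgroup G) (L : List (X → X → ℝ≥0∞))
    (hL : ∀ k ∈ L, ∀ γ : Δ, ∀ x y, k (γ • x) (γ • y) = k x y) (h : X → ℝ≥0∞) :
    (fun y => ∑' γ : Δ, adjs L h (γ • y)) = adjs L (fun x => ∑' γ : Δ, h (γ • x)) := by
  induction L generalizing h with
  | nil => rfl
  | cons k L ih =>
    show (fun y => ∑' γ : Δ, adjs L (adj k h) (γ • y)) = adjs L (adj k _)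
    rw [ih (fun k' hk' => hL k' (List.mem_cons_of_mem _ hk'))]
    congr 1
    funext y
    exact adj_trans Δ k (hL k List.mem_cons_self) h y

theorem adjs_schur (Δ : Subgroup G) (hfin : ∀ x : X, Finite (MulAction.stabilizer Δ x))
    (w : X → ℝ≥0∞) (hw0 : ∀ x, w x ≠ 0) (hwt : ∀ x, w x ≠ ⊤) (hw : ∀ γ : Δ, ∀ x, w (γ • x) = w x)
    (L : List ((X → X → ℝ≥0∞) × ℝ≥0∞))
    (hL : ∀ k ∈ L, (∀ γ : Δ, ∀ x y, k.1 (γ • x) (γ • y) = k.1 x y) ∧
      (∀ x, ∑' y, k.1 x y * w y ≤ k.2 * w x) ∧ ∀ y, ∑' x, k.1 x y * w x ≤ k.2 * w y)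
    (g : X → ℝ≥0∞) (hg : ∀ γ : Δ, ∀ x, g (γ • x) = g x) :
    ∑' y, cut Δ y * adjs (L.map Prod.fst) g y ^ 2 ≤
      (L.map Prod.snd).prod ^ 2 * ∑' x, cut Δ x * g x ^ 2 := by
  induction L generalizing g with
  | nil => simp [adjs]
  | cons k L ih =>
    obtain ⟨h1, h2, h3⟩ := hL k List.mem_cons_self
    have h4 := ih (fun k' hk' => hL k' (List.mem_cons_of_mem _ hk')) (adj k.1 g)
      (fun γ x => adj_inv Δ k.1 h1 g hg γ x)
    have h5 := schur Δ hfin k.1 h1 w hw0 hwt hw k.2 h2 h3 g hg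
    calc _ ≤ (L.map Prod.snd).prod ^ 2 * ∑' x, cut Δ x * adj k.1 g x ^ 2 := h4
      _ ≤ (L.map Prod.snd).prod ^ 2 * (k.2 ^ 2 * ∑' x, cut Δ x * g x ^ 2) :=
        mul_le_mul' le_rfl h5
      _ = _ := by
        rw [List.map_cons, List.prod_cons]
        ring

/-- energy of `h` -/
theorem energy (Γ : Subgroup G) (hfin : ∀ x : X, Finite (MulAction.stabilizer Γ x))
    (h : X → ℝ≥0∞) :
    ∑' x, h x * ∑' γ : Γ, h (γ • x) = ∑' x, cut Γ x * (∑' γ : Γ, h (γ • x)) ^ 2 := by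
  set H : X → ℝ≥0∞ := fun x => ∑' γ : Γ, h (γ • x) with hH
  have hinv : ∀ (γ : Γ) x, H (γ • x) = H x := by
    intro γ x
    show ∑' γ' : Γ, h (γ' • γ • x) = ∑' γ' : Γ, h (γ' • x)
    rw [← (Equiv.mulRight γ).tsum_eq (fun γ' : Γ => h (γ' • x))]
    refine tsum_congr fun γ' => ?_
    rw [Equiv.coe_mulRight, mul_smul]
  calc ∑' x, h x * H x = ∑' x, (∑' γ : Γ, cut Γ (γ • x)) * (h x * H x) := by
        refine tsum_congr fun x => ?_
        rw [sum_cut Γ hfin, one_mul]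
    _ = ∑' x, ∑' γ : Γ, cut Γ (γ • x) * (h x * H x) := by
        refine tsum_congr fun x => ?_
        rw [ENNReal.tsum_mul_right]
    _ = ∑' γ : Γ, ∑' x, cut Γ (γ • x) * (h x * H x) := ENNReal.tsum_comm
    _ = ∑' γ : Γ, ∑' x, cut Γ x * (h (γ⁻¹ • x) * H x) := by
        refine tsum_congr fun γ => ?_
        rw [← (MulAction.toPerm (γ : Γ) : Equiv.Perm X).tsum_eq
          (fun x => cut Γ x * (h (γ⁻¹ • x) * H x))]
        refine tsum_congr fun x => ?_
        show _ = cut Γ (γ • x) * (h (γ⁻¹ • γ • x) * H (γ • x))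
        rw [inv_smul_smul, hinv]
    _ = ∑' x, ∑' γ : Γ, cut Γ x * (h (γ⁻¹ • x) * H x) := ENNReal.tsum_comm
    _ = ∑' x, cut Γ x * H x ^ 2 := by
        refine tsum_congr fun x => ?_
        rw [ENNReal.tsum_mul_left, ENNReal.tsum_mul_right]
        have : ∑' γ : Γ, h (γ⁻¹ • x) = H x := by
          show ∑' γ : Γ, h (γ⁻¹ • x) = ∑' γ : Γ, h (γ • x)
          rw [← (Equiv.inv Γ).tsum_eq (fun γ => h (γ • x))]
          rfl
        rw [this, sq]

/-- pairing of an invariant function with `h` -/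
theorem pairing (Γ : Subgroup G) (hfin : ∀ x : X, Finite (MulAction.stabilizer Γ x))
    (Φ h : X → ℝ≥0∞) (hΦ : ∀ γ : Γ, ∀ x, Φ (γ • x) = Φ x) :
    (∑' x, Φ x * h x) ^ 2 ≤ (∑' x, cut Γ x * Φ x ^ 2) * ∑' x, h x * ∑' γ : Γ, h (γ • x) := by
  rw [energy Γ hfin]
  have : ∑' x, Φ x * h x = ∑' x, cut Γ x * (Φ x * ∑' γ : Γ, h (γ • x)) := by
    calc ∑' x, Φ x * h x = ∑' x, (∑' γ : Γ, cut Γ (γ • x)) * (Φ x * h x) := by
          refine tsum_congr fun x => ?_
          rw [sum_cut Γ hfin, one_mul]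
      _ = ∑' x, ∑' γ : Γ, cut Γ (γ • x) * (Φ x * h x) := by
          refine tsum_congr fun x => ?_
          rw [ENNReal.tsum_mul_right]
      _ = ∑' γ : Γ, ∑' x, cut Γ (γ • x) * (Φ x * h x) := ENNReal.tsum_comm
      _ = ∑' γ : Γ, ∑' x, cut Γ x * (Φ x * h (γ⁻¹ • x)) := by
          refine tsum_congr fun γ => ?_
          rw [← (MulAction.toPerm (γ : Γ) : Equiv.Perm X).tsum_eq
            (fun x => cut Γ x * (Φ x * h (γ⁻¹ • x)))]
          refine tsum_congr fun x => ?_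
          show _ = cut Γ (γ • x) * (Φ (γ • x) * h (γ⁻¹ • γ • x))
          rw [inv_smul_smul, hΦ]
      _ = ∑' x, ∑' γ : Γ, cut Γ x * (Φ x * h (γ⁻¹ • x)) := ENNReal.tsum_comm
      _ = _ := by
          refine tsum_congr fun x => ?_
          rw [ENNReal.tsum_mul_left, ENNReal.tsum_mul_left]
          have : ∑' γ : Γ, h (γ⁻¹ • x) = ∑' γ : Γ, h (γ • x) := by
            rw [← (Equiv.inv Γ).tsum_eq (fun γ => h (γ • x))]
            rfl
          rw [this]
  rw [this]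
  exact cs _ _ _

/-- **The main inequality.** -/
theorem main (Γ Δ : Subgroup G) (hΔ : Δ ≤ Γ) (hfin : ∀ x : X, Finite (MulAction.stabilizer Γ x))
    (hfinΔ : ∀ x : X, Finite (MulAction.stabilizer Δ x))
    (w : X → ℝ≥0∞) (hw0 : ∀ x, w x ≠ 0) (hwt : ∀ x, w x ≠ ⊤) (hw : ∀ γ : Δ, ∀ x, w (γ • x) = w x)
    (L : List ((X → X → ℝ≥0∞) × ℝ≥0∞))
    (hL : ∀ k ∈ L, (∀ γ : Δ, ∀ x y, k.1 (γ • x) (γ • y) = k.1 x y) ∧
      (∀ x, ∑' y, k.1 x y * w y ≤ k.2 * w x) ∧ ∀ y, ∑' x, k.1 x y * w x ≤ k.2 * w y)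
    (f : X → ℝ≥0∞) (hf : ∀ γ : Δ, ∀ x, f (γ • x) = f x)
    (sep : ∀ γ : G, γ ∈ Γ → ∀ x, adjs (L.map Prod.fst) (fun x => cut Δ x * f x) x ≠ 0 →
      adjs (L.map Prod.fst) (fun x => cut Δ x * f x) (γ • x) ≠ 0 → γ ∈ Δ)
    (Φ : X → ℝ≥0∞) (hΦ : ∀ γ : Γ, ∀ x, Φ (γ • x) = Φ x) :
    (∑' x, Φ x * adjs (L.map Prod.fst) (fun x => cut Δ x * f x) x) ^ 2 ≤
      (∑' x, cut Γ x * Φ x ^ 2) * ((L.map Prod.snd).prod ^ 2 * ∑' x, cut Δ x * f x ^ 2) := by
  set h := adjs (L.map Prod.fst) (fun x => cut Δ x * f x) with hh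
  refine (pairing Γ hfin Φ h hΦ).trans (mul_le_mul' le_rfl ?_)
  have h1 : ∀ x, h x * ∑' γ : Γ, h (γ • x) = h x * ∑' γ : Δ, h (γ • x) := by
    intro x
    by_cases hx : h x = 0
    · rw [hx, zero_mul, zero_mul]
    · congr 1
      have hinj : Function.Injective (Subgroup.inclusion hΔ) := Subgroup.inclusion_injective hΔ
      rw [← hinj.tsum_eq (f := fun γ : Γ => h (γ • x))]
      · rfl
      · intro γ hγ
        rw [Function.mem_support] at hγ
        exact ⟨⟨γ, sep γ γ.2 x hx hγ⟩, rfl⟩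
  rw [tsum_congr h1, energy Δ hfinΔ]
  have h2 : (fun y => ∑' γ : Δ, h (γ • y)) =
      adjs (L.map Prod.fst) (fun x => ∑' γ : Δ, (fun x => cut Δ x * f x) (γ • x)) := by
    rw [hh]
    refine adjs_trans Δ _ ?_ _
    intro k hk
    obtain ⟨p, hp, rfl⟩ := List.mem_map.1 hk
    exact (hL p hp).1
  have h3 : (fun x => ∑' γ : Δ, (fun x => cut Δ x * f x) (γ • x)) = f := by
    funext x
    show ∑' γ : Δ, cut Δ (γ • x) * f (γ • x) = f x
    have : ∀ γ : Δ, cut Δ (γ • x) * f (γ • x) = cut Δ (γ • x) * f x := fun γ => by rw [hf]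
    rw [tsum_congr this, ENNReal.tsum_mul_right, sum_cut Δ hfinΔ, one_mul]
  have h4 : ∀ x, (∑' γ : Δ, h (γ • x)) = adjs (L.map Prod.fst) f x := by
    intro x
    have := congrFun h2 x
    rw [h3] at this
    exact this
  calc ∑' x, cut Δ x * (∑' γ : Δ, h (γ • x)) ^ 2
      = ∑' x, cut Δ x * adjs (L.map Prod.fst) f x ^ 2 := tsum_congr fun x => by rw [h4]
    _ ≤ _ := adjs_schur Δ hfinΔ w hw0 hwt hw L hL f hf

end Pool.Agent.Helper78.DF
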