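import Pool.Agent.Helper78.DF.Abs

/-!
# Locally finite groups: norm bounds on `ℓ²(X)` descend to `Δ \ X`
-/

set_option autoImplicit false

open scoped ENNReal

noncomputable section

namespace Pool.Agent.Helper78.DF

variable {G : Type} [Group G] {X : Type} [MulAction G X]

/-- `Δ` is locally finite -/
def LocFin (Δ : Subgroup G) : Prop :=
  ∀ s : Set G, s.Finite → s ⊆ Δ → ∃ E : Subgroup G, E ≤ Δ ∧ Finite E ∧ s ⊆ E

theorem cut_fin (Δ : Subgroup G) (hfin : ∀ x : X, Finite (MulAction.stabilizer Δ x)) (x : X) :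
    {δ : Δ | cut Δ (δ • x) ≠ 0}.Finite := by
  classical
  set r : X := Quotient.out (Quotient.mk (MulAction.orbitRel Δ X) x) with hr
  have hout : ∀ γ : Δ, Quotient.out (Quotient.mk (MulAction.orbitRel Δ X) (γ • x)) = r := by
    intro γ
    have : Quotient.mk (MulAction.orbitRel Δ X) (γ • x) = Quotient.mk (MulAction.orbitRel Δ X) x :=
      Quotient.sound (show (MulAction.orbitRel Δ X).r (γ • x) x from ⟨γ, rfl⟩)
    rw [this]
  have h1 : ∑' γ : Δ, cut Δ (γ • x) ≠ ⊤ := by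
    rw [sum_cut Δ hfin]
    exact ENNReal.one_ne_top
  refine (ENNReal.finite_const_le_of_tsum_ne_top h1
    (ε := ((Nat.card (MulAction.stabilizer Δ r) : ℕ) : ℝ≥0∞)⁻¹) ?_).subset ?_
  · exact ENNReal.inv_ne_zero.2 (ENNReal.natCast_ne_top _)
  · intro δ hδ
    have hδ' : cut Δ (δ • x) ≠ 0 := hδ
    show _ ≤ cut Δ (δ • x)
    unfold cut at hδ' ⊢
    rw [hout δ] at hδ' ⊢
    by_cases h : r = δ • x
    · rw [if_pos h, ← h]
    · rw [if_neg h] at hδ'
      exact absurd rfl hδ'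

/-- partial sums of the partition of unity -/
def cE (Δ E : Subgroup G) (x : X) : ℝ≥0∞ := ∑' ε : E, cut Δ ((ε : G) • x)

theorem cE_inv (Δ E : Subgroup G) (ε : E) (x : X) : cE Δ E ((ε : G) • x) = cE Δ E x := by
  unfold cE
  rw [← (Equiv.mulRight ε).tsum_eq (fun ε' : E => cut Δ ((ε' : G) • x))]
  refine tsum_congr fun ε' => ?_
  rw [Equiv.coe_mulRight, Subgroup.coe_mul, mul_smul]

theorem cE_le (Δ E : Subgroup G) (hE : E ≤ Δ) (hfin : ∀ x : X, Finite (MulAction.stabilizer Δ x))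
    (x : X) : cE Δ E x ≤ 1 := by
  rw [← sum_cut Δ hfin x]
  exact ENNReal.tsum_comp_le_tsum_of_injective (Subgroup.inclusion_injective hE)
    (fun δ : Δ => cut Δ (δ • x))

theorem cE_sum (Δ E : Subgroup G) [Finite E] (u : X → ℝ≥0∞) (hu : ∀ ε : E, ∀ x, u ((ε : G) • x) = u x) :
    ∑' x, cE Δ E x * u x = (Nat.card E : ℝ≥0∞) * ∑' x, cut Δ x * u x := by
  calc ∑' x, cE Δ E x * u x = ∑' x, ∑' ε : E, cut Δ ((ε : G) • x) * u x := by
        refine tsum_congr fun x => ?_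
        unfold cE
        rw [ENNReal.tsum_mul_right]
    _ = ∑' ε : E, ∑' x, cut Δ ((ε : G) • x) * u x := ENNReal.tsum_comm
    _ = ∑' _ : E, ∑' x, cut Δ x * u x := by
        refine tsum_congr fun ε => ?_
        rw [← (MulAction.toPerm (ε : G) : Equiv.Perm X).tsum_eq (fun x => cut Δ x * u x)]
        refine tsum_congr fun x => ?_
        show _ = cut Δ ((ε : G) • x) * u ((ε : G) • x)
        rw [hu]
    _ = _ := by
        rw [ENNReal.tsum_const, ENat.card_eq_coe_natCard]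
        simp only [ENat.toENNReal_coe]

theorem amen (Δ : Subgroup G) (hfin : ∀ x : X, Finite (MulAction.stabilizer Δ x))
    (hlf : LocFin Δ) (k : X → X → ℝ≥0∞) (hk : ∀ γ : Δ, ∀ x y, k (γ • x) (γ • y) = k x y)
    (hcol : ∀ y, {x | k x y ≠ 0}.Finite) (N : ℝ≥0∞)
    (hN : ∀ h : X → ℝ≥0∞, ∑' y, adj k h y ^ 2 ≤ N ^ 2 * ∑' x, h x ^ 2)
    (g : X → ℝ≥0∞) (hg : ∀ γ : Δ, ∀ x, g (γ • x) = g x) :
    ∑' y, cut Δ y * adj k g y ^ 2 ≤ N ^ 2 * ∑' x, cut Δ x * g x ^ 2 := by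
  classical
  -- first step
  have step : ∀ E : Subgroup G, E ≤ Δ → Finite E →
      ∑' y, cut Δ y * adj k (fun x => cE Δ E x * g x) y ^ 2 ≤ N ^ 2 * ∑' x, cut Δ x * g x ^ 2 := by
    intro E hE hEf
    have hginv : ∀ ε : E, ∀ x, g ((ε : G) • x) = g x := fun ε x => hg ⟨ε, hE ε.2⟩ x
    have hG : ∀ ε : E, ∀ x, (fun x => cE Δ E x * g x) (ε • x) = (fun x => cE Δ E x * g x) x := by
      intro ε x
      show cE Δ E ((ε : G) • x) * g ((ε : G) • x) = _
      rw [cE_inv, hginv]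
    have hA : ∀ ε : E, ∀ y, adj k (fun x => cE Δ E x * g x) ((ε : G) • y) ^ 2 =
        adj k (fun x => cE Δ E x * g x) y ^ 2 := by
      intro ε y
      have := adj_inv E k (fun γ x y => hk ⟨γ, hE γ.2⟩ x y) (fun x => cE Δ E x * g x) hG ε y
      rw [← this]
      rfl
    have h1 : ∑' x, (cE Δ E x * g x) ^ 2 ≤ (Nat.card E : ℝ≥0∞) * ∑' x, cut Δ x * g x ^ 2 := by
      rw [← cE_sum Δ E (fun x => g x ^ 2) (fun ε x => by
        show g _ ^ 2 = g x ^ 2
        rw [hginv])]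
      refine ENNReal.tsum_le_tsum fun x => ?_
      rw [mul_pow, sq (cE Δ E x), mul_assoc]
      calc cE Δ E x * (cE Δ E x * g x ^ 2) ≤ 1 * (cE Δ E x * g x ^ 2) :=
            mul_le_mul' (cE_le Δ E hE hfin x) le_rfl
        _ = _ := one_mul _
    have h2 : (Nat.card E : ℝ≥0∞) * ∑' y, cut Δ y * adj k (fun x => cE Δ E x * g x) y ^ 2 ≤
        ∑' y, adj k (fun x => cE Δ E x * g x) y ^ 2 := by
      rw [← cE_sum Δ E _ hA]
      refine ENNReal.tsum_le_tsum fun y => ?_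
      calc _ ≤ 1 * adj k (fun x => cE Δ E x * g x) y ^ 2 :=
            mul_le_mul' (cE_le Δ E hE hfin y) le_rfl
        _ = _ := one_mul _
    have h3 := h2.trans ((hN _).trans (mul_le_mul' le_rfl h1))
    have hc : (Nat.card E : ℝ≥0∞) ≠ 0 := by
      exact_mod_cast (Nat.card_pos (α := E)).ne'
    rw [mul_left_comm] at h3
    exact (ENNReal.mul_le_mul_iff_right hc (ENNReal.natCast_ne_top _)).1 h3
  -- second step
  rw [ENNReal.tsum_eq_iSup_sum]
  refine iSup_le fun Y => ?_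
  set C : Set X := ⋃ y ∈ Y, {x | k x y ≠ 0} with hC
  have hCf : C.Finite := Y.finite_toSet.biUnion fun y _ => hcol y
  set s : Set G := ⋃ x ∈ C, (fun δ : Δ => (δ : G)) '' {δ : Δ | cut Δ (δ • x) ≠ 0} with hs
  have hsf : s.Finite := hCf.biUnion fun x _ => (cut_fin Δ hfin x).image _
  have hsΔ : s ⊆ Δ := by
    intro g hg
    simp only [hs, Set.mem_iUnion, Set.mem_image] at hg
    obtain ⟨x, _, δ, _, rfl⟩ := hg
    exact δ.2
  obtain ⟨E, hE, hEf, hsE⟩ := hlf s hsf hsΔ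
  have hone : ∀ x ∈ C, cE Δ E x = 1 := by
    intro x hx
    rw [← sum_cut Δ hfin x]
    unfold cE
    have hinj : Function.Injective (Subgroup.inclusion hE) := Subgroup.inclusion_injective hE
    rw [← hinj.tsum_eq (f := fun γ : Δ => cut Δ (γ • x))]
    · rfl
    · intro γ hγ
      rw [Function.mem_support] at hγ
      refine ⟨⟨γ, hsE ?_⟩, rfl⟩
      simp only [hs, Set.mem_iUnion, Set.mem_image]
      exact ⟨x, hx, γ, hγ, rfl⟩
  have heq : ∀ y ∈ Y, adj k (fun x => cE Δ E x * g x) y = adj k g y := by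
    intro y hy
    unfold adj
    refine tsum_congr fun x => ?_
    by_cases hx : k x y = 0
    · rw [hx, zero_mul, zero_mul]
    · have : x ∈ C := by
        simp only [hC, Set.mem_iUnion]
        exact ⟨y, hy, hx⟩
      show k x y * (cE Δ E x * g x) = _
      rw [hone x this, one_mul]
  calc ∑ y ∈ Y, cut Δ y * adj k g y ^ 2
      = ∑ y ∈ Y, cut Δ y * adj k (fun x => cE Δ E x * g x) y ^ 2 :=
        Finset.sum_congr rfl fun y hy => by rw [heq y hy]
    _ ≤ ∑' y, cut Δ y * adj k (fun x => cE Δ E x * g x) y ^ 2 := ENNReal.sum_le_tsum _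
    _ ≤ _ := step E hE hEf

theorem adjs_amen (Δ : Subgroup G) (hfin : ∀ x : X, Finite (MulAction.stabilizer Δ x))
    (hlf : LocFin Δ) (L : List ((X → X → ℝ≥0∞) × ℝ≥0∞))
    (hL : ∀ k ∈ L, (∀ γ : Δ, ∀ x y, k.1 (γ • x) (γ • y) = k.1 x y) ∧
      (∀ y, {x | k.1 x y ≠ 0}.Finite) ∧
      ∀ h : X → ℝ≥0∞, ∑' y, adj k.1 h y ^ 2 ≤ k.2 ^ 2 * ∑' x, h x ^ 2)
    (g : X → ℝ≥0∞) (hg : ∀ γ : Δ, ∀ x, g (γ • x) = g x) :
    ∑' y, cut Δ y * adjs (L.map Prod.fst) g y ^ 2 ≤
      (L.map Prod.snd).prod ^ 2 * ∑' x, cut Δ x * g x ^ 2 := by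
  induction L generalizing g with
  | nil => simp [adjs]
  | cons k L ih =>
    obtain ⟨h1, h2, h3⟩ := hL k List.mem_cons_self
    have h4 := ih (fun k' hk' => hL k' (List.mem_cons_of_mem _ hk')) (adj k.1 g)
      (fun γ x => adj_inv Δ k.1 h1 g hg γ x)
    have h5 := amen Δ hfin hlf k.1 h1 h2 k.2 h3 g hg
    calc _ ≤ (L.map Prod.snd).prod ^ 2 * ∑' x, cut Δ x * adj k.1 g x ^ 2 := h4
      _ ≤ (L.map Prod.snd).prod ^ 2 * (k.2 ^ 2 * ∑' x, cut Δ x * g x ^ 2) :=
        mul_le_mul' le_rfl h5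
      _ = _ := by
        rw [List.map_cons, List.prod_cons]
        ring

/-- A norm bound for an operator on `ℓ²` is a norm bound for its transpose. -/
theorem dual (k : X → X → ℝ≥0∞) (hkt : ∀ x y, k x y ≠ ⊤) (hcol : ∀ y, {x | k x y ≠ 0}.Finite)
    (N : ℝ≥0∞)
    (hN : ∀ h : X → ℝ≥0∞, (∀ y, h y ≠ ⊤) → {y | h y ≠ 0}.Finite →
      ∑' x, (∑' y, k x y * h y) ^ 2 ≤ N ^ 2 * ∑' y, h y ^ 2) (h : X → ℝ≥0∞) :
    ∑' y, adj k h y ^ 2 ≤ N ^ 2 * ∑' x, h x ^ 2 := by
  classical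
  by_cases hN0 : N = 0
  · have hk0 : ∀ x y, k x y = 0 := by
      intro x y
      have h1 := hN (fun z => if z = y then 1 else 0) (fun z => by
        show (if z = y then (1 : ℝ≥0∞) else 0) ≠ ⊤
        split_ifs <;> simp) ((Set.finite_singleton y).subset (by
          intro z hz
          by_contra hzy
          exact hz (if_neg hzy)))
      rw [hN0] at h1
      simp only [ne_eq, OfNat.ofNat_ne_zero, not_false_eq_true, zero_pow, zero_mul,
        nonpos_iff_eq_zero, ENNReal.tsum_eq_zero, pow_eq_zero_iff] at h1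
      have h2 := h1 x y
      simpa using h2
    have : ∀ y, adj k h y = 0 := by
      intro y
      unfold adj
      simp [hk0]
    simp [this]
  by_cases hH : ∑' x, h x ^ 2 = ⊤
  · rw [hH, ENNReal.mul_top (pow_ne_zero 2 hN0)]
    exact le_top
  have hht : ∀ x, h x ≠ ⊤ := by
    intro x hx
    apply hH
    rw [eq_top_iff, show (⊤ : ℝ≥0∞) = h x ^ 2 by rw [hx]; rfl]
    exact ENNReal.le_tsum x
  rw [ENNReal.tsum_eq_iSup_sum]
  refine iSup_le fun Y => ?_
  set t : X → ℝ≥0∞ := fun y => if y ∈ Y then adj k h y else 0 with ht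
  have hadj : ∀ y, adj k h y ≠ ⊤ := by
    intro y
    unfold adj
    rw [tsum_eq_sum (s := (hcol y).toFinset)]
    · refine ENNReal.sum_ne_top.2 fun x _ => ENNReal.mul_ne_top (hkt x y) (hht x)
    · intro x hx
      have : k x y = 0 := by simpa using hx
      rw [this, zero_mul]
  have htt : ∀ y, t y ≠ ⊤ := by
    intro y
    show (if y ∈ Y then adj k h y else 0) ≠ ⊤
    split_ifs
    · exact hadj y
    · exact ENNReal.zero_ne_top
  have htf : {y | t y ≠ 0}.Finite := by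
    refine Y.finite_toSet.subset ?_
    intro y hy
    by_contra hyY
    exact hy (if_neg hyY)
  have h1 := hN t htt htf
  set S := ∑' y, t y ^ 2 with hS
  have hSY : ∑ y ∈ Y, adj k h y ^ 2 = S := by
    rw [hS, tsum_eq_sum (s := Y)]
    · refine Finset.sum_congr rfl fun y hy => ?_
      show _ = (if y ∈ Y then adj k h y else 0) ^ 2
      rw [if_pos hy]
    · intro y hy
      show (if y ∈ Y then adj k h y else 0) ^ 2 = 0
      rw [if_neg hy]
      simp
  have hSt : S ≠ ⊤ := by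
    rw [← hSY]
    exact ENNReal.sum_ne_top.2 fun y _ => ENNReal.pow_ne_top (hadj y)
  rw [hSY]
  have hdual : S = ∑' x, (∑' y, k x y * t y) * h x := by
    calc S = ∑' y, t y * adj k h y := by
          rw [hS]
          refine tsum_congr fun y => ?_
          show (if y ∈ Y then adj k h y else 0) ^ 2 = (if y ∈ Y then adj k h y else 0) * adj k h y
          split_ifs
          · rw [sq]
          · simp
      _ = ∑' y, ∑' x, k x y * t y * h x := by
          refine tsum_congr fun y => ?_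
          unfold adj
          rw [← ENNReal.tsum_mul_left]
          refine tsum_congr fun x => ?_
          ring
      _ = ∑' x, ∑' y, k x y * t y * h x := ENNReal.tsum_comm
      _ = _ := by
          refine tsum_congr fun x => ?_
          rw [ENNReal.tsum_mul_right]
  have h2 := cs (fun _ : X => (1 : ℝ≥0∞)) (fun x => ∑' y, k x y * t y) h
  simp only [one_mul] at h2
  rw [← hdual] at h2
  have h3 : S * S ≤ S * (N ^ 2 * ∑' x, h x ^ 2) := by
    calc S * S = S ^ 2 := by ring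
      _ ≤ _ := h2
      _ ≤ (N ^ 2 * S) * ∑' x, h x ^ 2 := mul_le_mul' h1 le_rfl
      _ = _ := by ring
  by_cases hS0 : S = 0
  · rw [hS0]
    exact bot_le
  · exact (ENNReal.mul_le_mul_iff_right hS0 hSt).1 h3

/-- **The main inequality**, general form. -/
theorem main' (Γ Δ : Subgroup G) (hΔ : Δ ≤ Γ) (hfin : ∀ x : X, Finite (MulAction.stabilizer Γ x))
    (hfinΔ : ∀ x : X, Finite (MulAction.stabilizer Δ x)) (hlf : LocFin Δ)
    (L : List ((X → X → ℝ≥0∞) × ℝ≥0∞))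
    (hL : ∀ k ∈ L, (∀ γ : Δ, ∀ x y, k.1 (γ • x) (γ • y) = k.1 x y) ∧
      (∀ y, {x | k.1 x y ≠ 0}.Finite) ∧
      ∀ h : X → ℝ≥0∞, ∑' y, adj k.1 h y ^ 2 ≤ k.2 ^ 2 * ∑' x, h x ^ 2)
    (f : X → ℝ≥0∞) (hf : ∀ γ : Δ, ∀ x, f (γ • x) = f x)
    (sep : ∀ γ : G, γ ∈ Γ → ∀ x, adjs (L.map Prod.fst) (fun x => cut Δ x * f x) x ≠ 0 →
      adjs (L.map Prod.fst) (fun x => cut Δ x * f x) (γ • x) ≠ 0 → γ ∈ Δ)
    (Φ : X → ℝ≥0∞) (hΦ : ∀ γ : Γ, ∀ x, Φ (γ • x) = Φ x) :
    (∑' x, Φ x * adjs (L.map Prod.fst) (fun x => cut Δ x * f x) x) ^ 2 ≤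
      (∑' x, cut Γ x * Φ x ^ 2) * ((L.map Prod.snd).prod ^ 2 * ∑' x, cut Δ x * f x ^ 2) := by
  set h := adjs (L.map Prod.fst) (fun x => cut Δ x * f x) with hh
  refine (pairing Γ hfin Φ h hΦ).trans (mul_le_mul' le_rfl ?_)
  have h1 : ∀ x, h x * ∑' γ : Γ, h (γ • x) = h x * ∑' γ : Δ, h (γ • x) := by
    intro x
    by_cases hx : h x = 0
    · rw [hx, zero_mul, zero_mul]
    · congr 1
      have hinj : Function.Injective (Subgroup.inclusion hΔ) := Subgroup.inclusion_injective hΔ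
      rw [← hinj.tsum_eq (f := fun γ : Γ => h (γ • x))]
      · rfl
      · intro γ hγ
        rw [Function.mem_support] at hγ
        exact ⟨⟨γ, sep γ γ.2 x hx hγ⟩, rfl⟩
  rw [tsum_congr h1, energy Δ hfinΔ]
  have h2 : (fun y => ∑' γ : Δ, h (γ • y)) =
      adjs (L.map Prod.fst) (fun x => ∑' γ : Δ, (fun x => cut Δ x * f x) (γ • x)) := by
    rw [hh]
    refine adjs_trans Δ _ ?_ _
    intro k hk
    obtain ⟨p, hp, rfl⟩ := List.mem_map.1 hk
    exact (hL p hp).1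
  have h3 : (fun x => ∑' γ : Δ, (fun x => cut Δ x * f x) (γ • x)) = f := by
    funext x
    show ∑' γ : Δ, cut Δ (γ • x) * f (γ • x) = f x
    have : ∀ γ : Δ, cut Δ (γ • x) * f (γ • x) = cut Δ (γ • x) * f x := fun γ => by rw [hf]
    rw [tsum_congr this, ENNReal.tsum_mul_right, sum_cut Δ hfinΔ, one_mul]
  have h4 : ∀ x, (∑' γ : Δ, h (γ • x)) = adjs (L.map Prod.fst) f x := by
    intro x
    have := congrFun h2 x
    rw [h3] at this
    exact this
  calc ∑' x, cut Δ x * (∑' γ : Δ, h (γ • x)) ^ 2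
      = ∑' x, cut Δ x * adjs (L.map Prod.fst) f x ^ 2 := tsum_congr fun x => by rw [h4]
    _ ≤ _ := adjs_amen Δ hfinΔ hlf L hL f hf

end Pool.Agent.Helper78.DF
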