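import Pool.Agent.Helper78.DF.Amen

/-!
# Orthonormal systems of eigenfunctions on `Γ \ X`
-/

set_option autoImplicit false

open scoped ENNReal ComplexConjugate

noncomputable section

namespace Pool.Agent.Helper78.DF

variable {G : Type} [Group G] {X : Type} [MulAction G X]

/-- the operator with the kernel `κ` -/
def op (κ : X → X → ℝ) (F : X → ℂ) (x : X) : ℂ := ∑ᶠ y, (κ x y : ℂ) * F y

/-- the kernel in `[0, ∞]` -/
def ke (κ : X → X → ℝ) (x y : X) : ℝ≥0∞ := ENNReal.ofReal (κ x y)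

/-- nonnegative, with finite rows -/
structure IsKer (κ : X → X → ℝ) : Prop where
  nonneg : ∀ x y, 0 ≤ κ x y
  fin : ∀ x, {y | κ x y ≠ 0}.Finite

theorem op_eq {κ : X → X → ℝ} (hκ : IsKer κ) (F : X → ℂ) (x : X) :
    op κ F x = ∑ y ∈ (hκ.fin x).toFinset, (κ x y : ℂ) * F y := by
  unfold op
  refine finsum_eq_sum_of_support_subset _ ?_
  intro y hy
  rw [Function.mem_support] at hy
  have : κ x y ≠ 0 := by
    intro h
    rw [h] at hy
    simp at hy
  simpa using this

theorem op_enorm {κ : X → X → ℝ} (hκ : IsKer κ) (F : X → ℂ) (x : X) :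
    ‖op κ F x‖ₑ ≤ ∑' y, ke κ x y * ‖F y‖ₑ := by
  rw [op_eq hκ]
  calc ‖∑ y ∈ (hκ.fin x).toFinset, (κ x y : ℂ) * F y‖ₑ
      ≤ ∑ y ∈ (hκ.fin x).toFinset, ‖(κ x y : ℂ) * F y‖ₑ := enorm_sum_le _ _
    _ = ∑ y ∈ (hκ.fin x).toFinset, ke κ x y * ‖F y‖ₑ := by
        refine Finset.sum_congr rfl fun y _ => ?_
        rw [enorm_mul]
        congr 1
        unfold ke
        rw [← ofReal_norm, Complex.norm_real, Real.norm_of_nonneg (hκ.nonneg x y)]
    _ ≤ _ := ENNReal.sum_le_tsum _

theorem op_sum {κ : X → X → ℝ} (hκ : IsKer κ) {I : Type} (s : Finset I) (c : I → ℂ)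
    (F : I → X → ℂ) : op κ (fun x => ∑ i ∈ s, c i * F i x) = fun x => ∑ i ∈ s, c i * op κ (F i) x := by
  funext x
  rw [op_eq hκ]
  simp_rw [op_eq hκ, Finset.mul_sum]
  rw [Finset.sum_comm]
  refine Finset.sum_congr rfl fun i _ => Finset.sum_congr rfl fun y _ => ?_
  ring

theorem op_smul {κ : X → X → ℝ} (hκ : IsKer κ) (c : ℂ) (F : X → ℂ) :
    op κ (fun x => c * F x) = fun x => c * op κ F x := by
  have := op_sum hκ ({()} : Finset Unit) (fun _ => c) (fun _ => F)
  simpa using this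

/-- composition of operators -/
def ops (L : List (X → X → ℝ)) (F : X → ℂ) : X → ℂ := L.foldr op F

theorem ops_sum {I : Type} (s : Finset I) (c : I → ℂ) (F : I → X → ℂ) (L : List (X → X → ℝ))
    (hL : ∀ κ ∈ L, IsKer κ) :
    ops L (fun x => ∑ i ∈ s, c i * F i x) = fun x => ∑ i ∈ s, c i * ops L (F i) x := by
  induction L with
  | nil => rfl
  | cons κ L ih =>
    show op κ (ops L _) = fun x => ∑ i ∈ s, c i * op κ (ops L (F i)) x
    rw [ih (fun κ' h => hL κ' (List.mem_cons_of_mem _ h)), op_sum (hL κ List.mem_cons_self)]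

theorem ops_eigen {J : Type} (κ : J → X → X → ℝ) (F : X → ℂ) (lam : J → ℂ) (L : List J)
    (hL : ∀ j ∈ L, IsKer (κ j)) (h : ∀ j ∈ L, op (κ j) F = fun x => lam j * F x) :
    ops (L.map κ) F = fun x => (L.map lam).prod * F x := by
  induction L with
  | nil => funext x; simp [ops]
  | cons j L ih =>
    show op (κ j) (ops (L.map κ) F) = _
    rw [ih (fun j' hj => hL j' (List.mem_cons_of_mem _ hj))
      (fun j' hj => h j' (List.mem_cons_of_mem _ hj)), op_smul (hL j List.mem_cons_self),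
      h j List.mem_cons_self]
    funext x
    rw [List.map_cons, List.prod_cons]
    ring

theorem ops_pair (L : List (X → X → ℝ)) (hL : ∀ κ ∈ L, IsKer κ) (Φ : X → ℂ) (g : X → ℝ≥0∞) :
    ∑' x, ‖ops L Φ x‖ₑ * g x ≤ ∑' y, ‖Φ y‖ₑ * adjs (L.map ke) g y := by
  induction L generalizing g with
  | nil => exact le_rfl
  | cons κ L ih =>
    have h1 := ih (fun κ' h => hL κ' (List.mem_cons_of_mem _ h)) (adj (ke κ) g)
    refine le_trans ?_ h1
    calc ∑' x, ‖op κ (ops L Φ) x‖ₑ * g x
        ≤ ∑' x, (∑' y, ke κ x y * ‖ops L Φ y‖ₑ) * g x :=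
          ENNReal.tsum_le_tsum fun x =>
            mul_le_mul' (op_enorm (hL κ List.mem_cons_self) _ _) le_rfl
      _ = ∑' x, ∑' y, ke κ x y * ‖ops L Φ y‖ₑ * g x := by
          refine tsum_congr fun x => ?_
          rw [ENNReal.tsum_mul_right]
      _ = ∑' y, ∑' x, ke κ x y * ‖ops L Φ y‖ₑ * g x := ENNReal.tsum_comm
      _ = ∑' y, ‖ops L Φ y‖ₑ * adj (ke κ) g y := by
          refine tsum_congr fun y => ?_
          unfold adj
          rw [← ENNReal.tsum_mul_left]
          refine tsum_congr fun x => ?_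
          ring

section
variable (Γ : Subgroup G)

theorem card_inv_enn (n : ℕ) (hn : n ≠ 0) (r : ℝ) (hr : 0 ≤ r) :
    ((n : ℕ) : ℝ≥0∞)⁻¹ * ENNReal.ofReal r = ENNReal.ofReal (r / n) := by
  rw [div_eq_mul_inv, ENNReal.ofReal_mul hr, ENNReal.ofReal_inv_of_pos (by positivity),
    ENNReal.ofReal_natCast, mul_comm]

theorem nsq_enn (hfin : ∀ x : X, Finite (MulAction.stabilizer Γ x)) (F : X → ℂ)
    (hF : Summable fun o : Orb Γ X => ‖F (Quotient.out o)‖ ^ 2 /
      (sc Γ (Quotient.out o) : ℝ)) :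
    ∑' x, cut Γ x * ‖F x‖ₑ ^ 2 = ENNReal.ofReal (nsq Γ F) := by
  rw [tsum_cut, nsq, ENNReal.ofReal_tsum_of_nonneg (fun o => by positivity) hF]
  refine tsum_congr fun o => ?_
  have := hfin (Quotient.out o)
  have hc : sc Γ (Quotient.out o) ≠ 0 := Nat.card_pos.ne'
  rw [← card_inv_enn _ hc _ (by positivity), ENNReal.ofReal_pow (norm_nonneg _),
    ofReal_norm]

theorem summ_mul {F H : X → ℂ}
    (hF : Summable fun o : Orb Γ X => ‖F (Quotient.out o)‖ ^ 2 /
      (sc Γ (Quotient.out o) : ℝ))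
    (hH : Summable fun o : Orb Γ X => ‖H (Quotient.out o)‖ ^ 2 /
      (sc Γ (Quotient.out o) : ℝ)) :
    Summable fun o : Orb Γ X => F (Quotient.out o) *
      conj (H (Quotient.out o)) / (sc Γ (Quotient.out o) : ℂ) := by
  refine Summable.of_norm_bounded (hF.add hH) fun o => ?_
  rw [norm_div, norm_mul, RCLike.norm_conj, Complex.norm_natCast, ← add_div]
  refine div_le_div_of_nonneg_right ?_ (Nat.cast_nonneg _)
  nlinarith [sq_nonneg (‖F (Quotient.out o)‖ - ‖H (Quotient.out o)‖),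
    sq_nonneg ‖F (Quotient.out o)‖, sq_nonneg ‖H (Quotient.out o)‖,
    norm_nonneg (F (Quotient.out o)), norm_nonneg (H (Quotient.out o))]

theorem comb {I : Type} [Fintype I] {F : I → X → ℂ} (hF : IsONF Γ F) (z : I → ℂ) :
    (Summable fun o : Orb Γ X => ‖∑ i, z i * F i (Quotient.out o)‖ ^ 2 /
      (sc Γ (Quotient.out o) : ℝ)) ∧
    nsq Γ (fun x => ∑ i, z i * F i x) = ∑ i, ‖z i‖ ^ 2 := by
  classical
  have hs : ∀ i j, Summable fun o : Orb Γ X => z i * conj (z j) *
      (F i (Quotient.out o) * conj (F j (Quotient.out o)) /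
        (sc Γ (Quotient.out o) : ℂ)) := fun i j =>
    (summ_mul Γ (hF.sq i) (hF.sq j)).mul_left _
  have hterm : ∀ o : Orb Γ X,
      (((‖∑ i, z i * F i (Quotient.out o)‖ ^ 2 /
        (sc Γ (Quotient.out o) : ℝ) : ℝ)) : ℂ) =
      ∑ i, ∑ j, z i * conj (z j) * (F i (Quotient.out o) * conj (F j (Quotient.out o)) /
        (sc Γ (Quotient.out o) : ℂ)) := by
    intro o
    push_cast
    rw [← Complex.mul_conj', map_sum, Finset.sum_mul_sum, Finset.sum_div]
    refine Finset.sum_congr rfl fun i _ => ?_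
    rw [Finset.sum_div]
    refine Finset.sum_congr rfl fun j _ => ?_
    rw [map_mul]
    ring
  have hsum : Summable fun o : Orb Γ X =>
      (((‖∑ i, z i * F i (Quotient.out o)‖ ^ 2 /
        (sc Γ (Quotient.out o) : ℝ) : ℝ)) : ℂ) := by
    simp_rw [hterm]
    exact summable_sum fun i _ => summable_sum fun j _ => hs i j
  refine ⟨by exact_mod_cast hsum, ?_⟩
  have hR : ((nsq Γ (fun x => ∑ i, z i * F i x) : ℝ) : ℂ) = ((∑ i, ‖z i‖ ^ 2 : ℝ) : ℂ) := by
    unfold nsq
    rw [Complex.ofReal_tsum]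
    simp_rw [hterm]
    rw [Summable.tsum_finsetSum (fun i _ => summable_sum fun j _ => hs i j)]
    push_cast
    refine Finset.sum_congr rfl fun i _ => ?_
    rw [Summable.tsum_finsetSum (fun j _ => hs i j)]
    rw [Finset.sum_eq_single i]
    · rw [tsum_mul_left]
      have := hF.one i
      unfold ip at this
      rw [this, mul_one, Complex.mul_conj']
    · intro j _ hj
      rw [tsum_mul_left]
      have := hF.zero i j (Ne.symm hj)
      unfold ip at this
      rw [this, mul_zero]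
    · intro h
      exact absurd (Finset.mem_univ i) h
  exact_mod_cast hR

end


/-- `N` is a bound for the norm of the operator with the kernel `κ` on `ℓ²(X)` -/
def NormBd (κ : X → X → ℝ) (N : ℝ) : Prop :=
  0 ≤ N ∧ ∀ h : X → ℂ, {y | h y ≠ 0}.Finite → ∑' x, ‖op κ h x‖ ^ 2 ≤ N ^ 2 * ∑' y, ‖h y‖ ^ 2

omit [Group G] [MulAction G X] in
theorem norm_enn {κ : X → X → ℝ} (hκ : IsKer κ) (hcol : ∀ y, {x | κ x y ≠ 0}.Finite) {N : ℝ}
    (hN : NormBd κ N) (h : X → ℝ≥0∞) (ht : ∀ y, h y ≠ ⊤) (hf : {y | h y ≠ 0}.Finite) :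
    ∑' x, (∑' y, ke κ x y * h y) ^ 2 ≤ ENNReal.ofReal N ^ 2 * ∑' y, h y ^ 2 := by
  classical
  set h' : X → ℂ := fun y => (((h y).toReal : ℝ) : ℂ) with hh'
  have hnorm : ∀ y, ‖h' y‖ = (h y).toReal := fun y => by
    rw [hh']
    simp only [Complex.norm_real]
    exact Real.norm_of_nonneg ENNReal.toReal_nonneg
  have hf' : {y | h' y ≠ 0}.Finite := by
    refine hf.subset ?_
    intro y hy hy0
    apply hy
    rw [hh']
    simp only [hy0, ENNReal.toReal_zero, Complex.ofReal_zero]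
  have hop : ∀ x, ENNReal.ofReal ‖op κ h' x‖ = ∑' y, ke κ x y * h y := by
    intro x
    have e1 : op κ h' x = ((∑ y ∈ (hκ.fin x).toFinset, κ x y * (h y).toReal : ℝ) : ℂ) := by
      rw [op_eq hκ]
      push_cast
      rfl
    have e2 : 0 ≤ ∑ y ∈ (hκ.fin x).toFinset, κ x y * (h y).toReal :=
      Finset.sum_nonneg fun y _ => mul_nonneg (hκ.nonneg x y) ENNReal.toReal_nonneg
    rw [e1, Complex.norm_real, Real.norm_of_nonneg e2,
      ENNReal.ofReal_sum_of_nonneg (fun y _ => mul_nonneg (hκ.nonneg x y) ENNReal.toReal_nonneg),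
      tsum_eq_sum (s := (hκ.fin x).toFinset)]
    · refine Finset.sum_congr rfl fun y _ => ?_
      rw [ENNReal.ofReal_mul (hκ.nonneg x y), ENNReal.ofReal_toReal (ht y)]
      rfl
    · intro y hy
      have : κ x y = 0 := by simpa using hy
      rw [ke, this]
      simp
  have hsupp : (Function.support fun x => ‖op κ h' x‖ ^ 2).Finite := by
    refine (hf'.biUnion fun y _ => hcol y).subset ?_
    intro x hx
    rw [Function.mem_support] at hx
    by_contra hcon
    apply hx
    have : op κ h' x = 0 := by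
      rw [op_eq hκ]
      refine Finset.sum_eq_zero fun y _ => ?_
      by_cases hy : h' y = 0
      · rw [hy, mul_zero]
      · have : κ x y = 0 := by
          by_contra hk
          apply hcon
          simp only [Set.mem_iUnion]
          exact ⟨y, hy, hk⟩
        rw [this]
        simp
    rw [this]
    simp
  have hsupp' : (Function.support fun y => ‖h' y‖ ^ 2).Finite := by
    refine hf'.subset ?_
    intro y hy
    rw [Function.mem_support] at hy
    intro h0
    apply hy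
    rw [h0]
    simp
  have key := ENNReal.ofReal_le_ofReal (hN.2 h' hf')
  rw [ENNReal.ofReal_tsum_of_nonneg (fun x => by positivity)
      (summable_of_hasFiniteSupport hsupp), ENNReal.ofReal_mul (by positivity),
    ENNReal.ofReal_tsum_of_nonneg (fun x => by positivity)
      (summable_of_hasFiniteSupport hsupp'), ENNReal.ofReal_pow hN.1] at key
  calc ∑' x, (∑' y, ke κ x y * h y) ^ 2 = ∑' x, ENNReal.ofReal (‖op κ h' x‖ ^ 2) := by
        refine tsum_congr fun x => ?_
        rw [ENNReal.ofReal_pow (norm_nonneg _), hop]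
    _ ≤ _ := key
    _ = _ := by
        congr 1
        refine tsum_congr fun y => ?_
        rw [ENNReal.ofReal_pow (norm_nonneg _), hnorm, ENNReal.ofReal_toReal (ht y)]

omit [Group G] [MulAction G X] in
theorem norm_adj {κ : X → X → ℝ} (hκ : IsKer κ) (hcol : ∀ y, {x | κ x y ≠ 0}.Finite) {N : ℝ}
    (hN : NormBd κ N) (h : X → ℝ≥0∞) :
    ∑' y, adj (ke κ) h y ^ 2 ≤ ENNReal.ofReal N ^ 2 * ∑' x, h x ^ 2 := by
  refine dual (ke κ) (fun x y => ENNReal.ofReal_ne_top) ?_ _ (norm_enn hκ hcol hN) h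
  intro y
  refine (hcol y).subset ?_
  intro x hx h0
  apply hx
  show ENNReal.ofReal (κ x y) = 0
  rw [h0]
  simp

/-- **Bessel's inequality with operators.** -/
theorem bessel (Γ Δ : Subgroup G) (hΔ : Δ ≤ Γ) (hfin : ∀ x : X, Finite (MulAction.stabilizer Γ x))
    (hfinΔ : ∀ x : X, Finite (MulAction.stabilizer Δ x)) (hlf : LocFin Δ)
    {J : Type} (κ : J → X → X → ℝ) (N : J → ℝ) (L : List J)
    (hκ : ∀ j ∈ L, IsKer (κ j))
    (hL : ∀ j ∈ L, (∀ γ ∈ Δ, ∀ x y, κ j (γ • x) (γ • y) = κ j x y) ∧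
      (∀ y, {x | κ j x y ≠ 0}.Finite) ∧ NormBd (κ j) (N j))
    {I : Type} [Fintype I] (F : I → X → ℂ) (hF : IsONF Γ F) (lam : I → J → ℂ)
    (hlam : ∀ i, ∀ j ∈ L, op (κ j) (F i) = fun x => lam i j * F i x)
    (f : X → ℂ) (hf : ∀ γ ∈ Δ, ∀ x, f (γ • x) = f x)
    (hff : {o : Orb Δ X | f (Quotient.out o) ≠ 0}.Finite)
    (sep : ∀ γ ∈ Γ, ∀ x, adjs ((L.map κ).map ke) (fun x => cut Δ x * ‖f x‖ₑ) x ≠ 0 →
      adjs ((L.map κ).map ke) (fun x => cut Δ x * ‖f x‖ₑ) (γ • x) ≠ 0 → γ ∈ Δ) :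
    ∑ i, ‖(L.map (lam i)).prod‖ ^ 2 * ‖ip Δ (F i) f‖ ^ 2 ≤ (L.map N).prod ^ 2 * nsq Δ f := by
  classical
  set P : I → ℂ := fun i => (L.map (lam i)).prod with hP
  set a : I → ℂ := fun i => ip Δ (F i) f with ha
  set z : I → ℂ := fun i => conj (P i * a i) with hz
  set S : ℝ := ∑ i, ‖P i‖ ^ 2 * ‖a i‖ ^ 2 with hS
  have hSz : S = ∑ i, ‖z i‖ ^ 2 := by
    rw [hS]
    refine Finset.sum_congr rfl fun i _ => ?_
    rw [hz]
    simp only [RCLike.norm_conj, norm_mul]
    ring
  set Φ : X → ℂ := fun x => ∑ i, z i * F i x with hΦ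
  have hkerL : ∀ κ' ∈ L.map κ, IsKer κ' := by
    intro κ' h
    obtain ⟨j, hj, rfl⟩ := List.mem_map.1 h
    exact hκ j hj
  -- the operators
  have hops : ops (L.map κ) Φ = fun x => ∑ i, z i * (P i * F i x) := by
    rw [hΦ, ops_sum _ _ _ _ hkerL]
    funext x
    refine Finset.sum_congr rfl fun i _ => ?_
    rw [ops_eigen κ (F i) (lam i) L hκ (hlam i)]
  -- summability for finite support
  have hfs : ∀ H : X → ℂ, Summable fun o : Orb Δ X =>
      H (Quotient.out o) * conj (f (Quotient.out o)) /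
        (sc Δ (Quotient.out o) : ℂ) := by
    intro H
    refine summable_of_hasFiniteSupport (hff.subset ?_)
    intro o ho
    rw [Function.mem_support] at ho
    intro h
    apply ho
    rw [h]
    simp
  have hSip : (S : ℂ) = ip Δ (ops (L.map κ) Φ) f := by
    unfold ip
    rw [hops]
    have : ∀ o : Orb Δ X,
        (∑ i, z i * (P i * F i (Quotient.out o))) * conj (f (Quotient.out o)) /
          (sc Δ (Quotient.out o) : ℂ) =
        ∑ i, z i * P i * (F i (Quotient.out o) * conj (f (Quotient.out o)) /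
          (sc Δ (Quotient.out o) : ℂ)) := by
      intro o
      rw [Finset.sum_mul, Finset.sum_div]
      refine Finset.sum_congr rfl fun i _ => ?_
      ring
    simp_rw [this]
    rw [Summable.tsum_finsetSum (fun i _ => (hfs (F i)).mul_left _), hS]
    push_cast
    refine Finset.sum_congr rfl fun i _ => ?_
    rw [tsum_mul_left]
    have h1 : ∑' o : Orb Δ X, F i (Quotient.out o) *
        conj (f (Quotient.out o)) / (sc Δ (Quotient.out o) : ℂ) =
        a i := rfl
    rw [h1, hz, ← Complex.mul_conj', ← Complex.mul_conj']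
    simp only [map_mul]
    ring
  have hS0 : 0 ≤ S := by
    rw [hS]
    exact Finset.sum_nonneg fun i _ => by positivity
  -- upper bound in ENNReal
  have hU : ENNReal.ofReal S ≤ ∑' x, ‖Φ x‖ₑ *
      adjs ((L.map κ).map ke) (fun x => cut Δ x * ‖f x‖ₑ) x := by
    refine le_trans ?_ (ops_pair (L.map κ) hkerL Φ (fun x => cut Δ x * ‖f x‖ₑ))
    have e1 : ∑' x, ‖ops (L.map κ) Φ x‖ₑ * (cut Δ x * ‖f x‖ₑ) =
        ∑' x, cut Δ x * (‖ops (L.map κ) Φ x‖ₑ * ‖f x‖ₑ) :=
      tsum_congr fun x => by ring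
    rw [e1, tsum_cut]
    have e2 : ENNReal.ofReal S = ‖(S : ℂ)‖ₑ := by
      rw [← ofReal_norm, Complex.norm_real, Real.norm_of_nonneg hS0]
    rw [e2, hSip]
    unfold ip
    refine (enorm_tsum_le_tsum_enorm).trans (ENNReal.tsum_le_tsum fun o => ?_)
    have := hfinΔ (Quotient.out o)
    have hc : sc Δ (Quotient.out o) ≠ 0 := Nat.card_pos.ne'
    rw [← ofReal_norm, norm_div, norm_mul, RCLike.norm_conj, Complex.norm_natCast,
      ← card_inv_enn _ hc _ (by positivity), ENNReal.ofReal_mul (norm_nonneg _), ofReal_norm,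
      ofReal_norm]
  have hmain := main' Γ Δ hΔ hfin hfinΔ hlf (L.map fun j => (ke (κ j), ENNReal.ofReal (N j)))
    (by
      intro k hk
      obtain ⟨j, hj, rfl⟩ := List.mem_map.1 hk
      obtain ⟨h1, h2, h3⟩ := hL j hj
      refine ⟨fun γ x y => ?_, fun y => ?_, norm_adj (hκ j hj) h2 h3⟩
      · show ENNReal.ofReal (κ j ((γ : G) • x) ((γ : G) • y)) = ENNReal.ofReal (κ j x y)
        rw [h1 γ γ.2]
      · refine (h2 y).subset ?_
        intro x hx h0
        apply hx
        show ENNReal.ofReal (κ j x y) = 0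
        rw [h0]
        simp)
    (fun x => ‖f x‖ₑ) (fun γ x => by
      show ‖f ((γ : G) • x)‖ₑ = _
      rw [hf γ γ.2 x])
    (by
      have e : List.map Prod.fst (L.map fun j => (ke (κ j), ENNReal.ofReal (N j))) =
          (L.map κ).map ke := by
        rw [List.map_map, List.map_map]
        rfl
      rw [e]
      exact sep)
    (fun x => ‖Φ x‖ₑ) (fun γ x => by
      show ‖Φ ((γ : G) • x)‖ₑ = ‖Φ x‖ₑ
      rw [hΦ]
      simp only
      congr 1
      exact Finset.sum_congr rfl fun i _ => by rw [hF.inv i γ γ.2 x])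
  have e : List.map Prod.fst (L.map fun j => (ke (κ j), ENNReal.ofReal (N j))) =
      (L.map κ).map ke := by
    rw [List.map_map, List.map_map]
    rfl
  rw [e] at hmain
  obtain ⟨hc1, hc2⟩ := comb Γ hF z
  have hΦn : ∑' x, cut Γ x * ‖Φ x‖ₑ ^ 2 = ENNReal.ofReal S := by
    rw [nsq_enn Γ hfin Φ hc1, hSz]
    congr 1
  have hfn : ∑' x, cut Δ x * ‖f x‖ₑ ^ 2 = ENNReal.ofReal (nsq Δ f) := by
    refine nsq_enn Δ hfinΔ f (summable_of_hasFiniteSupport (hff.subset ?_))
    intro o ho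
    rw [Function.mem_support] at ho
    intro h
    apply ho
    rw [h]
    simp
  have hNp : (List.map Prod.snd (L.map fun j => (ke (κ j), ENNReal.ofReal (N j)))).prod =
      ENNReal.ofReal (L.map N).prod ∧ 0 ≤ (L.map N).prod := by
    clear hmain e sep hlam hκ hU hSip hops hkerL hP ha hz hS
    clear_value P a z S
    induction L with
    | nil => simp
    | cons j L ih =>
      obtain ⟨h1, h2⟩ := ih (fun j' h => hL j' (List.mem_cons_of_mem _ h))
      have hj := (hL j List.mem_cons_self).2.2.1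
      constructor
      · simp only [List.map_cons, List.prod_cons]
        rw [h1, ENNReal.ofReal_mul hj]
      · rw [List.map_cons, List.prod_cons]
        positivity
  have hfnn : 0 ≤ nsq Δ f := tsum_nonneg fun o => by positivity
  rw [hΦn, hfn, hNp.1] at hmain
  have hfinal : ENNReal.ofReal S ^ 2 ≤ ENNReal.ofReal S *
      (ENNReal.ofReal (L.map N).prod ^ 2 * ENNReal.ofReal (nsq Δ f)) :=
    le_trans (pow_le_pow_left' hU 2) hmain
  rw [← ENNReal.ofReal_pow hS0, ← ENNReal.ofReal_pow hNp.2, ← ENNReal.ofReal_mul (by positivity),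
    ← ENNReal.ofReal_mul hS0, ENNReal.ofReal_le_ofReal_iff (by
      have := hNp.2
      positivity)] at hfinal
  rcases hS0.eq_or_lt with h0 | h0
  · rw [← h0]
    have := hNp.2
    positivity
  · have : S * S ≤ S * ((L.map N).prod ^ 2 * nsq Δ f) := by
      calc S * S = S ^ 2 := by ring
        _ ≤ _ := hfinal
    exact le_of_mul_le_mul_left this h0

end Pool.Agent.Helper78.DF
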