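import Mathlib

/-!
# The definitions used by the two density theorems

`G` is a group with a homomorphism `ρ` to the product of the groups `GL_n(k_v)`, `v ∈ ι`, `K` is a
subgroup of `G`, and `Γ` is a subgroup of `G` which acts on `G / K` from the left.
-/

set_option autoImplicit false

open scoped ComplexConjugate

noncomputable section

namespace Pool.Agent.Helper78.DF

/-! ### Functions on `Γ \ X` -/

section
variable {G : Type} [Group G] {X : Type} [MulAction G X]

/-- The set of the orbits of `Γ` in `X`. -/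
abbrev Orb (Γ : Subgroup G) (X : Type) [MulAction G X] : Type := MulAction.orbitRel.Quotient Γ X

/-- The number of elements of the stabilizer of `x` in `Γ`. -/
def sc (Γ : Subgroup G) (x : X) : ℕ := Nat.card (MulAction.stabilizer Γ x)

/-- The inner product of two `Γ`-invariant functions: the sum over the orbits of `Γ`, with the
weights `1 / |Γ_x|`. -/
def ip (Γ : Subgroup G) (F H : X → ℂ) : ℂ :=
  ∑' o : Orb Γ X, F (Quotient.out o) * conj (H (Quotient.out o)) / (sc Γ (Quotient.out o) : ℂ)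

/-- The square of the norm of a `Γ`-invariant function. -/
def nsq (Γ : Subgroup G) (F : X → ℂ) : ℝ :=
  ∑' o : Orb Γ X, ‖F (Quotient.out o)‖ ^ 2 / (sc Γ (Quotient.out o) : ℝ)

/-- The functions `F_i` are `Γ`-invariant, square summable modulo `Γ` and orthonormal. -/
structure IsONF {I : Type} (Γ : Subgroup G) (F : I → X → ℂ) : Prop where
  inv : ∀ i, ∀ γ ∈ Γ, ∀ x, F i (γ • x) = F i x
  sq : ∀ i, Summable fun o : Orb Γ X => ‖F i (Quotient.out o)‖ ^ 2 / (sc Γ (Quotient.out o) : ℝ)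
  one : ∀ i, ip Γ (F i) (F i) = 1
  zero : ∀ i j, i ≠ j → ip Γ (F i) (F j) = 0

/-- The mass of `F` on the set `S`: the sum of `|F|² / |Γ_x|` over the orbits of `Γ` in `S`. -/
def massOn (Γ : Subgroup G) (S : Set X) (F : X → ℂ) : ℝ :=
  ∑' o : Orb Γ X, S.indicator (fun x => ‖F x‖ ^ 2 / (sc Γ x : ℝ)) (Quotient.out o)

/-- The set `Γ₁ D`. -/
def sat (Γ₁ : Subgroup G) (D : Finset X) : Set X := {x | ∃ γ ∈ Γ₁, γ • x ∈ D}

end

/-! ### Hecke operators on functions on `G / K` -/

section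
variable {G : Type} [Group G]

/-- The Hecke operator attached to `φ`: `(T F)(g K)` is the sum of `φ(g⁻¹ h) F(h K)` over the cosets
`h K`. -/
def hecke (K : Subgroup G) (φ : G → ℝ) (F : G ⧸ K → ℂ) (x : G ⧸ K) : ℂ :=
  ∑ᶠ y : G ⧸ K, (φ (x.out⁻¹ * y.out) : ℂ) * F y

/-- `φ` is a nonnegative `K`-biinvariant function whose support is a finite union of left cosets and
a finite union of right cosets of `K`. -/
structure IsHecke (K : Subgroup G) (φ : G → ℝ) : Prop where
  nonneg : ∀ g, 0 ≤ φ g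
  left : ∀ κ ∈ K, ∀ g, φ (κ * g) = φ g
  right : ∀ κ ∈ K, ∀ g, φ (g * κ) = φ g
  fin : {y : G ⧸ K | φ y.out ≠ 0}.Finite
  fin' : {y : G ⧸ K | φ (y.out)⁻¹ ≠ 0}.Finite

/-- The norm of the Hecke operator attached to `φ` on `ℓ²(G / K)`: the least `N ≥ 0` with
`‖T h‖ ≤ N ‖h‖` for all functions `h` of finite support on `G / K`. -/
def hnorm (K : Subgroup G) (φ : G → ℝ) : ℝ :=
  sInf {N : ℝ | 0 ≤ N ∧ ∀ h : G ⧸ K → ℂ, {y | h y ≠ 0}.Finite →
    ∑' x, ‖hecke K φ h x‖ ^ 2 ≤ N ^ 2 * ∑' y, ‖h y‖ ^ 2}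

end

/-! ### Matrices -/

section
variable {n : ℕ} {ι : Type} {k : ι → Type} [∀ v, NormedField (k v)]

/-- The product over `v` of the groups `GL_n(k_v)`. -/
def GLS (n : ℕ) {ι : Type} (k : ι → Type) [∀ v, NormedField (k v)] : Type :=
  ∀ v, Matrix.GeneralLinearGroup (Fin n) (k v)

/-- The group structure of the product. -/
instance GLS.group (n : ℕ) {ι : Type} (k : ι → Type) [∀ v, NormedField (k v)] : Group (GLS n k) :=
  Pi.group

/-- All entries of the component at `v` have absolute value at most `B v`. -/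
def Bdd (g : GLS n k) (B : ι → ℝ) : Prop := ∀ v i j, ‖(g v).1 i j‖ ≤ B v

/-- Upper triangular with ones on the diagonal. -/
def Upper (u : GLS n k) : Prop :=
  ∀ v i j, (j < i → (u v).1 i j = 0) ∧ (u v).1 i i = 1

/-- Diagonal, and the absolute values (products over `v`) do not increase along the diagonal. -/
def Dominant [Fintype ι] (a : GLS n k) : Prop :=
  (∀ v i j, i ≠ j → (a v).1 i j = 0) ∧
    ∀ i j, j ≤ i → ∏ v, ‖(a v).1 i i‖ ≤ ∏ v, ‖(a v).1 j j‖

end

/-! ### Arithmetic -/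

section
variable {A : Type} [CommRing A] {ι : Type} {k : ι → Type} [∀ v, NormedField (k v)] {n : ℕ}

/-- `A` is a ring of `S`-integers of the fields `k_v`, `v ∈ S`: the product of the absolute values
of `a ≠ 0` is the number of elements of `A / (a)`, and `A` is discrete in the product of the
`k_v`. -/
structure IsSInt [Fintype ι] (emb : ∀ v, A →+* k v) : Prop where
  prod : ∀ a : A, a ≠ 0 → Finite (A ⧸ Ideal.span {a}) ∧
    ∏ v, ‖emb v a‖ = Nat.card (A ⧸ Ideal.span {a})
  disc : ∀ B : ℝ, {a : A | ∀ v, ‖emb v a‖ ≤ B}.Finite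

/-- The map from `GL_n(A)` to the product of the `GL_n(k_v)`. -/
def toS (n : ℕ) (emb : ∀ v, A →+* k v) : Matrix.GeneralLinearGroup (Fin n) A →* GLS n k :=
  MonoidHom.pi fun v => Matrix.GeneralLinearGroup.map (emb v)

/-- The principal congruence subgroup of level `𝔫` of `G`: the elements whose image under `ρ` comes
from a matrix in `GL_n(A)` congruent to `1` modulo `𝔫`. -/
def prin {G : Type} [Group G] (ρ : G →* GLS n k) (emb : ∀ v, A →+* k v) (𝔫 : Ideal A) :
    Subgroup G :=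
  Subgroup.comap ρ (Subgroup.map (toS n emb)
    (MonoidHom.ker (Matrix.GeneralLinearGroup.map (n := Fin n) (Ideal.Quotient.mk 𝔫))))

/-- `d` is a common denominator of the products of an entry of `c⁻¹` and an entry of `c`. -/
def HasDen (emb : ∀ v, A →+* k v) (c : GLS n k) (d : A) : Prop :=
  d ≠ 0 ∧ ∀ i j l m, ∃ a : A, ∀ v, emb v d * ((c⁻¹ v).1 i j * (c v).1 l m) = emb v a

end

/-! ### Siegel sets, systems of eigenfunctions and test functions -/

section
variable {G : Type} [Group G] {ι : Type} {k : ι → Type} [∀ v, NormedField (k v)] {n : ℕ}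

/-- The points `g K` with `ρ(g) = c u a b`, where `u` is upper triangular with ones on the diagonal
and the entries of `b`, `b⁻¹` are bounded by `h`, `h'`. -/
def Reg (ρ : G →* GLS n k) (K : Subgroup G) (c a : GLS n k) (h h' : ι → ℝ) : Set (G ⧸ K) :=
  {x | ∃ g : G, (QuotientGroup.mk g : G ⧸ K) = x ∧ ∃ u b : GLS n k, Upper u ∧ Bdd b h ∧
    Bdd b⁻¹ h' ∧ ρ g = c * u * a * b}

/-- The entries of the elements of the support of `φ` are bounded by `Q`, those of their inverses by
`Q'`. -/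
structure SizeBd (ρ : G →* GLS n k) (φ : G → ℝ) (Q Q' : ι → ℝ) : Prop where
  pos : ∀ v, 0 < Q v ∧ 0 < Q' v ∧ 1 ≤ Q v * Q' v
  bdd : ∀ g : G, φ g ≠ 0 → Bdd (ρ g) Q ∧ Bdd (ρ g)⁻¹ Q'

/-- `F_i`, `i ∈ I`, are orthonormal in `L²(Γ \ G / K)` and eigenfunctions of the Hecke operators
attached to `φ_j`, `j ∈ J`, with the eigenvalues `lam i j`. -/
structure IsEigenSys (ρ : G →* GLS n k) (K Γ : Subgroup G) {I J : Type} (φ : J → G → ℝ)
    (Q Q' : J → ι → ℝ) (F : I → G ⧸ K → ℂ) (lam : I → J → ℂ) : Prop where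
  isHecke : ∀ j, IsHecke K (φ j)
  size : ∀ j, SizeBd ρ (φ j) (Q j) (Q' j)
  onf : IsONF Γ F
  eig : ∀ i j x, hecke K (φ j) (F i) x = lam i j * F i x

/-- `f` is invariant under `Δ`, with finite support modulo `Δ`, and vanishes outside
`Reg ρ K c a h h'`. -/
structure IsTest (ρ : G →* GLS n k) (K Δ : Subgroup G) (c a : GLS n k) (h h' : ι → ℝ)
    (f : G ⧸ K → ℂ) : Prop where
  inv : ∀ γ ∈ Δ, ∀ x, f (γ • x) = f x
  fin : {o : Orb Δ (G ⧸ K) | f (Quotient.out o) ≠ 0}.Finite
  supp : ∀ x, f x ≠ 0 → x ∈ Reg ρ K c a h h'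

end

end Pool.Agent.Helper78.DF
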