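import Pool.Agent.Helper78.DF.Arith

/-!
# The polynomial ring over a finite field
-/

set_option autoImplicit false

open Polynomial

noncomputable section

namespace Pool.Agent.Helper78.DF

/-- The absolute value `q ^ deg` on the field of rational functions over a finite field. -/
def infAbs (F : Type) [Field F] [Fintype F] : AbsoluteValue (RatFunc F) ℝ := by
  classical
  exact
  { toFun := fun f => if f = 0 then 0 else (Fintype.card F : ℝ) ^ f.intDegree
    map_mul' := by
      intro f g
      have hq : (Fintype.card F : ℝ) ≠ 0 := by exact_mod_cast Fintype.card_ne_zero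
      by_cases hf : f = 0
      · simp [hf]
      by_cases hg : g = 0
      · simp [hg]
      simp only [hf, hg, mul_ne_zero hf hg, if_false]
      rw [RatFunc.intDegree_mul hf hg, zpow_add₀ hq]
    nonneg' := by
      intro f
      show (0 : ℝ) ≤ if f = 0 then 0 else _
      split_ifs
      · exact le_rfl
      · positivity
    eq_zero' := by
      intro f
      have hq : (Fintype.card F : ℝ) ≠ 0 := by exact_mod_cast Fintype.card_ne_zero
      show (if f = 0 then (0 : ℝ) else _) = 0 ↔ f = 0
      split_ifs with h
      · simp [h]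
      · simp [h, zpow_ne_zero _ hq]
    add_le' := by
      intro f g
      have hq : (1 : ℝ) ≤ (Fintype.card F : ℝ) := by exact_mod_cast Fintype.card_pos
      by_cases hf : f = 0
      · simp [hf]
      by_cases hg : g = 0
      · simp [hg]
      by_cases hfg : f + g = 0
      · simp only [hfg, if_true, hf, hg, if_false]
        positivity
      · simp only [hf, hg, hfg, if_false]
        have h1 := RatFunc.intDegree_add_le hg hfg
        rcases le_max_iff.1 h1 with h | h
        · exact (zpow_le_zpow_right₀ hq h).trans (le_add_of_nonneg_right (by positivity))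
        · exact (zpow_le_zpow_right₀ hq h).trans (le_add_of_nonneg_left (by positivity)) }

theorem infAbs_apply (F : Type) [Field F] [Fintype F] {f : RatFunc F} (hf : f ≠ 0) :
    infAbs F f = (Fintype.card F : ℝ) ^ f.intDegree := by
  unfold infAbs
  simp [hf]

theorem infAbs_add (F : Type) [Field F] [Fintype F] (f g : RatFunc F) :
    infAbs F (f + g) ≤ max (infAbs F f) (infAbs F g) := by
  have hq : (1 : ℝ) ≤ (Fintype.card F : ℝ) := by exact_mod_cast Fintype.card_pos
  by_cases hf : f = 0
  · simp [hf]
  by_cases hg : g = 0
  · simp [hg]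
  by_cases hfg : f + g = 0
  · rw [hfg, map_zero]
    exact le_max_of_le_left (AbsoluteValue.nonneg _ _)
  · rw [infAbs_apply F hf, infAbs_apply F hg, infAbs_apply F hfg, le_max_iff]
    have h1 := RatFunc.intDegree_add_le hg hfg
    rcases le_max_iff.1 h1 with h | h
    · exact Or.inl (zpow_le_zpow_right₀ hq h)
    · exact Or.inr (zpow_le_zpow_right₀ hq h)

theorem infAbs_poly (F : Type) [Field F] [Fintype F] {p : F[X]} (hp : p ≠ 0) :
    infAbs F (algebraMap F[X] (RatFunc F) p) = (Fintype.card F : ℝ) ^ p.natDegree := by
  rw [infAbs_apply F ((map_ne_zero_iff _ (RatFunc.algebraMap_injective F)).2 hp),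
    RatFunc.intDegree_polynomial, zpow_natCast]

theorem card_quot (F : Type) [Field F] [Fintype F] {p : F[X]} (hp : p ≠ 0) :
    Finite (F[X] ⧸ Ideal.span {p}) ∧
      Nat.card (F[X] ⧸ Ideal.span {p}) = Fintype.card F ^ p.natDegree := by
  have h1 : Module.Finite F (F[X] ⧸ Ideal.span {p}) := (AdjoinRoot.powerBasis hp).finite
  have h2 : Finite (F[X] ⧸ Ideal.span {p}) := Module.finite_of_finite F
  refine ⟨h2, ?_⟩
  have := Fintype.ofFinite (F[X] ⧸ Ideal.span {p})
  rw [Nat.card_eq_fintype_card, Module.card_eq_pow_finrank (K := F),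
    finrank_quotient_span_eq_natDegree]

theorem poly_fin (F : Type) [Field F] [Fintype F] (d : ℕ) : {p : F[X] | p.natDegree < d}.Finite := by
  have h1 : Finite (Polynomial.degreeLT F d) :=
    Finite.of_equiv (Fin d → F) (Polynomial.degreeLTEquiv F d).symm.toEquiv
  refine (Set.toFinite (Polynomial.degreeLT F d : Set F[X])).subset ?_
  intro p hp
  have hp' : p.natDegree < d := hp
  show p ∈ Polynomial.degreeLT F d
  rw [Polynomial.mem_degreeLT]
  refine lt_of_le_of_lt Polynomial.degree_le_natDegree ?_
  exact_mod_cast hp'

theorem poly_inst (F : Type) [Field F] [Fintype F] :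
    ∃ (k : Type) (_ : NormedField k) (_ : IsUltrametricDist k) (emb : Unit → F[X] →+* k),
      IsSInt (k := fun _ : Unit => k) emb := by
  refine ⟨RatFunc F, (infAbs F).toNormedField, ?_, fun _ => algebraMap F[X] (RatFunc F), ?_⟩
  · let _ := (infAbs F).toNormedField
    exact IsUltrametricDist.isUltrametricDist_of_forall_norm_add_le_max_norm (infAbs_add F)
  · let _ := (infAbs F).toNormedField
    have hq : 1 < (Fintype.card F : ℝ) := by exact_mod_cast Fintype.one_lt_card
    constructor
    · intro p hp
      obtain ⟨h1, h2⟩ := card_quot F hp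
      refine ⟨h1, ?_⟩
      rw [h2, Finset.univ_unique, Finset.prod_singleton]
      push_cast
      exact infAbs_poly F hp
    · intro B
      obtain ⟨d, hd⟩ := pow_unbounded_of_one_lt B hq
      refine (poly_fin F (d + 1)).subset ?_
      intro p hp
      have h1 : infAbs F (algebraMap F[X] (RatFunc F) p) ≤ B := hp ()
      show p.natDegree < d + 1
      by_cases hp0 : p = 0
      · rw [hp0]
        simp
      rw [infAbs_poly F hp0] at h1
      have h2 := lt_of_le_of_lt h1 hd
      exact Nat.lt_succ_of_lt ((pow_lt_pow_iff_right₀ hq).1 h2)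

end Pool.Agent.Helper78.DF
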