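import Pool.Agent.Helper78.DF.Norm
import Pool.Agent.Helper78.DF.Poly

/-!
# Values, masses, numbers of exceptional eigenvalues
-/

set_option autoImplicit false

open scoped ENNReal ComplexConjugate

noncomputable section

namespace Pool.Agent.Helper78.DF

variable {G : Type} [Group G] {ι : Type} [Fintype ι] {k : ι → Type} [∀ v, NormedField (k v)]
  [∀ v, IsUltrametricDist (k v)] {n : ℕ}

/-- The admissible points: those of the sets `Reg ρ K c a h h'` for the frames `c` of `Γ` and the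
dominant `a`. -/
def Adm (ρ : G →* GLS n k) (Γ K : Subgroup G) (T : ℝ) (h h' : ι → ℝ) : Set (G ⧸ K) :=
  {x | ∃ c a : GLS n k, IsFrame ρ Γ c T ∧ Dominant a ∧ x ∈ Reg ρ K c a h h'}

/-- **Values.** -/
theorem second {ρ : G →* GLS n k} {K : Subgroup G}
    (hK : ∀ κ ∈ K, Bdd (ρ κ) (fun _ => 1)) {Γ : Subgroup G} (hΓ : Disc ρ Γ)
    {J : Type} [Fintype J] {φ : J → G → ℝ} (hφ : ∀ j, IsHecke K (φ j)) {Q Q' : J → ι → ℝ}
    (hQ : ∀ j, SizeBd ρ (φ j) (Q j) (Q' j)) {N : J → ℝ} (hN : ∀ j, NormBd (hker K (φ j)) (N j))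
    {I : Type} [Fintype I] {F : I → G ⧸ K → ℂ} (hF : IsONF Γ F) {lam : I → J → ℂ}
    (hlam : ∀ i j, op (hker K (φ j)) (F i) = fun x => lam i j * F i x)
    (m : J → ℕ) {c a : GLS n k} {T : ℝ} (hc : IsFrame ρ Γ c T) (ha : Dominant a) {h h' : ι → ℝ}
    (hh : ∀ v, 0 < h v ∧ 0 < h' v ∧ 1 ≤ h v * h' v)
    (hT : ∏ v, (h v * h' v * ∏ j, (Q j v * Q' j v) ^ m j) < T)
    (x : G ⧸ K) (hx : x ∈ Reg ρ K c a h h') :
    ∑ i, (∏ j, ‖lam i j‖ ^ (2 * m j)) * ‖F i x‖ ^ 2 ≤
      (∏ j, N j ^ (2 * m j)) * sc (unip ρ Γ c) x := by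
  classical
  have hΔ : unip ρ Γ c ≤ Γ := fun γ hγ => hγ.1
  have hDΔ : Disc ρ (unip ρ Γ c) := fun B => (hΓ B).subset fun γ hγ => ⟨hγ.1.1, hγ.2⟩
  have hst := stab_fin hDΔ hK x
  have hcpos : (0 : ℝ) < sc (unip ρ Γ c) x := sc_pos _ _ hst
  have key := first hK hΓ hφ hQ hN hF hlam m hc ha hh hT (ind (unip ρ Γ c) x)
    (ind_inv _ x) (ind_fin _ x)
    (by
      intro y hy
      obtain ⟨δ, hδ, rfl⟩ := ind_ne hy
      obtain ⟨g, hg, u, b, hu, hb, hb', eg⟩ := hx
      refine ⟨δ * g, ?_, (c⁻¹ * ρ δ * c) * u, b,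
        upper_mul hδ.2 hu, hb, hb', ?_⟩
      · rw [← hg]
        rfl
      · rw [map_mul, eg]
        group)
  have hip : ∀ i, ‖ip (unip ρ Γ c) (F i) (ind (unip ρ Γ c) x)‖ ^ 2 =
      ‖F i x‖ ^ 2 / (sc (unip ρ Γ c) x : ℝ) ^ 2 := by
    intro i
    rw [ip_ind _ x (F i) (fun δ hδ y => hF.inv i δ (hΔ hδ) y), norm_div, Complex.norm_natCast,
      div_pow]
  rw [nsq_ind] at key
  simp_rw [hip] at key
  set C := (sc (unip ρ Γ c) x : ℝ) with hC
  have h2 : ∑ i, (∏ j, ‖lam i j‖ ^ (2 * m j)) * (‖F i x‖ ^ 2 / C ^ 2) =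
      (∑ i, (∏ j, ‖lam i j‖ ^ (2 * m j)) * ‖F i x‖ ^ 2) / C ^ 2 := by
    rw [Finset.sum_div]
    refine Finset.sum_congr rfl fun i _ => ?_
    ring
  rw [h2, div_le_iff₀ (by positivity)] at key
  refine key.trans (le_of_eq ?_)
  field_simp

/-- **Masses.** -/
theorem third {ρ : G →* GLS n k} {K : Subgroup G}
    (hK : ∀ κ ∈ K, Bdd (ρ κ) (fun _ => 1)) {Γ : Subgroup G} (hΓ : Disc ρ Γ)
    {J : Type} [Fintype J] {φ : J → G → ℝ} (hφ : ∀ j, IsHecke K (φ j)) {Q Q' : J → ι → ℝ}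
    (hQ : ∀ j, SizeBd ρ (φ j) (Q j) (Q' j)) {N : J → ℝ} (hN : ∀ j, NormBd (hker K (φ j)) (N j))
    {I : Type} [Fintype I] {F : I → G ⧸ K → ℂ} (hF : IsONF Γ F) {lam : I → J → ℂ}
    (hlam : ∀ i j, op (hker K (φ j)) (F i) = fun x => lam i j * F i x)
    (m : J → ℕ) {T : ℝ} {h h' : ι → ℝ}
    (hh : ∀ v, 0 < h v ∧ 0 < h' v ∧ 1 ≤ h v * h' v)
    (hT : ∏ v, (h v * h' v * ∏ j, (Q j v * Q' j v) ^ m j) < T)
    (O : Finset (Orb Γ (G ⧸ K)))
    (hO : ∀ o ∈ O, Quotient.out o ∈ Adm ρ Γ K T h h') :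
    ∑ i, (∏ j, ‖lam i j‖ ^ (2 * m j)) * mass Γ O (F i) ≤
      (∏ j, N j ^ (2 * m j)) * O.card := by
  classical
  unfold mass
  calc ∑ i, (∏ j, ‖lam i j‖ ^ (2 * m j)) * ∑ o ∈ O, ‖F i (Quotient.out o)‖ ^ 2 /
        (sc Γ (Quotient.out o) : ℝ)
      = ∑ o ∈ O, (∑ i, (∏ j, ‖lam i j‖ ^ (2 * m j)) * ‖F i (Quotient.out o)‖ ^ 2) /
        (sc Γ (Quotient.out o) : ℝ) := by
        simp_rw [Finset.mul_sum, Finset.sum_div]
        rw [Finset.sum_comm]
        refine Finset.sum_congr rfl fun o _ => Finset.sum_congr rfl fun i _ => ?_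
        ring
    _ ≤ ∑ _o ∈ O, (∏ j, N j ^ (2 * m j)) := by
        refine Finset.sum_le_sum fun o ho => ?_
        obtain ⟨c, a, hc, ha, hx⟩ := hO o ho
        have h1 := second hK hΓ hφ hQ hN hF hlam m hc ha hh hT _ hx
        have hst := stab_fin hΓ hK (Quotient.out o)
        have hpos : (0 : ℝ) < sc Γ (Quotient.out o) := sc_pos _ _ hst
        rw [div_le_iff₀ hpos]
        refine h1.trans ?_
        refine mul_le_mul_of_nonneg_left ?_ (Finset.prod_nonneg fun j _ => pow_nonneg (hN j).1 _)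
        have hΔ : unip ρ Γ c ≤ Γ := fun γ hγ => hγ.1
        have hle : sc (unip ρ Γ c) (Quotient.out o) ≤ sc Γ (Quotient.out o) := sc_le hΔ _ hst
        exact_mod_cast hle
    _ = _ := by
        rw [Finset.sum_const, nsmul_eq_mul, mul_comm]

/-- From moments to the number of large eigenvalues. -/
theorem dens {I : Type} [Fintype I] (w l : I → ℝ) (hw : ∀ i, 0 ≤ w i) (hl : ∀ i, 0 ≤ l i)
    {N W H T R r : ℝ} (hN : 0 ≤ N) (hW : 0 ≤ W) (hH : 0 < H) (hHT : H < T) (hR : 1 < R) (hr : 1 < r)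
    (key : ∀ m : ℕ, H * R ^ m < T → ∑ i, l i ^ (2 * m) * w i ≤ N ^ (2 * m) * W) :
    ∑ i with r * N < l i, w i ≤
      r ^ 2 * (H / T) ^ (2 * Real.log r / Real.log R) * W := by
  classical
  have hT0 : 0 < T := hH.trans hHT
  -- the choice of `m`
  have hex : ∃ m : ℕ, T ≤ H * R ^ (m + 1) := by
    obtain ⟨m, hm⟩ := pow_unbounded_of_one_lt (T / H) hR
    refine ⟨m, ?_⟩
    have h1 : T / H ≤ R ^ (m + 1) := hm.le.trans (pow_le_pow_right₀ hR.le (Nat.le_succ m))
    rw [div_le_iff₀ hH] at h1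
    linarith
  set m := Nat.find hex with hm
  have hm1 : T ≤ H * R ^ (m + 1) := Nat.find_spec hex
  have hm2 : H * R ^ m < T := by
    rcases Nat.eq_zero_or_pos m with h0 | hpos
    · rw [h0, pow_zero, mul_one]
      exact hHT
    · have h1 := Nat.find_min hex (m := m - 1) (by omega)
      rw [Nat.sub_add_cancel hpos] at h1
      exact not_le.1 h1
  have h1 := key m hm2
  set S := ∑ i with r * N < l i, w i with hS
  have hr0 : 0 < r := zero_lt_one.trans hr
  -- the bound by `r ^ (-2m)`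
  have h2 : S * r ^ (2 * m) ≤ W := by
    rcases hN.eq_or_lt with h0 | hpos
    · rcases Nat.eq_zero_or_pos m with hm0 | hmpos
      · rw [hm0] at h1 ⊢
        simp only [mul_zero, pow_zero, one_mul, mul_one] at h1 ⊢
        refine le_trans ?_ h1
        exact Finset.sum_le_sum_of_subset_of_nonneg (Finset.filter_subset _ _)
          fun i _ _ => hw i
      · rw [← h0, zero_pow (by omega), zero_mul] at h1
        have h3 : ∀ i, l i ^ (2 * m) * w i = 0 := by
          intro i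
          refine le_antisymm ?_ (mul_nonneg (pow_nonneg (hl i) _) (hw i))
          refine le_trans ?_ h1
          exact Finset.single_le_sum (f := fun i => l i ^ (2 * m) * w i)
            (fun i _ => mul_nonneg (pow_nonneg (hl i) _) (hw i)) (Finset.mem_univ i)
        have h4 : S = 0 := by
          refine Finset.sum_eq_zero fun i hi => ?_
          have hi' := (Finset.mem_filter.1 hi).2
          rw [← h0, mul_zero] at hi'
          exact (mul_eq_zero.1 (h3 i)).resolve_left (pow_ne_zero _ hi'.ne')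
        rw [h4, zero_mul]
        exact hW
    · have h3 : S * (r * N) ^ (2 * m) ≤ N ^ (2 * m) * W := by
        refine le_trans ?_ h1
        rw [hS, Finset.sum_mul]
        refine le_trans ?_ (Finset.sum_le_sum_of_subset_of_nonneg (Finset.filter_subset
          (fun i => r * N < l i) Finset.univ)
          fun i _ _ => mul_nonneg (pow_nonneg (hl i) _) (hw i))
        refine Finset.sum_le_sum fun i hi => ?_
        have hi' := (Finset.mem_filter.1 hi).2
        rw [mul_comm]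
        refine mul_le_mul_of_nonneg_right ?_ (hw i)
        exact pow_le_pow_left₀ (by positivity) hi'.le _
      rw [mul_pow, ← mul_assoc, mul_comm] at h3
      exact le_of_mul_le_mul_left h3 (by positivity)
  -- the real power
  have h3 : (T / H) ^ (2 * Real.log r / Real.log R) ≤ r ^ (2 * (m + 1)) := by
    have hlogR : 0 < Real.log R := Real.log_pos hR
    have hlogr : 0 < Real.log r := Real.log_pos hr
    have h4 : T / H ≤ R ^ (m + 1) := by
      rw [div_le_iff₀ hH]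
      linarith
    calc (T / H) ^ (2 * Real.log r / Real.log R)
        ≤ (R ^ (m + 1)) ^ (2 * Real.log r / Real.log R) :=
          Real.rpow_le_rpow (by positivity) h4 (by positivity)
      _ = r ^ (2 * (m + 1)) := by
          rw [← Real.rpow_natCast R, ← Real.rpow_mul (by positivity),
            ← Real.rpow_natCast r, Real.rpow_def_of_pos (by positivity),
            Real.rpow_def_of_pos hr0]
          congr 1
          push_cast
          field_simp
  have hHTpos : 0 < T / H := by positivity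
  have h5 : (H / T) ^ (2 * Real.log r / Real.log R) =
      ((T / H) ^ (2 * Real.log r / Real.log R))⁻¹ := by
    rw [← Real.inv_rpow hHTpos.le, inv_div]
  rw [h5]
  have hp : 0 < (T / H) ^ (2 * Real.log r / Real.log R) := Real.rpow_pos_of_pos hHTpos _
  have hS0 : 0 ≤ S := Finset.sum_nonneg fun i _ => hw i
  have h6 : S * (T / H) ^ (2 * Real.log r / Real.log R) ≤ r ^ 2 * W := by
    calc S * (T / H) ^ (2 * Real.log r / Real.log R) ≤ S * r ^ (2 * (m + 1)) :=
          mul_le_mul_of_nonneg_left h3 hS0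
      _ = r ^ 2 * (S * r ^ (2 * m)) := by ring
      _ ≤ r ^ 2 * W := mul_le_mul_of_nonneg_left h2 (by positivity)
  rw [← le_div_iff₀ hp] at h6
  refine h6.trans (le_of_eq ?_)
  field_simp

end Pool.Agent.Helper78.DF
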