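import Pool.Agent.Helper78.DF.Final

/-!
# Orbits of a subgroup of finite index; principal congruence subgroups
-/

set_option autoImplicit false

open scoped ENNReal ComplexConjugate

noncomputable section

namespace Pool.Agent.Helper78.DF

section gen
variable {G : Type} [Group G] {X : Type} [MulAction G X]

theorem orbits_le {Γ Γ₁ : Subgroup G} (hle : Γ ≤ Γ₁) (hfin : Γ.relIndex Γ₁ ≠ 0) (D : Finset X) :
    ∃ O : Finset (Orb Γ X), O.card ≤ Γ.relIndex Γ₁ * D.card ∧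
      (∀ x, (∃ γ ∈ Γ₁, γ • x ∈ D) → Quotient.mk (MulAction.orbitRel Γ X) x ∈ O) ∧
      ∀ o ∈ O, ∃ γ ∈ Γ₁, ∃ x ∈ D, Quotient.out o = γ • x := by
  classical
  have hfi : (Γ.subgroupOf Γ₁).FiniteIndex := ⟨hfin⟩
  have hfin' : Finite (Γ₁ ⧸ Γ.subgroupOf Γ₁) := inferInstance
  have := Fintype.ofFinite (Γ₁ ⧸ Γ.subgroupOf Γ₁)
  set f : (Γ₁ ⧸ Γ.subgroupOf Γ₁) × X → Orb Γ X := fun p =>
    Quotient.mk (MulAction.orbitRel Γ X) (((p.1.out : Γ₁) : G)⁻¹ • p.2) with hf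
  refine ⟨(Finset.univ ×ˢ D).image f, ?_, ?_, ?_⟩
  · refine Finset.card_image_le.trans ?_
    rw [Finset.card_product, Finset.card_univ, ← Nat.card_eq_fintype_card]
    exact le_rfl
  · rintro x ⟨γ, hγ, hx⟩
    rw [Finset.mem_image]
    refine ⟨(QuotientGroup.mk (⟨γ, hγ⟩ : Γ₁), γ • x), ?_, ?_⟩
    · rw [Finset.mem_product]
      exact ⟨Finset.mem_univ _, hx⟩
    · obtain ⟨η, hη⟩ := QuotientGroup.mk_out_eq_mul (Γ.subgroupOf Γ₁) (⟨γ, hγ⟩ : Γ₁)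
      show Quotient.mk (MulAction.orbitRel Γ X) ((((QuotientGroup.mk (⟨γ, hγ⟩ : Γ₁) :
        Γ₁ ⧸ Γ.subgroupOf Γ₁).out : Γ₁) : G)⁻¹ • γ • x) = _
      rw [hη]
      refine Quotient.sound ?_
      refine ⟨⟨((η : Γ₁) : G)⁻¹, Γ.inv_mem η.2⟩, ?_⟩
      show ((η : Γ₁) : G)⁻¹ • x = (((⟨γ, hγ⟩ : Γ₁) * (η : Γ₁) : Γ₁) : G)⁻¹ • γ • x
      rw [Subgroup.coe_mul, mul_inv_rev, mul_smul, inv_smul_smul]
  · intro o ho
    obtain ⟨⟨q, x⟩, hp, rfl⟩ := Finset.mem_image.1 ho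
    obtain ⟨η, hη⟩ := Quotient.mk_out (s := MulAction.orbitRel Γ X) (((q.out : Γ₁) : G)⁻¹ • x)
    refine ⟨(η : G) * ((q.out : Γ₁) : G)⁻¹, Γ₁.mul_mem (hle η.2) (Γ₁.inv_mem (q.out).2), x,
      (Finset.mem_product.1 hp).2, ?_⟩
    rw [mul_smul]
    exact hη.symm

theorem orbits_le' {Γ Γ₁ : Subgroup G} (hle : Γ ≤ Γ₁) (hfin : Γ.relIndex Γ₁ ≠ 0) (D : Finset X) :
    ∃ O : Finset (Orb Γ X), O.card ≤ Γ.relIndex Γ₁ * D.card ∧
      (∀ o : Orb Γ X, (∃ γ ∈ Γ₁, γ • (Quotient.out o) ∈ D) → o ∈ O) ∧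
      ∀ o ∈ O, ∃ γ ∈ Γ₁, ∃ x ∈ D, Quotient.out o = γ • x := by
  obtain ⟨O, h1, h2, h3⟩ := orbits_le hle hfin D
  refine ⟨O, h1, fun o ho => ?_, h3⟩
  have h4 := h2 _ ho
  have h5 : Quotient.mk (MulAction.orbitRel Γ X) (Quotient.out o) = o := Quotient.out_eq o
  rwa [h5] at h4

end gen

variable {G : Type} [Group G] {A : Type} [CommRing A] {ι : Type} {k : ι → Type} [∀ v, NormedField (k v)] {n : ℕ}

theorem prin_mono (ρ : G →* GLS n k) (emb : ∀ v, A →+* k v) (𝔫 : Ideal A) :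
    prin ρ emb 𝔫 ≤ prin ρ emb ⊤ := by
  intro γ hγ
  obtain ⟨M, _, h2⟩ := mem_prin.1 hγ
  exact mem_prin.2 ⟨M, fun i j => Submodule.mem_top, h2⟩

theorem prin_conj (ρ : G →* GLS n k) (emb : ∀ v, A →+* k v) (𝔫 : Ideal A) {γ η : G}
    (hγ : γ ∈ prin ρ emb ⊤) (hη : η ∈ prin ρ emb 𝔫) : γ⁻¹ * η * γ ∈ prin ρ emb 𝔫 := by
  obtain ⟨M, _, hM⟩ := hγ
  obtain ⟨N, hN, hN'⟩ := hη
  refine ⟨M⁻¹ * N * M, ?_, ?_⟩
  · have h1 := (MonoidHom.normal_ker (Matrix.GeneralLinearGroup.map (n := Fin n)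
      (Ideal.Quotient.mk 𝔫))).conj_mem N hN M⁻¹
    rw [inv_inv] at h1
    exact h1
  · rw [map_mul, map_mul, map_inv, hM, hN', map_mul, map_mul, map_inv]

theorem prin_index (ρ : G →* GLS n k) (emb : ∀ v, A →+* k v) (𝔫 : Ideal A)
    [Finite (A ⧸ 𝔫)] : (prin ρ emb 𝔫).relIndex (prin ρ emb ⊤) ≠ 0 := by
  classical
  have h1 : (MonoidHom.ker (Matrix.GeneralLinearGroup.map (n := Fin n)
      (Ideal.Quotient.mk 𝔫))).index ≠ 0 := by
    have hf : Finite (Matrix (Fin n) (Fin n) (A ⧸ 𝔫)) := Pi.finite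
    have hf' : Finite (Matrix.GeneralLinearGroup (Fin n) (A ⧸ 𝔫)) :=
      Finite.of_injective (fun g => g.1) Units.val_injective
    rw [Subgroup.index_ker]
    exact Nat.card_pos.ne'
  have h2 : (Subgroup.map (toS n emb) (MonoidHom.ker (Matrix.GeneralLinearGroup.map (n := Fin n)
      (Ideal.Quotient.mk 𝔫)))).relIndex (Subgroup.map (toS n emb) ⊤) ≠ 0 := by
    intro h0
    apply h1
    rw [← Subgroup.relIndex_top_right]
    have h3 := Subgroup.relIndex_comap (Subgroup.map (toS n emb) (MonoidHom.ker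
      (Matrix.GeneralLinearGroup.map (n := Fin n) (Ideal.Quotient.mk 𝔫)))) (toS n emb) ⊤
    rw [h0] at h3
    have h4 : (MonoidHom.ker (Matrix.GeneralLinearGroup.map (n := Fin n) (Ideal.Quotient.mk 𝔫))) ≤
        Subgroup.comap (toS n emb) (Subgroup.map (toS n emb) (MonoidHom.ker
          (Matrix.GeneralLinearGroup.map (n := Fin n) (Ideal.Quotient.mk 𝔫)))) :=
      Subgroup.le_comap_map _ _
    have h5 := Subgroup.relIndex_dvd_of_le_left (⊤ : Subgroup _) h4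
    rw [h3] at h5
    exact Nat.eq_zero_of_zero_dvd h5
  have h6 : (prin ρ emb 𝔫).relIndex (prin ρ emb ⊤) =
      (Subgroup.map (toS n emb) (MonoidHom.ker (Matrix.GeneralLinearGroup.map (n := Fin n)
      (Ideal.Quotient.mk 𝔫)))).relIndex (Subgroup.map ρ (prin ρ emb ⊤)) := by
    unfold prin
    rw [Subgroup.relIndex_comap]
  rw [h6]
  intro h0
  apply h2
  refine Subgroup.relIndex_eq_zero_of_le_right ?_ h0
  rw [Subgroup.map_le_iff_le_comap]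
  intro γ hγ
  obtain ⟨M, _, hM⟩ := hγ
  exact ⟨M, Subgroup.mem_top _, hM⟩

end Pool.Agent.Helper78.DF
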