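import Pool.Agent.Helper78.DF.Defs

/-!
# Matrices: the elements of a level subgroup which move a point of a Siegel set little are unipotent
-/

set_option autoImplicit false

open scoped ENNReal

noncomputable section

namespace Pool.Agent.Helper78.DF

section defs
variable {n : ℕ} {ι : Type} (k : ι → Type) [∀ v, NormedField (k v)]

variable {k}

/-- Every entry of `g - 1` is zero (at all `v`) or has absolute value (product over `v`) at least `T`. -/
def Sparse [Fintype ι] (g : GLS n k) (T : ℝ) : Prop :=
  ∀ i j, (∀ v, (g v).1 i j = (1 : Matrix (Fin n) (Fin n) (k v)) i j) ∨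
    T ≤ ∏ v, ‖(g v).1 i j - (1 : Matrix (Fin n) (Fin n) (k v)) i j‖

end defs

variable {n : ℕ} {ι : Type} {k : ι → Type} [∀ v, NormedField (k v)]

theorem Bdd.mono {g : GLS n k} {B B' : ι → ℝ} (h : Bdd g B) (hB : ∀ v, B v ≤ B' v) : Bdd g B' :=
  fun v i j => (h v i j).trans (hB v)

theorem Bdd.mul [∀ v, IsUltrametricDist (k v)] {g g' : GLS n k} {B B' : ι → ℝ}
    (hB : ∀ v, 0 ≤ B v) (hB' : ∀ v, 0 ≤ B' v) (h : Bdd g B) (h' : Bdd g' B') :
    Bdd (g * g') (fun v => B v * B' v) := by
  intro v i j
  show ‖((g v).1 * (g' v).1) i j‖ ≤ B v * B' v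
  rw [Matrix.mul_apply]
  refine IsUltrametricDist.norm_sum_le_of_forall_le_of_nonneg (mul_nonneg (hB v) (hB' v)) ?_
  intro l _
  rw [norm_mul]
  exact mul_le_mul (h v i l) (h' v l j) (norm_nonneg _) (hB v)

theorem bdd_one [∀ v, IsUltrametricDist (k v)] : Bdd (1 : GLS n k) (fun _ => 1) := by
  intro v i j
  show ‖(1 : Matrix (Fin n) (Fin n) (k v)) i j‖ ≤ 1
  rw [Matrix.one_apply]
  split_ifs <;> simp

theorem upper_mul {u u' : GLS n k} (h : Upper u) (h' : Upper u') : Upper (u * u') := by
  intro v i j
  have key : ∀ i j : Fin n, ((u v).1 * (u' v).1) i j =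
      ∑ l, (u v).1 i l * (u' v).1 l j := fun i j => Matrix.mul_apply
  constructor
  · intro hij
    show ((u v).1 * (u' v).1) i j = 0
    rw [key]
    refine Finset.sum_eq_zero fun l _ => ?_
    rcases lt_or_ge l i with hl | hl
    · rw [(h v i l).1 hl, zero_mul]
    · rw [(h' v l j).1 (lt_of_lt_of_le hij hl), mul_zero]
  · show ((u v).1 * (u' v).1) i i = 1
    rw [key, Finset.sum_eq_single i]
    · rw [(h v i i).2, (h' v i i).2, mul_one]
    · intro l _ hl
      rcases lt_or_gt_of_ne hl with hl | hl
      · rw [(h v i l).1 hl, zero_mul]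
      · rw [(h' v l i).1 hl, mul_zero]
    · intro hi
      exact absurd (Finset.mem_univ i) hi

theorem upper_one : Upper (1 : GLS n k) := by
  intro v i j
  constructor
  · intro h
    show (1 : Matrix (Fin n) (Fin n) (k v)) i j = 0
    rw [Matrix.one_apply_ne (ne_of_gt h)]
  · show (1 : Matrix (Fin n) (Fin n) (k v)) i i = 1
    rw [Matrix.one_apply_eq]

theorem upper_inv {u : GLS n k} (h : Upper u) : Upper u⁻¹ := by
  intro v
  have hb : Matrix.BlockTriangular (u v).1 (id : Fin n → Fin n) := fun i j hij => (h v i j).1 hij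
  have hinv : Invertible (u v).1 := (u v).invertible
  have hb' : Matrix.BlockTriangular (u v).1⁻¹ (id : Fin n → Fin n) :=
    Matrix.blockTriangular_inv_of_blockTriangular hb
  have e : (u⁻¹ v).1 = (u v).1⁻¹ := by
    exact Matrix.coe_units_inv (u v)
  have hmul : (u v).1 * (u v).1⁻¹ = 1 := Matrix.mul_nonsing_inv _
    ((Matrix.isUnit_iff_isUnit_det _).1 (u v).isUnit)
  intro i j
  constructor
  · intro hij
    rw [e]
    exact hb' hij
  · rw [e]
    have h1 : ((u v).1 * (u v).1⁻¹) i i = 1 := by rw [hmul, Matrix.one_apply_eq]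
    rw [Matrix.mul_apply, Finset.sum_eq_single i] at h1
    · rwa [(h v i i).2, one_mul] at h1
    · intro l _ hl
      rcases lt_or_gt_of_ne hl with hl | hl
      · rw [(h v i l).1 hl, zero_mul]
      · have : (u v).1⁻¹ l i = 0 := hb' hl
        rw [this, mul_zero]
    · intro hi
      exact absurd (Finset.mem_univ i) hi

/-- the group of upper unitriangular elements -/
def upperSub (n : ℕ) {ι : Type} (k : ι → Type) [∀ v, NormedField (k v)] : Subgroup (GLS n k) where
  carrier := {u | Upper u}
  mul_mem' := upper_mul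
  one_mem' := upper_one
  inv_mem' := upper_inv

/-- **The corner induction.** -/
theorem corner [Fintype ι] [∀ v, IsUltrametricDist (k v)] {g u u' a M : GLS n k} {B : ι → ℝ}
    {T : ℝ} (hB : ∀ v, 1 ≤ B v) (hT : ∏ v, B v < T) (hg : Sparse g T) (hu : Upper u)
    (hu' : Upper u') (ha : Dominant a) (hM : Bdd M B) (e : g * u' * a = u * a * M) : Upper g := by
  classical
  -- nonvanishing of the diagonal
  have ha0 : ∀ v i, (a v).1 i i ≠ 0 := by
    intro v i h0
    have h1 : ((a v).1 * (a v)⁻¹.1) i i = 1 := by
      rw [← Units.val_mul, mul_inv_cancel]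
      exact Matrix.one_apply_eq i
    rw [Matrix.mul_apply, Finset.sum_eq_zero] at h1
    · exact zero_ne_one h1
    · intro l _
      by_cases hl : i = l
      · rw [← hl, h0, zero_mul]
      · rw [ha.1 v i l hl, zero_mul]
  have eL : ∀ v i j, ((g * u' * a) v).1 i j =
      (∑ l, (g v).1 i l * (u' v).1 l j) * (a v).1 j j := by
    intro v i j
    show ((g v).1 * (u' v).1 * (a v).1) i j = _
    rw [Matrix.mul_apply, Finset.sum_eq_single j]
    · rw [Matrix.mul_apply]
    · intro l _ hl
      rw [ha.1 v l j hl, mul_zero]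
    · intro h
      exact absurd (Finset.mem_univ j) h
  have eR : ∀ v i j, ((u * a * M) v).1 i j =
      ∑ l, (u v).1 i l * (a v).1 l l * (M v).1 l j := by
    intro v i j
    show ((u v).1 * (a v).1 * (M v).1) i j = _
    rw [Matrix.mul_apply]
    refine Finset.sum_congr rfl fun l _ => ?_
    congr 1
    rw [Matrix.mul_apply, Finset.sum_eq_single l]
    · intro l' _ hl'
      rw [ha.1 v l' l hl', mul_zero]
    · intro h
      exact absurd (Finset.mem_univ l) h
  have eq : ∀ v i j, (∑ l, (g v).1 i l * (u' v).1 l j) * (a v).1 j j =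
      ∑ l, (u v).1 i l * (a v).1 l l * (M v).1 l j := by
    intro v i j
    rw [← eL, ← eR, e]
  -- the norm bound for `a_i M_ij / a_j`
  have hbound : ∀ i j, j ≤ i → ∏ v, ‖(a v).1 i i * (M v).1 i j / (a v).1 j j‖ < T := by
    intro i j hij
    refine lt_of_le_of_lt ?_ hT
    have h1 := ha.2 i j hij
    have hpos : ∀ j, 0 < ∏ v, ‖(a v).1 j j‖ := fun j =>
      Finset.prod_pos fun v _ => norm_pos_iff.2 (ha0 v j)
    calc ∏ v, ‖(a v).1 i i * (M v).1 i j / (a v).1 j j‖
        = (∏ v, ‖(a v).1 i i‖) * (∏ v, ‖(M v).1 i j‖) / ∏ v, ‖(a v).1 j j‖ := by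
          rw [← Finset.prod_mul_distrib, ← Finset.prod_div_distrib]
          refine Finset.prod_congr rfl fun v _ => ?_
          rw [norm_div, norm_mul]
      _ ≤ (∏ v, ‖(a v).1 j j‖) * (∏ v, ‖(M v).1 i j‖) / ∏ v, ‖(a v).1 j j‖ := by
          refine div_le_div_of_nonneg_right ?_ (hpos j).le
          exact mul_le_mul_of_nonneg_right h1 (Finset.prod_nonneg fun v _ => norm_nonneg _)
      _ = ∏ v, ‖(M v).1 i j‖ := by
          exact mul_div_cancel_left₀ _ (hpos j).ne'
      _ ≤ ∏ v, B v := Finset.prod_le_prod (fun v _ => norm_nonneg _) fun v _ => hM v i j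
  -- below the diagonal
  have low : ∀ m : ℕ, ∀ i j : Fin n, j < i → (n - i.1) + j.1 = m → ∀ v,
      (g v).1 i j = 0 ∧ (M v).1 i j = 0 := by
    intro m
    induction m using Nat.strong_induction_on with
    | _ m ih =>
      intro i j hij hm
      have hg' : ∀ l : Fin n, l < j → ∀ v, (g v).1 i l = 0 := by
        intro l hl v
        refine (ih ((n - i.1) + l.1) ?_ i l (hl.trans hij) rfl v).1
        have : l.1 < j.1 := hl
        omega
      have hM' : ∀ l : Fin n, i < l → ∀ v, (M v).1 l j = 0 := by
        intro l hl v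
        refine (ih ((n - l.1) + j.1) ?_ l j (hij.trans hl) rfl v).2
        have h1 : i.1 < l.1 := hl
        have h2 := l.2
        omega
      have key : ∀ v, (g v).1 i j = (a v).1 i i * (M v).1 i j / (a v).1 j j := by
        intro v
        have h1 := eq v i j
        rw [Finset.sum_eq_single j, Finset.sum_eq_single i] at h1
        · rw [(hu' v j j).2, (hu v i i).2, mul_one, one_mul] at h1
          rw [eq_div_iff (ha0 v j), h1]
        · intro l _ hl
          rcases lt_or_gt_of_ne hl with hl | hl
          · rw [(hu v i l).1 hl, zero_mul, zero_mul]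
          · rw [hM' l hl v, mul_zero]
        · intro h
          exact absurd (Finset.mem_univ i) h
        · intro l _ hl
          rcases lt_or_gt_of_ne hl with hl | hl
          · rw [hg' l hl v, zero_mul]
          · rw [(hu' v l j).1 hl, mul_zero]
        · intro h
          exact absurd (Finset.mem_univ j) h
      have hz : ∀ v, (g v).1 i j = 0 := by
        rcases hg i j with h | h
        · intro v
          rw [h v, Matrix.one_apply_ne (ne_of_gt hij)]
        · exfalso
          have h2 := hbound i j hij.le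
          have h3 : ∏ v, ‖(g v).1 i j - (1 : Matrix (Fin n) (Fin n) (k v)) i j‖ =
              ∏ v, ‖(a v).1 i i * (M v).1 i j / (a v).1 j j‖ := by
            refine Finset.prod_congr rfl fun v _ => ?_
            rw [Matrix.one_apply_ne (ne_of_gt hij), sub_zero, key v]
          rw [h3] at h
          exact absurd h (not_le.2 h2)
      intro v
      refine ⟨hz v, ?_⟩
      have h1 := key v
      rw [hz v, eq_comm, div_eq_zero_iff] at h1
      rcases h1 with h1 | h1
      · rcases mul_eq_zero.1 h1 with h1 | h1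
        · exact absurd h1 (ha0 v i)
        · exact h1
      · exact absurd h1 (ha0 v j)
  have low' : ∀ i j : Fin n, j < i → ∀ v, (g v).1 i j = 0 ∧ (M v).1 i j = 0 :=
    fun i j hij => low _ i j hij rfl
  have diag : ∀ i v, (g v).1 i i = 1 := by
    intro i
    have key : ∀ v, (g v).1 i i = (M v).1 i i := by
      intro v
      have h1 := eq v i i
      rw [Finset.sum_eq_single i, Finset.sum_eq_single i] at h1
      · rw [(hu' v i i).2, (hu v i i).2, mul_one, one_mul, mul_comm] at h1
        exact mul_left_cancel₀ (ha0 v i) h1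
      · intro l _ hl
        rcases lt_or_gt_of_ne hl with hl | hl
        · rw [(hu v i l).1 hl, zero_mul, zero_mul]
        · rw [(low' l i hl v).2, mul_zero]
      · intro h
        exact absurd (Finset.mem_univ i) h
      · intro l _ hl
        rcases lt_or_gt_of_ne hl with hl | hl
        · rw [(low' i l hl v).1, zero_mul]
        · rw [(hu' v l i).1 hl, mul_zero]
      · intro h
        exact absurd (Finset.mem_univ i) h
    rcases hg i i with h | h
    · intro v
      rw [h v, Matrix.one_apply_eq]
    · exfalso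
      refine absurd h (not_le.2 (lt_of_le_of_lt ?_ hT))
      refine Finset.prod_le_prod (fun v _ => norm_nonneg _) fun v _ => ?_
      rw [Matrix.one_apply_eq, key v]
      rw [sub_eq_add_neg]
      refine (IsUltrametricDist.norm_add_le_max _ _).trans ?_
      rw [norm_neg, norm_one]
      exact max_le (hM v i i) (hB v)
  intro v i j
  exact ⟨fun hij => (low' i j hij v).1, diag i v⟩

end Pool.Agent.Helper78.DF
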