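import Pool.Agent.Helper78.DF.Cpx

/-!
# Indicator functions of orbits, masses
-/

set_option autoImplicit false

open scoped ENNReal ComplexConjugate

noncomputable section

namespace Pool.Agent.Helper78.DF

variable {G : Type} [Group G] {X : Type} [MulAction G X]

/-- The mass of `F` on a finite set `O` of orbits of `Γ`. -/
def mass (Γ : Subgroup G) (O : Finset (Orb Γ X)) (F : X → ℂ) : ℝ :=
  ∑ o ∈ O, ‖F (Quotient.out o)‖ ^ 2 / (sc Γ (Quotient.out o) : ℝ)

open Classical in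
/-- indicator function of an orbit -/
def ind (Δ : Subgroup G) (x : X) (y : X) : ℂ := if y ∈ MulAction.orbit Δ x then 1 else 0

theorem ind_one {Δ : Subgroup G} {x y : X} (hy : y ∈ MulAction.orbit Δ x) : ind Δ x y = 1 := if_pos hy

theorem ind_ne {Δ : Subgroup G} {x y : X} (hy : ind Δ x y ≠ 0) : ∃ δ ∈ Δ, δ • x = y := by
  by_cases h : y ∈ MulAction.orbit Δ x
  · obtain ⟨δ, hδ⟩ := h
    exact ⟨δ, δ.2, hδ⟩
  · exact absurd (if_neg h) hy

theorem ind_inv (Δ : Subgroup G) (x : X) : ∀ γ ∈ Δ, ∀ y, ind Δ x (γ • y) = ind Δ x y := by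
  intro γ hγ y
  have h1 : (γ • y ∈ MulAction.orbit Δ x) ↔ y ∈ MulAction.orbit Δ x := by
    constructor
    · rintro ⟨δ, hδ⟩
      refine ⟨⟨γ, hγ⟩⁻¹ * δ, ?_⟩
      have hδ' : δ • x = (⟨γ, hγ⟩ : Δ) • y := hδ
      show (⟨γ, hγ⟩⁻¹ * δ : Δ) • x = y
      rw [mul_smul, hδ', inv_smul_smul]
    · rintro ⟨δ, hδ⟩
      refine ⟨⟨γ, hγ⟩ * δ, ?_⟩
      have hδ' : δ • x = y := hδ
      show (⟨γ, hγ⟩ * δ : Δ) • x = γ • y
      rw [mul_smul, hδ']
      rfl
  classical
  unfold ind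
  by_cases h : y ∈ MulAction.orbit Δ x
  · rw [if_pos h, if_pos (h1.2 h)]
  · rw [if_neg h, if_neg (fun h' => h (h1.1 h'))]

theorem ind_out {Δ : Subgroup G} {x : X} {o : Orb Δ X} (ho : ind Δ x (Quotient.out o) ≠ 0) :
    o = Quotient.mk _ x := by
  obtain ⟨δ, hδ, e⟩ := ind_ne ho
  rw [← Quotient.out_eq o]
  exact Quotient.sound ⟨⟨δ, hδ⟩, e⟩

theorem ind_fin (Δ : Subgroup G) (x : X) : {o : Orb Δ X | ind Δ x (Quotient.out o) ≠ 0}.Finite :=
  (Set.finite_singleton (Quotient.mk _ x)).subset fun _ ho => ind_out ho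

theorem out_mem (Δ : Subgroup G) (x : X) :
    Quotient.out (Quotient.mk (MulAction.orbitRel Δ X) x) ∈ MulAction.orbit Δ x :=
  Quotient.mk_out (s := MulAction.orbitRel Δ X) x

theorem sc_out (Δ : Subgroup G) (x : X) :
    sc Δ (Quotient.out (Quotient.mk (MulAction.orbitRel Δ X) x)) = sc Δ x := by
  obtain ⟨δ, hδ⟩ := out_mem Δ x
  have hδ' : δ • x = Quotient.out (Quotient.mk (MulAction.orbitRel Δ X) x) := hδ
  refine Nat.card_congr (MulAction.stabilizerEquivStabilizer (g := δ⁻¹) ?_).toEquiv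
  rw [← hδ', inv_smul_smul]

theorem ip_ind (Δ : Subgroup G) (x : X) (F : X → ℂ) (hF : ∀ δ ∈ Δ, ∀ y, F (δ • y) = F y) :
    ip Δ F (ind Δ x) = F x / sc Δ x := by
  unfold ip
  rw [tsum_eq_single (Quotient.mk _ x)]
  · rw [ind_one (out_mem Δ x), sc_out, map_one, mul_one]
    obtain ⟨δ, hδ⟩ := out_mem Δ x
    have hδ' : (δ : G) • x = Quotient.out (Quotient.mk (MulAction.orbitRel Δ X) x) := hδ
    rw [← hδ', hF δ δ.2]
  · intro o ho
    have : ind Δ x (Quotient.out o) = 0 := by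
      by_contra hcon
      exact ho (ind_out hcon)
    rw [this]
    simp

theorem nsq_ind (Δ : Subgroup G) (x : X) : nsq Δ (ind Δ x) = 1 / (sc Δ x : ℝ) := by
  unfold nsq
  rw [tsum_eq_single (Quotient.mk _ x)]
  · rw [ind_one (out_mem Δ x), sc_out]
    simp
  · intro o ho
    have : ind Δ x (Quotient.out o) = 0 := by
      by_contra hcon
      exact ho (ind_out hcon)
    rw [this]
    simp

theorem mass_one {Γ : Subgroup G} {I : Type} {F : I → X → ℂ} (hF : IsONF Γ F) (i : I)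
    (O : Finset (Orb Γ X)) (hO : ∀ o : Orb Γ X, F i (Quotient.out o) ≠ 0 → o ∈ O) :
    mass Γ O (F i) = 1 := by
  have h1 := hF.one i
  unfold ip at h1
  rw [tsum_eq_sum (s := O)] at h1
  · have h2 : ((mass Γ O (F i) : ℝ) : ℂ) = ((1 : ℝ) : ℂ) := by
      unfold mass
      push_cast
      rw [← h1]
      refine Finset.sum_congr rfl fun o _ => ?_
      rw [Complex.mul_conj']
    exact_mod_cast h2
  · intro o ho
    have : F i (Quotient.out o) = 0 := by
      by_contra hcon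
      exact ho (hO o hcon)
    rw [this]
    simp

theorem sc_pos (Γ : Subgroup G) (x : X) (hx : Finite (MulAction.stabilizer Γ x)) :
    (0 : ℝ) < sc Γ x := by
  have : 0 < sc Γ x := Nat.card_pos
  exact_mod_cast this

theorem sc_le {Γ Δ : Subgroup G} (hΔ : Δ ≤ Γ) (x : X) (hx : Finite (MulAction.stabilizer Γ x)) :
    sc Δ x ≤ sc Γ x := by
  refine Nat.card_le_card_of_injective
    (fun s : MulAction.stabilizer Δ x =>
      (⟨Subgroup.inclusion hΔ s.1, s.2⟩ : MulAction.stabilizer Γ x)) ?_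
  intro s t hst
  have h3 := congrArg (fun z : MulAction.stabilizer Γ x => ((z : Γ) : G)) hst
  exact Subtype.ext (Subtype.ext h3)

end Pool.Agent.Helper78.DF
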